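import Pool.Agent.Lib.MP_f612df_an.Side

/-!
# The a priori estimate
-/

open MeasureTheory Real Filter Topology Set
open scoped SchwartzMap FourierTransform ENNReal

namespace Pool.Agent.Lib.MP_f612df_an

/-- Combination of the phase space inequality with the two Wirtinger inequalities. -/
theorem apriori {p q : ℝ} {x y : ℤ → ℝ} (hpq : p.HolderConjugate q)
    (hmx : Monotone x) (hmy : Monotone y)
    (hx : Tendsto (fun n => |x n|) cofinite atTop) (hy : Tendsto (fun n => |y n|) cofinite atTop)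
    (hlx : limsup (fun n : ℤ => ((|x n| ^ (p - 1) * |x (n + 1) - x n| : ℝ) : EReal)) cofinite
      < ((1 / 2 : ℝ) : EReal))
    (hly : limsup (fun n : ℤ => ((|y n| ^ (q - 1) * |y (n + 1) - y n| : ℝ) : EReal)) cofinite
      < ((1 / 2 : ℝ) : EReal)) (k : ℕ) :
    ∃ A : ℝ, 1 ≤ A ∧ ∃ C : ℝ, 0 ≤ C ∧ ∀ δ : ℝ, 0 ≤ δ → ∀ (u : 𝓢(ℝ, ℂ)) (E : ℝ), 0 ≤ E →
      (∀ n : ℤ, (1 + |(n : ℝ)|) ^ 2 * (max (br A (x n)) (br A (x (n + 1))) ^ (p - 1) *
        ((ww A p δ k (x n) * ‖u (x n)‖) ^ 2 +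
          (ww A p δ k (x (n + 1)) * ‖u (x (n + 1))‖) ^ 2)) ≤ E) →
      (∀ n : ℤ, (1 + |(n : ℝ)|) ^ 2 * (max (br A (y n)) (br A (y (n + 1))) ^ (q - 1) *
        ((ww A q δ k (y n) * ‖(𝓕 u) (y n)‖) ^ 2 +
          (ww A q δ k (y (n + 1)) * ‖(𝓕 u) (y (n + 1))‖) ^ 2)) ≤ E) →
      intW A p δ k u ≤ C * (E + ∫ t, ‖u t‖ ^ 2) ∧
      intW A q δ k (𝓕 u) ≤ C * (E + ∫ t, ‖u t‖ ^ 2) := by
  have hp : 1 < p := hpq.lt
  have hq : 1 < q := hpq.symm.lt
  obtain ⟨θx, hθx0, hθx1, Hx⟩ := side_ineq hp hmx hx hlx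
  obtain ⟨θy, hθy0, hθy1, Hy⟩ := side_ineq hq hmy hy hly
  set θ := max θx θy with hθ
  have hθ1 : θ < 1 := max_lt hθx1 hθy1
  have hθ0 : 0 ≤ θ := hθx0.trans (le_max_left _ _)
  set ε := (1 - θ) / 2 with hε
  have hε0 : 0 < ε := by rw [hε]; linarith
  have hθε : θ * (1 + ε) < 1 := by rw [hε]; nlinarith
  obtain ⟨A₀, hA₀1, HA₀⟩ := phase_ineq hpq k hε0
  obtain ⟨A₁, hA₁1, HA₁⟩ := Hx k
  obtain ⟨A₂, hA₂1, HA₂⟩ := Hy k
  set A := max A₀ (max A₁ A₂) with hA
  have h0 : A₀ ≤ A := le_max_left _ _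
  have h1 : A₁ ≤ A := (le_max_left _ _).trans (le_max_right _ _)
  have h2 : A₂ ≤ A := (le_max_right _ _).trans (le_max_right _ _)
  obtain ⟨C₁, hC₁, HC₁⟩ := HA₁ A h1
  obtain ⟨C₂, hC₂, HC₂⟩ := HA₂ A h2
  set c := p / q with hc
  have hc0 : 0 < c := by rw [hc]; positivity
  set D := (C₁ + c * C₂) / (1 - θ * (1 + ε)) with hD
  have hD0 : 0 ≤ D := by
    rw [hD]; apply div_nonneg (by positivity) (by linarith)
  refine ⟨A, hA₀1.trans h0, D + D / c, by positivity, fun δ hδ u E hE hxE hyE => ?_⟩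
  have e1 := HC₁ δ hδ u E hE hxE
  have e2 := HC₂ δ hδ (𝓕 u) E hE hyE
  have e3 := HA₀ A h0 δ hδ u
  rw [isIso2_fourier.plancherel u] at e2
  set a := intW A p δ k u with ha
  set b := intW A q δ k (𝓕 u) with hb
  set P := intw A p δ k (derS u) with hP
  set Q := intw A q δ k (derS (𝓕 u)) with hQ
  have hP0 : 0 ≤ P := intw_nonneg _ _ _ _ _
  have hQ0 : 0 ≤ Q := intw_nonneg _ _ _ _ _
  have ha0 : 0 ≤ a := intW_nonneg _ _ _ _ _
  have hb0 : 0 ≤ b := intW_nonneg _ _ _ _ _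
  have hu0 : 0 ≤ ∫ t, ‖u t‖ ^ 2 := integral_nonneg fun t => by positivity
  set X := E + ∫ t, ‖u t‖ ^ 2 with hX
  have hX0 : 0 ≤ X := by positivity
  have f1 : a ≤ θ / (4 * π ^ 2) * P + C₁ * X := by
    refine e1.trans ?_
    gcongr
    exact le_max_left _ _
  have f2 : b ≤ θ / (4 * π ^ 2) * Q + C₂ * X := by
    refine e2.trans ?_
    gcongr
    exact le_max_right _ _
  have f3 : a + c * b ≤ θ / (4 * π ^ 2) * (P + c * Q) + (C₁ + c * C₂) * X := by
    have := mul_le_mul_of_nonneg_left f2 hc0.le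
    linarith
  have f4 : θ / (4 * π ^ 2) * (P + c * Q) ≤ θ * (1 + ε) * (a + c * b) := by
    calc θ / (4 * π ^ 2) * (P + c * Q) ≤
        θ / (4 * π ^ 2) * (4 * π ^ 2 * (1 + ε) * (a + c * b)) := by gcongr
      _ = _ := by field_simp
  have f5 : a + c * b ≤ D * X := by
    have h5 : 0 < 1 - θ * (1 + ε) := by linarith
    have h6 : (1 - θ * (1 + ε)) * (a + c * b) ≤ (C₁ + c * C₂) * X := by linarith
    have h7 : D * X = (C₁ + c * C₂) * X / (1 - θ * (1 + ε)) := by rw [hD]; ring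
    rw [h7]
    exact (le_div_iff₀ h5).2 (by linarith)
  constructor
  · have : 0 ≤ c * b := by positivity
    have h7 : 0 ≤ D / c * X := by positivity
    calc a ≤ D * X := by linarith
      _ ≤ (D + D / c) * X := by linarith
  · have h7 : 0 ≤ D * X := by positivity
    have h8 : b ≤ D / c * X := by
      have h9 : D / c * X = D * X / c := by ring
      rw [h9]
      exact (le_div_iff₀ hc0).2 (by linarith)
    calc b ≤ D / c * X := h8
      _ ≤ (D + D / c) * X := by linarith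

/-- Supercritical sequences grow at most linearly. -/
lemma linear_growth {p : ℝ} {x : ℤ → ℝ} (hp : 1 < p) (hm : Monotone x)
    (hx : Tendsto (fun n => |x n|) cofinite atTop)
    (hlim : limsup (fun n : ℤ => ((|x n| ^ (p - 1) * |x (n + 1) - x n| : ℝ) : EReal)) cofinite
      < ((1 / 2 : ℝ) : EReal)) :
    ∃ C : ℝ, 1 ≤ C ∧ ∀ n : ℤ, |x n| ≤ C * (1 + |(n : ℝ)|) := by
  have ev0 := eventually_lt_of_limsup_lt hlim
  have ev : ∀ᶠ n : ℤ in cofinite, x (n + 1) - x n ≤ 1 := by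
    filter_upwards [ev0, hx.eventually_ge_atTop 1] with n hn h1
    have h2 : |x n| ^ (p - 1) * |x (n + 1) - x n| < 1 / 2 := by exact_mod_cast hn
    have hg0 : 0 ≤ x (n + 1) - x n := sub_nonneg.2 (hm (by linarith))
    rw [abs_of_nonneg hg0] at h2
    have : (1 : ℝ) ≤ |x n| ^ (p - 1) := Real.one_le_rpow h1 (by linarith)
    nlinarith
  set bad : Set ℤ := {n | ¬ x (n + 1) - x n ≤ 1} with hbad
  have hfin : bad.Finite := ev
  obtain ⟨G, hG⟩ := (hfin.toFinset.image (fun n : ℤ => x (n + 1) - x n)).exists_le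
  set G' := max G 1 with hG'
  have hgap : ∀ n : ℤ, x (n + 1) - x n ≤ G' := by
    intro n
    by_cases hn : x (n + 1) - x n ≤ 1
    · exact hn.trans (le_max_right _ _)
    · have hmem : n ∈ hfin.toFinset := by rw [Set.Finite.mem_toFinset]; exact hn
      exact (hG _ (Finset.mem_image_of_mem _ hmem)).trans (le_max_left _ _)
  have hG1 : 1 ≤ G' := le_max_right _ _
  have hnat : ∀ m : ℕ, x (m : ℤ) ≤ x 0 + G' * m ∧ x 0 - G' * m ≤ x (-(m : ℤ)) := by
    intro m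
    induction m with
    | zero => simp
    | succ m ih =>
      have h1 := hgap (m : ℤ)
      have h2 := hgap (-((m : ℤ) + 1))
      have e1 : -((m : ℤ) + 1) + 1 = -(m : ℤ) := by ring
      rw [e1] at h2
      push_cast
      constructor
      · linarith [ih.1]
      · linarith [ih.2]
  refine ⟨|x 0| + G', by linarith [abs_nonneg (x 0)], fun n => ?_⟩
  obtain ⟨m, rfl | rfl⟩ := n.eq_nat_or_neg
  · have h1 := (hnat m).1
    have h2 : x 0 ≤ x (m : ℤ) := hm (by positivity)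
    have h3 : |((m : ℤ) : ℝ)| = m := by simp
    rw [h3, abs_le]
    have h4 := le_abs_self (x 0)
    have h5 := neg_abs_le (x 0)
    have h6 : (0 : ℝ) ≤ m := by positivity
    have h7 : 0 ≤ |x 0| * m := by positivity
    constructor <;> nlinarith
  · have h1 := (hnat m).2
    have h2 : x (-(m : ℤ)) ≤ x 0 := hm (by simp)
    have h3 : |((-(m : ℤ) : ℤ) : ℝ)| = m := by simp
    rw [h3, abs_le]
    have h4 := le_abs_self (x 0)
    have h5 := neg_abs_le (x 0)
    have h6 : (0 : ℝ) ≤ m := by positivity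
    have h7 : 0 ≤ |x 0| * m := by positivity
    constructor <;> nlinarith

end Pool.Agent.Lib.MP_f612df_an
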