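import Mathlib

/-!
# Basic facts on Schwartz functions of one real variable
-/

open MeasureTheory Real
open scoped SchwartzMap FourierTransform ENNReal

namespace Pool.Agent.Lib.MP_f612df_an

/-- The pointwise product of two Schwartz functions. -/
noncomputable def prodS (f g : 𝓢(ℝ, ℂ)) : 𝓢(ℝ, ℂ) :=
  SchwartzMap.pairing (ContinuousLinearMap.mul ℂ ℂ) f g

@[simp] lemma prodS_apply (f g : 𝓢(ℝ, ℂ)) (x : ℝ) : prodS f g x = f x * g x := by
  simp [prodS]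

/-- The translate `t ↦ f (t - a)`. -/
noncomputable def shiftS (a : ℝ) (f : 𝓢(ℝ, ℂ)) : 𝓢(ℝ, ℂ) :=
  SchwartzMap.compSubConstCLM ℂ a f

@[simp] lemma shiftS_apply (a : ℝ) (f : 𝓢(ℝ, ℂ)) (x : ℝ) : shiftS a f x = f (x - a) := by
  simp [shiftS]

/-- The derivative as a Schwartz function. -/
noncomputable def derS (f : 𝓢(ℝ, ℂ)) : 𝓢(ℝ, ℂ) := SchwartzMap.derivCLM ℂ ℂ f

@[simp] lemma derS_apply (f : 𝓢(ℝ, ℂ)) (x : ℝ) : derS f x = deriv f x := by
  simp [derS]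

lemma hasDerivAt_derS (f : 𝓢(ℝ, ℂ)) (x : ℝ) : HasDerivAt f (derS f x) x := by
  rw [derS_apply]; exact f.hasDerivAt x

lemma derS_prodS (f g : 𝓢(ℝ, ℂ)) (x : ℝ) :
    derS (prodS f g) x = derS f x * g x + f x * derS g x := by
  have h1 := (hasDerivAt_derS f x).mul (hasDerivAt_derS g x)
  have h2 : (fun x => prodS f g x) = fun x => f x * g x := by ext x; simp
  rw [derS_apply]
  change deriv (fun x => prodS f g x) x = _
  rw [h2]
  exact h1.deriv

lemma derS_shiftS (a : ℝ) (f : 𝓢(ℝ, ℂ)) (x : ℝ) :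
    derS (shiftS a f) x = derS f (x - a) := by
  have h1 := (hasDerivAt_derS f (x - a)).comp_sub_const x a
  have h2 : (fun x => shiftS a f x) = fun x => f (x - a) := by ext x; simp
  rw [derS_apply]
  change deriv (fun x => shiftS a f x) x = _
  rw [h2]
  exact h1.deriv

lemma one_add_abs_pow_le (M : ℕ) (x : ℝ) : (1 + |x|) ^ M ≤ 2 ^ M * (1 + |x| ^ M) := by
  rcases le_total |x| 1 with h | h
  · calc (1 + |x|) ^ M ≤ 2 ^ M := pow_le_pow_left₀ (by positivity) (by linarith) M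
      _ ≤ 2 ^ M * (1 + |x| ^ M) := by
        have : 0 ≤ (2 : ℝ) ^ M * |x| ^ M := by positivity
        linarith
  · calc (1 + |x|) ^ M ≤ (2 * |x|) ^ M := pow_le_pow_left₀ (by positivity) (by linarith) M
      _ = 2 ^ M * |x| ^ M := mul_pow _ _ _
      _ ≤ 2 ^ M * (1 + |x| ^ M) := by
        have : 0 ≤ (2 : ℝ) ^ M := by positivity
        linarith

lemma integrable_poly_norm (M : ℕ) (g : 𝓢(ℝ, ℂ)) :
    Integrable (fun x : ℝ => (1 + |x|) ^ M * ‖g x‖) := by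
  have h1 : Integrable (fun x : ℝ => 2 ^ M * (‖x‖ ^ 0 * ‖g x‖ + ‖x‖ ^ M * ‖g x‖)) :=
    ((g.integrable_pow_mul volume 0).add (g.integrable_pow_mul volume M)).const_mul _
  refine h1.mono' ?_ ?_
  · exact (by fun_prop : Continuous fun x : ℝ => (1 + |x|) ^ M * ‖g x‖).aestronglyMeasurable
  · refine Filter.Eventually.of_forall fun x => ?_
    rw [Real.norm_eq_abs, abs_of_nonneg (by positivity)]
    have := mul_le_mul_of_nonneg_right (one_add_abs_pow_le M x) (norm_nonneg (g x))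
    calc _ ≤ _ := this
      _ = _ := by rw [Real.norm_eq_abs]; ring

lemma exists_norm_le (g : 𝓢(ℝ, ℂ)) : ∃ B : ℝ, 0 ≤ B ∧ ∀ x, ‖g x‖ ≤ B := by
  refine ⟨SchwartzMap.seminorm ℂ 0 0 g, apply_nonneg _ _, fun x => g.norm_le_seminorm ℂ x⟩

lemma integrable_poly_norm_sq (M : ℕ) (g : 𝓢(ℝ, ℂ)) :
    Integrable (fun x : ℝ => (1 + |x|) ^ M * ‖g x‖ ^ 2) := by
  obtain ⟨B, hB0, hB⟩ := exists_norm_le g
  refine ((integrable_poly_norm M g).const_mul B).mono' ?_ ?_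
  · exact (by fun_prop : Continuous fun x : ℝ => (1 + |x|) ^ M * ‖g x‖ ^ 2).aestronglyMeasurable
  · refine Filter.Eventually.of_forall fun x => ?_
    rw [Real.norm_eq_abs, abs_of_nonneg (by positivity)]
    have h1 : ‖g x‖ ^ 2 ≤ B * ‖g x‖ := by
      rw [sq]; exact mul_le_mul_of_nonneg_right (hB x) (norm_nonneg _)
    calc _ ≤ (1 + |x|) ^ M * (B * ‖g x‖) := by gcongr
      _ = _ := by ring

/-- Integrability of a polynomially bounded continuous weight against `‖g‖²`. -/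
lemma integrable_weight {f : ℝ → ℝ} (hf : Continuous f) {C : ℝ} {M : ℕ}
    (hb : ∀ x, |f x| ≤ C * (1 + |x|) ^ M) (g : 𝓢(ℝ, ℂ)) :
    Integrable (fun x : ℝ => f x * ‖g x‖ ^ 2) := by
  refine ((integrable_poly_norm_sq M g).const_mul C).mono' ?_ ?_
  · exact (by fun_prop : Continuous fun x : ℝ => f x * ‖g x‖ ^ 2).aestronglyMeasurable
  · refine Filter.Eventually.of_forall fun x => ?_
    rw [norm_mul, Real.norm_eq_abs, Real.norm_eq_abs, abs_of_nonneg (by positivity : 0 ≤ ‖g x‖ ^ 2)]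
    calc _ ≤ (C * (1 + |x|) ^ M) * ‖g x‖ ^ 2 :=
          mul_le_mul_of_nonneg_right (hb x) (by positivity)
      _ = _ := by ring

lemma integrable_norm_sq (g : 𝓢(ℝ, ℂ)) : Integrable (fun x : ℝ => ‖g x‖ ^ 2) := by
  simpa using integrable_poly_norm_sq 0 g

/-- The two properties of the Fourier transform (and its inverse) that the window argument uses. -/
structure IsIso2 (T : 𝓢(ℝ, ℂ) → 𝓢(ℝ, ℂ)) : Prop where
  plancherel : ∀ f : 𝓢(ℝ, ℂ), ∫ ξ, ‖T f ξ‖ ^ 2 = ∫ t, ‖f t‖ ^ 2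
  deriv_eq : ∀ f : 𝓢(ℝ, ℂ), ∫ ξ, ξ ^ 2 * ‖T f ξ‖ ^ 2 = 1 / (4 * π ^ 2) * ∫ t, ‖derS f t‖ ^ 2

lemma fourier_derS (f : 𝓢(ℝ, ℂ)) (ξ : ℝ) :
    𝓕 (derS f) ξ = (2 * π * Complex.I * ξ) * 𝓕 f ξ := by
  have h1 : Integrable (deriv (f : ℝ → ℂ)) := by
    have := (derS f).integrable (μ := volume)
    refine this.congr (Filter.Eventually.of_forall fun x => ?_)
    exact derS_apply f x
  have h := congrFun (Real.fourier_deriv (f := (f : ℝ → ℂ)) f.integrable f.differentiable h1) ξ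
  have h2 : (derS f : ℝ → ℂ) = deriv (f : ℝ → ℂ) := by ext x; exact derS_apply f x
  rw [SchwartzMap.fourier_coe, h2, h]
  simp [SchwartzMap.fourier_coe]

lemma isIso2_fourier : IsIso2 (fun f => 𝓕 f) where
  plancherel f := SchwartzMap.integral_norm_sq_fourier f
  deriv_eq f := by
    rw [← SchwartzMap.integral_norm_sq_fourier (derS f), ← integral_const_mul]
    congr 1
    ext ξ
    rw [fourier_derS, norm_mul, mul_pow]
    have h1 : ‖(2 * π * Complex.I * ξ : ℂ)‖ ^ 2 = 4 * π ^ 2 * ξ ^ 2 := by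
      simp only [norm_mul, Complex.norm_ofNat, Complex.norm_real, Complex.norm_I, mul_one,
        Real.norm_eq_abs]
      rw [mul_pow, mul_pow, sq_abs, sq_abs]
      norm_num
    rw [h1]
    field_simp

lemma fourierInv_apply (f : 𝓢(ℝ, ℂ)) (ξ : ℝ) : 𝓕⁻ f ξ = 𝓕 f (-ξ) := by
  rw [SchwartzMap.fourierInv_coe, SchwartzMap.fourier_coe]
  exact Real.fourierInv_eq_fourier_neg _ _

lemma isIso2_fourierInv : IsIso2 (fun f => 𝓕⁻ f) where
  plancherel f := by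
    simp only [fourierInv_apply]
    rw [integral_neg_eq_self (fun ξ => ‖𝓕 f ξ‖ ^ 2)]
    exact isIso2_fourier.plancherel f
  deriv_eq f := by
    simp only [fourierInv_apply]
    have : (fun ξ : ℝ => ξ ^ 2 * ‖𝓕 f (-ξ)‖ ^ 2) =
        fun ξ : ℝ => (fun ξ : ℝ => ξ ^ 2 * ‖𝓕 f ξ‖ ^ 2) (-ξ) := by
      ext ξ; simp
    rw [this, integral_neg_eq_self (fun ξ => ξ ^ 2 * ‖𝓕 f ξ‖ ^ 2)]
    exact isIso2_fourier.deriv_eq f

end Pool.Agent.Lib.MP_f612df_an
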