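import Pool.Agent.Lib.MP_f612df_an.Apriori

/-!
# Estimates for the localised coefficients
-/

open MeasureTheory Real Filter Topology Set
open scoped SchwartzMap FourierTransform ENNReal

namespace Pool.Agent.Lib.MP_f612df_an

variable {A p q δ : ℝ} {k : ℕ}

lemma integrable_mul_shift (h g : 𝓢(ℝ, ℂ)) (s : ℝ) :
    Integrable (fun t : ℝ => ‖h t‖ * ‖g (t - s)‖) := by
  have := (prodS h (shiftS s g)).integrable (μ := volume) |>.norm
  refine this.congr (Filter.Eventually.of_forall fun t => ?_)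
  simp only [prodS_apply, shiftS_apply, norm_mul]

/-- Localised coefficients are small where the weight is large. -/
lemma coef_le (hA : 1 ≤ A) (hp : 1 ≤ p) (hδ : 0 ≤ δ) {N : ℕ} (hN : p * (k + 1) ≤ N)
    (h g : 𝓢(ℝ, ℂ)) (s : ℝ) {C B : ℝ} (hB : 0 < B) (hW : intW A p δ k h ≤ C * B ^ 2) :
    ∫ t, ‖h t‖ * ‖g (t - s)‖ ≤ (C + mom (2 * N) g) / 2 * (B / WW A p δ k s) := by
  have hA0 : 0 < A := by linarith
  have hWs := WW_pos (p := p) (k := k) hA0 hδ s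
  set w := WW A p δ k s with hw
  have i1 := integrable_WW (k := k) hA hp hδ h
  have i2 : Integrable (fun t : ℝ => (1 + |t - s|) ^ (2 * N) * ‖g (t - s)‖ ^ 2) :=
    (integrable_poly_norm_sq (2 * N) g).comp_sub_right s
  have key : ∀ t, ‖h t‖ * ‖g (t - s)‖ ≤ 1 / 2 * (1 / (B * w)) * (WW A p δ k t ^ 2 * ‖h t‖ ^ 2) +
      1 / 2 * (B / w) * ((1 + |t - s|) ^ (2 * N) * ‖g (t - s)‖ ^ 2) := by
    intro t
    have hWt := WW_pos (p := p) (k := k) hA0 hδ t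
    have h1 : w ≤ (1 + |t - s|) ^ N * WW A p δ k t := by
      have h2 := WW_ratio (k := k) hA0 (by linarith : (0 : ℝ) ≤ p) hδ hN s t
      have h3 : |s - t| / A ≤ |t - s| := by
        rw [abs_sub_comm]; exact div_le_self (abs_nonneg _) hA
      calc w ≤ _ := h2
        _ ≤ _ := by gcongr
    set W := WW A p δ k t with hW'
    set a := ‖h t‖ with ha
    set b := ‖g (t - s)‖ with hb
    have ha0 : 0 ≤ a := norm_nonneg _
    have hb0 : 0 ≤ b := norm_nonneg _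
    set r := (1 + |t - s|) ^ N with hr
    have hr0 : 0 < r := by positivity
    have hr2 : (1 + |t - s|) ^ (2 * N) = r ^ 2 := by rw [hr, ← pow_mul, mul_comm]
    rw [hr2]
    -- `2ab ≤ (1/(B w)) W² a² + (B/w) r² b²` as `w ≤ r W`
    have h4 : 0 ≤ (W * a - B * r * b) ^ 2 := sq_nonneg _
    have h5 : 1 / 2 * (1 / (B * w)) * (W ^ 2 * a ^ 2) + 1 / 2 * (B / w) * (r ^ 2 * b ^ 2) =
        1 / (2 * (B * w)) * ((W * a - B * r * b) ^ 2 + 2 * (B * (r * W) * (a * b))) := by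
      field_simp
      ring
    rw [h5]
    have h6 : a * b = 1 / (2 * (B * w)) * (2 * (B * w * (a * b))) := by field_simp
    calc a * b = 1 / (2 * (B * w)) * (2 * (B * w * (a * b))) := h6
      _ ≤ 1 / (2 * (B * w)) * ((W * a - B * r * b) ^ 2 + 2 * (B * (r * W) * (a * b))) := by
        have h7 : B * w * (a * b) ≤ B * (r * W) * (a * b) := by gcongr
        gcongr
        linarith
  calc ∫ t, ‖h t‖ * ‖g (t - s)‖ ≤
      ∫ t, (1 / 2 * (1 / (B * w)) * (WW A p δ k t ^ 2 * ‖h t‖ ^ 2) +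
      1 / 2 * (B / w) * ((1 + |t - s|) ^ (2 * N) * ‖g (t - s)‖ ^ 2)) :=
        integral_mono (integrable_mul_shift h g s) ((i1.const_mul _).add (i2.const_mul _)) key
    _ = 1 / 2 * (1 / (B * w)) * intW A p δ k h + 1 / 2 * (B / w) * mom (2 * N) g := by
        rw [integral_add (i1.const_mul _) (i2.const_mul _), integral_const_mul,
          integral_const_mul,
          integral_sub_right_eq_self (fun t => (1 + |t|) ^ (2 * N) * ‖g t‖ ^ 2) s]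
        rfl
    _ ≤ 1 / 2 * (1 / (B * w)) * (C * B ^ 2) + 1 / 2 * (B / w) * mom (2 * N) g := by gcongr
    _ = _ := by field_simp

lemma norm_fourier_le (h : 𝓢(ℝ, ℂ)) (ξ : ℝ) : ‖𝓕 h ξ‖ ≤ ∫ t, ‖h t‖ := by
  rw [SchwartzMap.fourier_coe, Real.fourier_real_eq]
  refine (norm_integral_le_integral_norm _).trans (le_of_eq ?_)
  congr 1
  ext t
  rw [smul_eq_ec, norm_mul, norm_ec, one_mul]

lemma coef_norm_le (u χ : 𝓢(ℝ, ℂ)) (s ξ : ℝ) :
    ‖𝓕 (prodS u (shiftS s χ)) ξ‖ ≤ ∫ t, ‖u t‖ * ‖χ (t - s)‖ := by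
  refine (norm_fourier_le _ ξ).trans (le_of_eq ?_)
  congr 1
  ext t
  rw [prodS_apply, shiftS_apply, norm_mul]

lemma coef_norm_le' (u χ : 𝓢(ℝ, ℂ)) (s ξ : ℝ) :
    ‖𝓕 (prodS u (shiftS s χ)) ξ‖ ≤ ∫ t, ‖(𝓕 u) t‖ * ‖(𝓕⁻ χ) (t - ξ)‖ := by
  rw [← stft_dual u χ s ξ, fourierInv_apply]
  exact coef_norm_le (𝓕 u) (𝓕⁻ χ) ξ (-s)

/-- Lower bound for `W` with `δ = 8 / J`. -/
lemma le_WW {J : ℝ} (hA : 1 ≤ A) (hp : 1 ≤ p) (hJ : 1 ≤ J) (s : ℝ) (hs : J / 8 ≤ br A s) :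
    (J / 8) * (J / 16) ^ k ≤ WW A p (8 / J) k s := by
  have hA0 : 0 < A := by linarith
  have hb := br_pos hA0 s
  have hb1 : 1 ≤ br A s := hA.trans (le_br s)
  have h1 : J / 8 ≤ br A s ^ p := by
    calc J / 8 ≤ br A s := hs
      _ = br A s ^ (1 : ℝ) := (Real.rpow_one _).symm
      _ ≤ br A s ^ p := Real.rpow_le_rpow_of_exponent_le hb1 hp
  have h2 : J / 16 ≤ tau (8 / J) (br A s ^ p) := by
    have := le_tau (δ := 8 / J) (X := br A s ^ p) (by positivity) (by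
      have : 1 / (8 / J) = J / 8 := by field_simp
      rw [this]; exact h1)
    have e : 1 / (2 * (8 / J)) = J / 16 := by field_simp; norm_num
    rwa [e] at this
  unfold WW
  gcongr

lemma br_half_ge {J : ℝ} {i l : ℤ} (hA : 1 ≤ A) (hJ : J = 1 + |(i : ℝ)| + |(l : ℝ)|) :
    J / 8 ≤ br A ((i : ℝ) / 2) ∨ J / 8 ≤ br A (l : ℝ) := by
  have h1 := le_br (A := A) ((i : ℝ) / 2)
  have h2 := abs_le_br A ((i : ℝ) / 2)
  have h3 := le_br (A := A) (l : ℝ)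
  have h4 := abs_le_br A (l : ℝ)
  have h5 : |(i : ℝ) / 2| = |(i : ℝ)| / 2 := by rw [abs_div]; norm_num
  rw [h5] at h2
  have := abs_nonneg (i : ℝ)
  have := abs_nonneg (l : ℝ)
  rcases le_total |(i : ℝ)| |(l : ℝ)| with h | h
  · right; linarith
  · left; linarith

/-- The weight on the sequence side. -/
noncomputable def nu (M k : ℕ) (J : ℝ) (n : ℤ) : ℝ :=
  (1 + |(n : ℝ)|) ^ M * min 1 ((1 + |(n : ℝ)|) ^ M / J) ^ k

lemma nu_nonneg {M k : ℕ} {J : ℝ} (hJ : 1 ≤ J) (n : ℤ) : 0 ≤ nu M k J n := by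
  unfold nu
  have : 0 ≤ (1 + |(n : ℝ)|) ^ M / J := by positivity
  have h2 : 0 ≤ min 1 ((1 + |(n : ℝ)|) ^ M / J) := le_min zero_le_one this
  positivity

lemma one_le_abs (n : ℤ) : 1 ≤ 1 + |(n : ℝ)| := by
  have := abs_nonneg (n : ℝ)
  linarith

lemma abs_succ_le (n : ℤ) : 1 + |(n : ℝ)| ≤ 2 * (1 + |((n + 1 : ℤ) : ℝ)|) := by
  push_cast
  have h1 : |(n : ℝ)| ≤ |(n : ℝ) + 1| + 1 := by
    calc |(n : ℝ)| = |((n : ℝ) + 1) - 1| := by ring_nf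
      _ ≤ |(n : ℝ) + 1| + |1| := abs_sub _ _
      _ = _ := by norm_num
  have := abs_nonneg ((n : ℝ) + 1)
  linarith

lemma abs_succ_le' (n : ℤ) : 1 + |((n + 1 : ℤ) : ℝ)| ≤ 2 * (1 + |(n : ℝ)|) := by
  push_cast
  have h1 : |(n : ℝ) + 1| ≤ |(n : ℝ)| + 1 := by
    calc |(n : ℝ) + 1| ≤ |(n : ℝ)| + |1| := abs_add_le _ _
      _ = _ := by norm_num
  have := abs_nonneg (n : ℝ)
  linarith

/-- The sampled quantities in the Wirtinger inequality are controlled by the weights `nu`. -/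
lemma seq_side {P M : ℕ} (hA : 1 ≤ A) (hp : 1 ≤ p) (hP : p ≤ P) (hM : P + 2 ≤ M) (k : ℕ)
    {x : ℤ → ℝ} {C : ℝ} (hC : 1 ≤ C) (hx : ∀ n : ℤ, |x n| ≤ C * (1 + |(n : ℝ)|)) :
    ∃ K : ℝ, 0 ≤ K ∧ ∀ J : ℝ, 1 ≤ J → ∀ (v : ℤ → ℝ) (B : ℝ), (∀ n, 0 ≤ v n) → 0 ≤ B →
      (∀ n, nu M k J n * v n ≤ B) → ∀ n : ℤ,
      (1 + |(n : ℝ)|) ^ 2 * (max (br A (x n)) (br A (x (n + 1))) ^ (p - 1) *
        ((ww A p (8 / J) k (x n) * v n) ^ 2 + (ww A p (8 / J) k (x (n + 1)) * v (n + 1)) ^ 2)) ≤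
      K * (J ^ k * B) ^ 2 := by
  have hA0 : 0 < A := by linarith
  set C₁ := A + C with hC₁
  have hC₁1 : 1 ≤ C₁ := by linarith
  have hC₁0 : 0 < C₁ := by linarith
  have hbr : ∀ n : ℤ, br A (x n) ≤ C₁ * (1 + |(n : ℝ)|) := by
    intro n
    have h1 := br_le hA0.le (x n)
    have h2 := hx n
    have h3 := one_le_abs n
    nlinarith
  set K₁ := 2 * (4 * C₁) ^ P * (C₁ * (C₁ ^ P) ^ k) with hK₁
  have hK₁0 : 0 ≤ K₁ := by positivity
  refine ⟨2 * K₁ ^ 2, by positivity, fun J hJ v B hv hB hnu n => ?_⟩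
  have hJ0 : 0 < J := by linarith
  have hδ : 0 < 8 / J := by positivity
  -- bound for `w`
  have hw : ∀ m : ℤ, ww A p (8 / J) k (x m) ≤ C₁ * (1 + |(m : ℝ)|) *
      (J ^ k * (C₁ ^ P) ^ k * min 1 ((1 + |(m : ℝ)|) ^ M / J) ^ k) := by
    intro m
    have hb := br_pos hA0 (x m)
    have ht := one_le_abs m
    have hCt : 1 ≤ C₁ * (1 + |(m : ℝ)|) := by nlinarith
    have h0 : 0 ≤ min 1 ((1 + |(m : ℝ)|) ^ M / J) := le_min zero_le_one (by positivity)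
    have hτ : tau (8 / J) (br A (x m) ^ p) ≤
        J * C₁ ^ P * min 1 ((1 + |(m : ℝ)|) ^ M / J) := by
      rw [mul_min_of_nonneg _ _ (by positivity)]
      apply le_min
      · have h1 := tau_le_inv (δ := 8 / J) (X := br A (x m) ^ p) hδ (by positivity)
        have h2 : 1 / (8 / J) = J / 8 := by field_simp
        rw [h2] at h1
        have h3 : (1 : ℝ) ≤ C₁ ^ P := one_le_pow₀ hC₁1
        calc _ ≤ J / 8 := h1
          _ ≤ J * 1 := by linarith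
          _ ≤ J * C₁ ^ P := by gcongr
          _ = _ := by ring
      · have h1 := tau_le (δ := 8 / J) (X := br A (x m) ^ p) hδ.le (by positivity)
        calc _ ≤ br A (x m) ^ p := h1
          _ ≤ (C₁ * (1 + |(m : ℝ)|)) ^ p := Real.rpow_le_rpow hb.le (hbr m) (by linarith)
          _ ≤ (C₁ * (1 + |(m : ℝ)|)) ^ P := rpow_pow_le_pow hCt hP
          _ = C₁ ^ P * (1 + |(m : ℝ)|) ^ P := mul_pow _ _ _
          _ ≤ C₁ ^ P * (1 + |(m : ℝ)|) ^ M := by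
              gcongr
              omega
          _ = _ := by field_simp
    have hτ0 : 0 ≤ tau (8 / J) (br A (x m) ^ p) := tau_nonneg hδ.le (by positivity)
    unfold ww
    calc br A (x m) * tau (8 / J) (br A (x m) ^ p) ^ k
        ≤ (C₁ * (1 + |(m : ℝ)|)) * (J * C₁ ^ P * min 1 ((1 + |(m : ℝ)|) ^ M / J)) ^ k := by
          gcongr
          exact hbr m
      _ = _ := by rw [mul_pow, mul_pow]
  -- the core bound
  have core : ∀ m : ℤ, (1 + |(n : ℝ)|) ≤ 2 * (1 + |(m : ℝ)|) →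
      (1 + |(n : ℝ)|) * (2 * C₁ * (1 + |(n : ℝ)|)) ^ P * (ww A p (8 / J) k (x m) * v m) ≤
      K₁ * (J ^ k * B) := by
    intro m hm
    have ht := one_le_abs m
    have h0 : 0 ≤ min 1 ((1 + |(m : ℝ)|) ^ M / J) := le_min zero_le_one (by positivity)
    have hwm := (ww_pos (p := p) (k := k) hA0 hδ.le (x m)).le
    have hvm := hv m
    have h1 : (1 + |(m : ℝ)|) ^ (P + 2) ≤ (1 + |(m : ℝ)|) ^ M := pow_le_pow_right₀ ht hM
    calc (1 + |(n : ℝ)|) * (2 * C₁ * (1 + |(n : ℝ)|)) ^ P * (ww A p (8 / J) k (x m) * v m)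
        ≤ (2 * (1 + |(m : ℝ)|)) * (2 * C₁ * (2 * (1 + |(m : ℝ)|))) ^ P *
          ((C₁ * (1 + |(m : ℝ)|) *
            (J ^ k * (C₁ ^ P) ^ k * min 1 ((1 + |(m : ℝ)|) ^ M / J) ^ k)) * v m) := by
          gcongr
          exact hw m
      _ = (2 * (4 * C₁) ^ P * (C₁ * (C₁ ^ P) ^ k)) * (J ^ k * ((1 + |(m : ℝ)|) ^ (P + 2) *
          min 1 ((1 + |(m : ℝ)|) ^ M / J) ^ k * v m)) := by
          have : 2 * C₁ * (2 * (1 + |(m : ℝ)|)) = (4 * C₁) * (1 + |(m : ℝ)|) := by ring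
          rw [this, mul_pow]
          ring
      _ ≤ (2 * (4 * C₁) ^ P * (C₁ * (C₁ ^ P) ^ k)) * (J ^ k * ((1 + |(m : ℝ)|) ^ M *
          min 1 ((1 + |(m : ℝ)|) ^ M / J) ^ k * v m)) := by gcongr
      _ ≤ K₁ * (J ^ k * B) := by
          have := hnu m
          unfold nu at this
          gcongr
  have hmax : max (br A (x n)) (br A (x (n + 1))) ^ (p - 1) ≤ ((2 * C₁ * (1 + |(n : ℝ)|)) ^ P) ^ 2 := by
    have ht := one_le_abs n
    have h1 : br A (x n) ≤ 2 * C₁ * (1 + |(n : ℝ)|) := by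
      have := hbr n
      nlinarith
    have h2 : br A (x (n + 1)) ≤ 2 * C₁ * (1 + |(n : ℝ)|) := by
      have h3 := hbr (n + 1)
      have h4 := abs_succ_le' n
      calc _ ≤ _ := h3
        _ ≤ C₁ * (2 * (1 + |(n : ℝ)|)) := by gcongr
        _ = _ := by ring
    have hbase : 1 ≤ 2 * C₁ * (1 + |(n : ℝ)|) := by nlinarith
    have hpos : 0 ≤ max (br A (x n)) (br A (x (n + 1))) := le_max_of_le_left (br_pos hA0 _).le
    calc max (br A (x n)) (br A (x (n + 1))) ^ (p - 1)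
        ≤ (2 * C₁ * (1 + |(n : ℝ)|)) ^ (p - 1) :=
          Real.rpow_le_rpow hpos (max_le h1 h2) (by linarith)
      _ ≤ (2 * C₁ * (1 + |(n : ℝ)|)) ^ P := rpow_pow_le_pow hbase (by linarith)
      _ ≤ ((2 * C₁ * (1 + |(n : ℝ)|)) ^ P) ^ 2 := by
          have : 1 ≤ (2 * C₁ * (1 + |(n : ℝ)|)) ^ P := one_le_pow₀ hbase
          nlinarith
  have c1 := core n (by have := one_le_abs n; linarith)
  have c2 := core (n + 1) (abs_succ_le n)
  have hw1 := (ww_pos (p := p) (k := k) hA0 hδ.le (x n)).le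
  have hw2 := (ww_pos (p := p) (k := k) hA0 hδ.le (x (n + 1))).le
  have hv1 := hv n
  have hv2 := hv (n + 1)
  have hpos1 : 0 ≤ (1 + |(n : ℝ)|) * (2 * C₁ * (1 + |(n : ℝ)|)) ^ P *
    (ww A p (8 / J) k (x n) * v n) := by positivity
  have hpos2 : 0 ≤ (1 + |(n : ℝ)|) * (2 * C₁ * (1 + |(n : ℝ)|)) ^ P *
    (ww A p (8 / J) k (x (n + 1)) * v (n + 1)) := by positivity
  have d1 := pow_le_pow_left₀ hpos1 c1 2
  have d2 := pow_le_pow_left₀ hpos2 c2 2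
  calc (1 + |(n : ℝ)|) ^ 2 * (max (br A (x n)) (br A (x (n + 1))) ^ (p - 1) *
        ((ww A p (8 / J) k (x n) * v n) ^ 2 + (ww A p (8 / J) k (x (n + 1)) * v (n + 1)) ^ 2))
      ≤ (1 + |(n : ℝ)|) ^ 2 * (((2 * C₁ * (1 + |(n : ℝ)|)) ^ P) ^ 2 *
        ((ww A p (8 / J) k (x n) * v n) ^ 2 + (ww A p (8 / J) k (x (n + 1)) * v (n + 1)) ^ 2)) := by
        gcongr
    _ = ((1 + |(n : ℝ)|) * (2 * C₁ * (1 + |(n : ℝ)|)) ^ P *
        (ww A p (8 / J) k (x n) * v n)) ^ 2 +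
        ((1 + |(n : ℝ)|) * (2 * C₁ * (1 + |(n : ℝ)|)) ^ P *
        (ww A p (8 / J) k (x (n + 1)) * v (n + 1))) ^ 2 := by ring
    _ ≤ (K₁ * (J ^ k * B)) ^ 2 + (K₁ * (J ^ k * B)) ^ 2 := add_le_add d1 d2
    _ = _ := by ring

lemma low_side {m M : ℕ} (hM : m ≤ M) {J : ℝ} (hJ : 1 ≤ J) {k : ℕ} {n : ℤ} {v B : ℝ} (hv : 0 ≤ v)
    (h : nu M k J n * v ≤ B) : (1 + |(n : ℝ)|) ^ m * v ≤ J ^ k * B := by
  have hJ0 : 0 < J := by linarith
  have ht := one_le_abs n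
  have h1 : (1 + |(n : ℝ)|) ^ m ≤ (1 + |(n : ℝ)|) ^ M := pow_le_pow_right₀ ht hM
  have h2 : 1 / J ≤ min 1 ((1 + |(n : ℝ)|) ^ M / J) := by
    apply le_min
    · rw [div_le_one hJ0]; exact hJ
    · gcongr
      exact one_le_pow₀ ht
  have h3 : (1 / J) ^ k ≤ min 1 ((1 + |(n : ℝ)|) ^ M / J) ^ k :=
    pow_le_pow_left₀ (by positivity) h2 k
  have h4 : J ^ k * (1 / J) ^ k = 1 := by
    rw [← mul_pow]
    have : J * (1 / J) = 1 := by field_simp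
    rw [this, one_pow]
  calc (1 + |(n : ℝ)|) ^ m * v ≤ (1 + |(n : ℝ)|) ^ M * v := by gcongr
    _ = J ^ k * ((1 + |(n : ℝ)|) ^ M * (1 / J) ^ k * v) := by
        calc (1 + |(n : ℝ)|) ^ M * v = (J ^ k * (1 / J) ^ k) * ((1 + |(n : ℝ)|) ^ M * v) := by
              rw [h4, one_mul]
          _ = _ := by ring
    _ ≤ J ^ k * ((1 + |(n : ℝ)|) ^ M * min 1 ((1 + |(n : ℝ)|) ^ M / J) ^ k * v) := by gcongr
    _ ≤ J ^ k * B := by
        unfold nu at h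
        gcongr

/-- The a priori bound for the localised coefficients. -/
theorem coef_apriori {p q : ℝ} {x y : ℤ → ℝ} (hpq : p.HolderConjugate q)
    (hmx : Monotone x) (hmy : Monotone y)
    (hx : Tendsto (fun n => |x n|) cofinite atTop) (hy : Tendsto (fun n => |y n|) cofinite atTop)
    (hlx : limsup (fun n : ℤ => ((|x n| ^ (p - 1) * |x (n + 1) - x n| : ℝ) : EReal)) cofinite
      < ((1 / 2 : ℝ) : EReal))
    (hly : limsup (fun n : ℤ => ((|y n| ^ (q - 1) * |y (n + 1) - y n| : ℝ) : EReal)) cofinite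
      < ((1 / 2 : ℝ) : EReal))
    {C₀ : ℝ} (hC₀ : 0 ≤ C₀) {m₀ : ℕ} (hL2 : ∀ (u : 𝓢(ℝ, ℂ)) (B : ℝ), 0 ≤ B →
      (∀ n : ℤ, (1 + |(n : ℝ)|) ^ m₀ * ‖u (x n)‖ ≤ B) →
      (∀ n : ℤ, (1 + |(n : ℝ)|) ^ m₀ * ‖(𝓕 u) (y n)‖ ≤ B) → ∫ t, ‖u t‖ ^ 2 ≤ C₀ * B ^ 2)
    (χ : 𝓢(ℝ, ℂ)) :
    ∃ M : ℕ, ∀ k : ℕ, ∃ C : ℝ, 0 ≤ C ∧ ∀ (i l : ℤ) (J : ℝ), J = 1 + |(i : ℝ)| + |(l : ℝ)| →
      ∀ (u : 𝓢(ℝ, ℂ)) (B : ℝ), 0 < B →
      (∀ n : ℤ, nu M k J n * ‖u (x n)‖ ≤ B) →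
      (∀ n : ℤ, nu M k J n * ‖(𝓕 u) (y n)‖ ≤ B) →
      J * ‖𝓕 (prodS u (shiftS ((i : ℝ) / 2) χ)) (l : ℝ)‖ ≤ C * B := by
  have hp : 1 < p := hpq.lt
  have hq : 1 < q := hpq.symm.lt
  obtain ⟨Cx, hCx1, hCx⟩ := linear_growth hp hmx hx hlx
  obtain ⟨Cy, hCy1, hCy⟩ := linear_growth hq hmy hy hly
  set P := max ⌈p⌉₊ ⌈q⌉₊ with hP
  have hpP : p ≤ P := (Nat.le_ceil p).trans (by exact_mod_cast le_max_left _ _)
  have hqP : q ≤ P := (Nat.le_ceil q).trans (by exact_mod_cast le_max_right _ _)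
  set M := max (P + 2) m₀ with hM
  have hM1 : P + 2 ≤ M := le_max_left _ _
  have hM2 : m₀ ≤ M := le_max_right _ _
  refine ⟨M, fun k => ?_⟩
  obtain ⟨A, hA1, C, hC0, HC⟩ := apriori hpq hmx hmy hx hy hlx hly k
  have hA0 : 0 < A := by linarith
  obtain ⟨Kx, hKx0, HKx⟩ := seq_side hA1 hp.le hpP hM1 k hCx1 hCx
  obtain ⟨Ky, hKy0, HKy⟩ := seq_side hA1 hq.le hqP hM1 k hCy1 hCy
  obtain ⟨N₁, hN₁⟩ := exists_nat_ge p k
  obtain ⟨N₂, hN₂⟩ := exists_nat_ge q k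
  set D := C * (Kx + Ky + C₀) with hD
  have hD0 : 0 ≤ D := by positivity
  have hm1 := mom_nonneg (2 * N₁) χ
  have hm2 := mom_nonneg (2 * N₂) (𝓕⁻ χ)
  set D' := (D + mom (2 * N₁) χ + mom (2 * N₂) (𝓕⁻ χ)) / 2 with hD'
  have hD'0 : 0 ≤ D' := by positivity
  refine ⟨D' * (8 * 16 ^ k), by positivity, fun i l J hJ u B hB hux huy => ?_⟩
  have hJ1 : 1 ≤ J := by
    rw [hJ]
    have := abs_nonneg (i : ℝ)
    have := abs_nonneg (l : ℝ)
    linarith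
  have hJ0 : 0 < J := by linarith
  have hδ : 0 < 8 / J := by positivity
  set Q := J ^ k * B with hQ
  have hQ0 : 0 < Q := by positivity
  have hE0 : 0 ≤ (Kx + Ky) * Q ^ 2 := by positivity
  have h1 := HC (8 / J) hδ.le u ((Kx + Ky) * Q ^ 2) hE0
    (fun n => by
      have := HKx J hJ1 (fun n => ‖u (x n)‖) B (fun n => norm_nonneg _) hB.le hux n
      refine this.trans ?_
      have : 0 ≤ Ky * Q ^ 2 := by positivity
      linarith)
    (fun n => by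
      have := HKy J hJ1 (fun n => ‖(𝓕 u) (y n)‖) B (fun n => norm_nonneg _) hB.le huy n
      refine this.trans ?_
      have : 0 ≤ Kx * Q ^ 2 := by positivity
      linarith)
  have h2 : ∫ t, ‖u t‖ ^ 2 ≤ C₀ * Q ^ 2 := hL2 u Q hQ0.le
    (fun n => low_side hM2 hJ1 (norm_nonneg _) (hux n))
    (fun n => low_side hM2 hJ1 (norm_nonneg _) (huy n))
  have h3 : C * ((Kx + Ky) * Q ^ 2 + ∫ t, ‖u t‖ ^ 2) ≤ D * Q ^ 2 := by
    calc _ ≤ C * ((Kx + Ky) * Q ^ 2 + C₀ * Q ^ 2) := by gcongr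
      _ = _ := by rw [hD]; ring
  have ha := h1.1.trans h3
  have hb := h1.2.trans h3
  have fin : ∀ w : ℝ, (J / 8) * (J / 16) ^ k ≤ w → J * (D' * (Q / w)) ≤ D' * (8 * 16 ^ k) * B := by
    intro w hw
    have hw0 : 0 < (J / 8) * (J / 16) ^ k := by positivity
    have h4 : Q / w ≤ Q / ((J / 8) * (J / 16) ^ k) := by gcongr
    calc J * (D' * (Q / w)) ≤ J * (D' * (Q / ((J / 8) * (J / 16) ^ k))) := by gcongr
      _ = _ := by
        rw [hQ, div_pow]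
        field_simp
  rcases br_half_ge hA1 hJ with hs | hs
  · have h5 := coef_le hA1 hp.le hδ.le hN₁ u χ ((i : ℝ) / 2) hQ0 ha
    have h6 := coef_norm_le u χ ((i : ℝ) / 2) (l : ℝ)
    have h7 := le_WW (k := k) hA1 hp.le hJ1 _ hs
    have h8 : (D + mom (2 * N₁) χ) / 2 ≤ D' := by rw [hD']; linarith
    have h9 := WW_pos (p := p) (k := k) hA0 hδ.le ((i : ℝ) / 2)
    calc J * ‖𝓕 (prodS u (shiftS ((i : ℝ) / 2) χ)) (l : ℝ)‖
        ≤ J * ((D + mom (2 * N₁) χ) / 2 * (Q / WW A p (8 / J) k ((i : ℝ) / 2))) := by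
          gcongr
          exact h6.trans h5
      _ ≤ J * (D' * (Q / WW A p (8 / J) k ((i : ℝ) / 2))) := by gcongr
      _ ≤ _ := fin _ h7
  · have h5 := coef_le hA1 hq.le hδ.le hN₂ (𝓕 u) (𝓕⁻ χ) (l : ℝ) hQ0 hb
    have h6 := coef_norm_le' u χ ((i : ℝ) / 2) (l : ℝ)
    have h7 := le_WW (k := k) hA1 hq.le hJ1 _ hs
    have h8 : (D + mom (2 * N₂) (𝓕⁻ χ)) / 2 ≤ D' := by rw [hD']; linarith
    have h9 := WW_pos (p := q) (k := k) hA0 hδ.le (l : ℝ)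
    calc J * ‖𝓕 (prodS u (shiftS ((i : ℝ) / 2) χ)) (l : ℝ)‖
        ≤ J * ((D + mom (2 * N₂) (𝓕⁻ χ)) / 2 * (Q / WW A q (8 / J) k (l : ℝ))) := by
          gcongr
          exact h6.trans h5
      _ ≤ J * (D' * (Q / WW A q (8 / J) k (l : ℝ))) := by gcongr
      _ ≤ _ := fin _ h7

end Pool.Agent.Lib.MP_f612df_an
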