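import Mathlib

/-!
# Definitions: rapidly decreasing sequences and supercritical pairs
-/

open Filter Topology
open scoped SchwartzMap FourierTransform

namespace Pool.Agent.Lib.MP_f612df_an

/-- The rapidly decreasing complex sequences indexed by `ℤ`, as a submodule of all sequences:
`c` belongs to it iff `sup_n (1 + |n|)^k |c n| < ∞` for every `k`. -/
def rapidlyDecreasing : Submodule ℂ (ℤ → ℂ) where
  carrier := {c | ∀ k : ℕ, ∃ B : ℝ, ∀ n : ℤ, (1 + |(n : ℝ)|) ^ k * ‖c n‖ ≤ B}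
  zero_mem' := fun k => ⟨0, fun n => by simp⟩
  add_mem' := by
    intro c d hc hd k
    obtain ⟨B, hB⟩ := hc k
    obtain ⟨B', hB'⟩ := hd k
    refine ⟨B + B', fun n => ?_⟩
    have h1 : (1 + |(n : ℝ)|) ^ k * ‖(c + d) n‖ ≤ (1 + |(n : ℝ)|) ^ k * (‖c n‖ + ‖d n‖) :=
      mul_le_mul_of_nonneg_left (norm_add_le _ _) (by positivity)
    calc _ ≤ _ := h1
      _ = (1 + |(n : ℝ)|) ^ k * ‖c n‖ + (1 + |(n : ℝ)|) ^ k * ‖d n‖ := by ring
      _ ≤ B + B' := add_le_add (hB n) (hB' n)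
  smul_mem' := by
    intro a c hc k
    obtain ⟨B, hB⟩ := hc k
    refine ⟨‖a‖ * B, fun n => ?_⟩
    calc (1 + |(n : ℝ)|) ^ k * ‖(a • c) n‖ = ‖a‖ * ((1 + |(n : ℝ)|) ^ k * ‖c n‖) := by
          rw [Pi.smul_apply, norm_smul]; ring
      _ ≤ ‖a‖ * B := mul_le_mul_of_nonneg_left (hB n) (norm_nonneg _)

/-- The Fréchet space `𝔰` of rapidly decreasing sequences indexed by `ℤ` (as a type of its own;
its topology is defined below by the usual seminorms). -/
def RapidSeq : Type := rapidlyDecreasing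

noncomputable instance : AddCommGroup RapidSeq := inferInstanceAs (AddCommGroup rapidlyDecreasing)

noncomputable instance : Module ℂ RapidSeq := inferInstanceAs (Module ℂ rapidlyDecreasing)

/-- The `n`-th term of a rapidly decreasing sequence. -/
def RapidSeq.term (c : RapidSeq) (n : ℤ) : ℂ := c.1 n

instance : CoeFun RapidSeq (fun _ => ℤ → ℂ) := ⟨RapidSeq.term⟩

namespace RapidSeq

@[simp] lemma add_apply (c d : RapidSeq) (n : ℤ) : (c + d) n = c n + d n := rfl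

@[simp] lemma smul_apply (a : ℂ) (c : RapidSeq) (n : ℤ) : (a • c) n = a * c n := rfl

@[simp] lemma zero_apply (n : ℤ) : (0 : RapidSeq) n = 0 := rfl

@[ext] lemma ext {c d : RapidSeq} (h : ∀ n, c n = d n) : c = d := Subtype.ext (funext h)

lemma bddAbove (c : RapidSeq) (k : ℕ) :
    BddAbove (Set.range fun n : ℤ => (1 + |(n : ℝ)|) ^ k * ‖c n‖) := by
  obtain ⟨B, hB⟩ := c.2 k
  exact ⟨B, by rintro _ ⟨n, rfl⟩; exact hB n⟩

/-- The seminorm `sup_n (1 + |n|)^k |c n|` on `𝔰`. -/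
noncomputable def seminorm (k : ℕ) : Seminorm ℂ RapidSeq :=
  Seminorm.of (fun c => ⨆ n : ℤ, (1 + |(n : ℝ)|) ^ k * ‖c n‖)
    (by
      intro c d
      refine ciSup_le fun n => ?_
      calc (1 + |(n : ℝ)|) ^ k * ‖(c + d) n‖
          ≤ (1 + |(n : ℝ)|) ^ k * (‖c n‖ + ‖d n‖) :=
            mul_le_mul_of_nonneg_left (norm_add_le _ _) (by positivity)
        _ = (1 + |(n : ℝ)|) ^ k * ‖c n‖ + (1 + |(n : ℝ)|) ^ k * ‖d n‖ := by ring
        _ ≤ _ := add_le_add (le_ciSup (c.bddAbove k) n) (le_ciSup (d.bddAbove k) n))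
    (by
      intro a c
      rw [Real.mul_iSup_of_nonneg (norm_nonneg a)]
      refine iSup_congr fun n => ?_
      rw [smul_apply, norm_mul]
      ring)

lemma seminorm_apply (k : ℕ) (c : RapidSeq) :
    seminorm k c = ⨆ n : ℤ, (1 + |(n : ℝ)|) ^ k * ‖c n‖ := rfl

/-- The Fréchet topology of `𝔰`: the one generated by all the seminorms
`sup_n (1 + |n|)^k |c n|`, `k ∈ ℕ`. -/
noncomputable instance : TopologicalSpace RapidSeq :=
  (SeminormFamily.moduleFilterBasis (𝕜 := ℂ) (seminorm : ℕ → Seminorm ℂ RapidSeq)).topology'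

end RapidSeq

/-- `(x, y)` is a `(p, q)`-supercritical pair: both sequences are non-decreasing,
`|x n|, |y n| → ∞` as `|n| → ∞`, and
`limsup |x n|^(p-1) |x (n+1) - x n| < 1/2`, `limsup |y n|^(q-1) |y (n+1) - y n| < 1/2`
as `|n| → ∞`. A limit superior of a real function is `< 1/2` iff the function is eventually
`≤ r` for some `r < 1/2`. -/
structure IsSupercritical (p q : ℝ) (x y : ℤ → ℝ) : Prop where
  mono_x : Monotone x
  mono_y : Monotone y
  tendsto_x : Tendsto (fun n => |x n|) cofinite atTop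
  tendsto_y : Tendsto (fun n => |y n|) cofinite atTop
  limsup_x : limsup (fun n : ℤ => ((|x n| ^ (p - 1) * |x (n + 1) - x n| : ℝ) : EReal)) cofinite
    < ((1 / 2 : ℝ) : EReal)
  limsup_y : limsup (fun n : ℤ => ((|y n| ^ (q - 1) * |y (n + 1) - y n| : ℝ) : EReal)) cofinite
    < ((1 / 2 : ℝ) : EReal)

/-- `R` is the analysis operator `f ↦ ((f (x n))_n, (𝓕 f (y n))_n)` of the pair `(x, y)`. -/
structure IsAnalysisOperator (x y : ℤ → ℝ) (R : 𝓢(ℝ, ℂ) →ₗ[ℂ] RapidSeq × RapidSeq) : Prop where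
  fst_apply : ∀ (f : 𝓢(ℝ, ℂ)) (n : ℤ), (R f).1 n = f (x n)
  snd_apply : ∀ (f : 𝓢(ℝ, ℂ)) (n : ℤ), (R f).2 n = 𝓕 f (y n)

end Pool.Agent.Lib.MP_f612df_an
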