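import Pool.Agent.Lib.MP_f612df_an.Basics

open MeasureTheory Real
open scoped SchwartzMap FourierTransform ENNReal

namespace Pool.Agent.Lib.MP_f612df_an

/-- `e^{2 π i t}`. -/
noncomputable def ec (t : ℝ) : ℂ := Complex.exp (↑(2 * π * t) * Complex.I)

lemma smul_eq_ec (t : ℝ) (z : ℂ) : 𝐞 t • z = ec t * z := by
  rw [Circle.smul_def, Real.fourierChar_apply, smul_eq_mul, ec]

lemma ec_add (s t : ℝ) : ec (s + t) = ec s * ec t := by
  unfold ec
  rw [← Complex.exp_add]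
  congr 1
  push_cast
  ring

lemma norm_ec (t : ℝ) : ‖ec t‖ = 1 := by
  unfold ec
  rw [Complex.norm_exp_ofReal_mul_I]

lemma continuous_ec : Continuous ec := by
  unfold ec; fun_prop

lemma integral_fourier_mul_self {f g : ℝ → ℂ} (hf : Integrable f) (hg : Integrable g) :
    ∫ ξ, 𝓕 f ξ * g ξ = ∫ x, f x * 𝓕 g x := by
  simpa using! VectorFourier.integral_fourierIntegral_smul_eq_flip (L := innerₗ ℝ)
    continuous_fourierChar continuous_inner hf hg

lemma fourier_modulated (ψ : 𝓢(ℝ, ℂ)) (x ξ t : ℝ) :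
    𝓕 (fun η : ℝ => ec (η * x) * ψ (η - ξ)) t = ec (-(ξ * (t - x))) * 𝓕 ψ (t - x) := by
  rw [Real.fourier_real_eq]
  have h1 : (∫ v : ℝ, 𝐞 (-(v * t)) • (ec (v * x) * ψ (v - ξ))) =
      ∫ v : ℝ, 𝐞 (-((v + ξ) * t)) • (ec ((v + ξ) * x) * ψ v) := by
    rw [← integral_add_right_eq_self (fun v : ℝ => 𝐞 (-(v * t)) • (ec (v * x) * ψ (v - ξ))) ξ]
    simp
  rw [h1, SchwartzMap.fourier_coe, Real.fourier_real_eq, ← integral_const_mul]
  congr 1
  ext v
  simp only [smul_eq_ec]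
  have : ec (-((v + ξ) * t)) * ec ((v + ξ) * x) = ec (-(ξ * (t - x))) * ec (-(v * (t - x))) := by
    rw [← ec_add, ← ec_add]
    congr 1
    ring
  rw [← mul_assoc, this, mul_assoc]

/-- The window transform in its two representations. -/
lemma stft_dual (u φ : 𝓢(ℝ, ℂ)) (x ξ : ℝ) :
    ‖𝓕⁻ (prodS (𝓕 u) (shiftS ξ (𝓕⁻ φ))) x‖ = ‖𝓕 (prodS u (shiftS x φ)) ξ‖ := by
  have h0 : Integrable (fun η : ℝ => ec (η * x) * (𝓕⁻ φ) (η - ξ)) := by
    have h1 : Integrable (fun η : ℝ => (𝓕⁻ φ) (η - ξ)) := by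
      have := (shiftS ξ (𝓕⁻ φ)).integrable (μ := volume)
      exact this.congr (Filter.Eventually.of_forall fun η => shiftS_apply _ _ _)
    refine h1.norm.mono' ?_ ?_
    · apply Continuous.aestronglyMeasurable
      have := (𝓕⁻ φ).continuous
      have h2 := continuous_ec
      fun_prop
    · refine Filter.Eventually.of_forall fun η => ?_
      rw [norm_mul, norm_ec, one_mul]
  have h1 : 𝓕⁻ (prodS (𝓕 u) (shiftS ξ (𝓕⁻ φ))) x =
      ∫ η, 𝓕 (u : ℝ → ℂ) η * (ec (η * x) * (𝓕⁻ φ) (η - ξ)) := by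
    rw [SchwartzMap.fourierInv_coe, Real.fourierInv_eq]
    congr 1
    ext η
    rw [prodS_apply, shiftS_apply, smul_eq_ec, SchwartzMap.fourier_coe]
    simp only [RCLike.inner_apply, conj_trivial]
    rw [mul_comm x η]
    ring
  rw [h1, integral_fourier_mul_self u.integrable h0]
  have h2 : ∀ t, 𝓕 (fun η : ℝ => ec (η * x) * (𝓕⁻ φ) (η - ξ)) t =
      ec (-(ξ * (t - x))) * φ (t - x) := by
    intro t
    rw [fourier_modulated]
    rw [FourierTransform.fourier_fourierInv_eq]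
  have h3 : (∫ t, u t * 𝓕 (fun η : ℝ => ec (η * x) * (𝓕⁻ φ) (η - ξ)) t) =
      ec (ξ * x) * 𝓕 (prodS u (shiftS x φ)) ξ := by
    rw [SchwartzMap.fourier_coe, Real.fourier_real_eq, ← integral_const_mul]
    congr 1
    ext t
    rw [h2, prodS_apply, shiftS_apply, smul_eq_ec]
    have : ec (-(ξ * (t - x))) = ec (ξ * x) * ec (-(t * ξ)) := by
      rw [← ec_add]
      congr 1
      ring
    rw [this]
    ring
  rw [h3, norm_mul, norm_ec, one_mul]

end Pool.Agent.Lib.MP_f612df_an
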