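import Pool.Agent.Lib.MP_f612df_an.Main

/-!
# Complemented range and the interpolation formula
-/

open MeasureTheory Real Filter Topology Set
open scoped SchwartzMap FourierTransform ENNReal

namespace Pool.Agent.Lib.MP_f612df_an

namespace RapidSeq

/-- The `n`-th unit vector. -/
noncomputable def unit (n : ℤ) : RapidSeq :=
  ⟨Pi.single n 1, fun k => ⟨(1 + |(n : ℝ)|) ^ k, fun m => by
    by_cases h : m = n
    · subst h; simp
    · rw [Pi.single_eq_of_ne h, norm_zero, mul_zero]; positivity⟩⟩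

lemma unit_apply (n m : ℤ) : unit n m = if m = n then 1 else 0 := by
  change (Pi.single n 1 : ℤ → ℂ) m = _
  rw [Pi.single_apply]

lemma sum_apply (s : Finset ℤ) (f : ℤ → RapidSeq) (m : ℤ) :
    (∑ n ∈ s, f n) m = ∑ n ∈ s, f n m := by
  classical
  induction s using Finset.induction_on with
  | empty => simp
  | insert a s ha ih => rw [Finset.sum_insert ha, Finset.sum_insert ha, add_apply, ih]

lemma sub_apply (c d : RapidSeq) (m : ℤ) : (c - d) m = c m - d m := rfl

/-- Every rapidly decreasing sequence is the sum of its coordinate expansion. -/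
lemma hasSum_unit (c : RapidSeq) : HasSum (fun n : ℤ => c n • unit n) c := by
  classical
  unfold HasSum
  rw [withSeminorms.tendsto_nhds]
  intro k ε hε
  set Q := seminorm (k + 1) c with hQ
  have hQ0 : 0 ≤ Q := apply_nonneg _ _
  obtain ⟨N, hN⟩ := exists_nat_gt (2 * Q / ε)
  have hs0 : ∀ᶠ s : Finset ℤ in (SummationFilter.unconditional ℤ).filter,
      Finset.Icc (-(N : ℤ)) N ⊆ s := by
    exact Filter.eventually_ge_atTop _
  filter_upwards [hs0] with s hs
  have h1 : ∀ m : ℤ, (1 + |(m : ℝ)|) ^ k * ‖((∑ n ∈ s, c n • unit n) - c) m‖ ≤ ε / 2 := by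
    intro m
    have h2 : (∑ n ∈ s, c n • unit n) m = if m ∈ s then c m else 0 := by
      rw [sum_apply]
      simp only [smul_apply, unit_apply, mul_ite, mul_one, mul_zero]
      rw [Finset.sum_ite_eq]
    rw [sub_apply, h2]
    by_cases hm : m ∈ s
    · rw [if_pos hm, sub_self, norm_zero, mul_zero]; positivity
    · rw [if_neg hm, zero_sub, norm_neg]
      have h3 : (N : ℝ) ≤ 1 + |(m : ℝ)| := by
        have h4 : ¬ (-(N : ℤ) ≤ m ∧ m ≤ N) := fun h => hm (hs (Finset.mem_Icc.2 h))
        have h5 : (N : ℤ) < |m| := by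
          by_contra h
          push Not at h
          exact h4 (abs_le.1 h)
        have h6 : (N : ℝ) < |(m : ℝ)| := by exact_mod_cast h5
        linarith
      have h7 : (1 + |(m : ℝ)|) ^ (k + 1) * ‖c m‖ ≤ Q := le_seminorm (k + 1) c m
      have h8 : 0 ≤ (1 + |(m : ℝ)|) ^ k * ‖c m‖ := by positivity
      have h9 : (N : ℝ) * ((1 + |(m : ℝ)|) ^ k * ‖c m‖) ≤ Q := by
        calc (N : ℝ) * ((1 + |(m : ℝ)|) ^ k * ‖c m‖)
            ≤ (1 + |(m : ℝ)|) * ((1 + |(m : ℝ)|) ^ k * ‖c m‖) := by gcongr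
          _ = (1 + |(m : ℝ)|) ^ (k + 1) * ‖c m‖ := by ring
          _ ≤ Q := h7
      by_contra hcon
      push Not at hcon
      have hN0 : 0 < (N : ℝ) := lt_of_le_of_lt (by positivity) hN
      have h10 : 2 * Q < N * ε := by
        rw [div_lt_iff₀ hε] at hN; linarith
      have h11 : (N : ℝ) * (ε / 2) < N * ((1 + |(m : ℝ)|) ^ k * ‖c m‖) :=
        mul_lt_mul_of_pos_left hcon hN0
      linarith
  have := seminorm_le (k := k) h1
  linarith

end RapidSeq

/-- The final statement in the form used in the results file. -/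
theorem main_theorem {p q : ℝ} (hp : 1 < p) (hpq : 1 / p + 1 / q = 1) {x y : ℤ → ℝ}
    (hS : IsSupercritical p q x y) {R : 𝓢(ℝ, ℂ) →ₗ[ℂ] RapidSeq × RapidSeq}
    (hR : IsAnalysisOperator x y R) (hE : IsEmbedding R) :
    (LinearMap.range R).ClosedComplemented ∧
    (∃ L : RapidSeq × RapidSeq →L[ℂ] 𝓢(ℝ, ℂ), ∀ f, L (R f) = f) ∧
    ∃ g h : ℤ → 𝓢(ℝ, ℂ), ∀ f : 𝓢(ℝ, ℂ), Summable (fun n => f (x n) • g n) ∧
      Summable (fun n => 𝓕 f (y n) • h n) ∧
      f = (∑' n, f (x n) • g n) + ∑' n, 𝓕 f (y n) • h n := by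
  have hc : p.HolderConjugate q := by
    rw [Real.holderConjugate_iff]
    exact ⟨hp, by simpa [one_div] using hpq⟩
  obtain ⟨L, hL⟩ := exists_left_inverse hc hS hR hE
  refine ⟨?_, ⟨L, hL⟩, fun n => L (RapidSeq.unit n, 0), fun n => L (0, RapidSeq.unit n),
    fun f => ?_⟩
  · refine ⟨(((⟨R, hE.continuous⟩ : 𝓢(ℝ, ℂ) →L[ℂ] RapidSeq × RapidSeq).comp L).codRestrict
      (LinearMap.range R) fun c => LinearMap.mem_range_self R (L c)), ?_⟩
    rintro ⟨_, u, rfl⟩
    ext1
    change R (L (R u)) = R u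
    rw [hL u]
  · have h1 : HasSum (fun n => f (x n) • L (RapidSeq.unit n, 0)) (L ((R f).1, 0)) := by
      have h2 := (RapidSeq.hasSum_unit (R f).1).mapL
        (L.comp (ContinuousLinearMap.inl ℂ RapidSeq RapidSeq))
      refine h2.congr_fun ?_
      intro n
      change _ = L (((R f).1 n) • RapidSeq.unit n, 0)
      rw [hR.fst_apply]
      have : ((f (x n)) • RapidSeq.unit n, (0 : RapidSeq)) =
          f (x n) • ((RapidSeq.unit n, 0) : RapidSeq × RapidSeq) := by ext <;> simp
      rw [this, map_smul]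
    have h1' : HasSum (fun n => 𝓕 f (y n) • L (0, RapidSeq.unit n)) (L (0, (R f).2)) := by
      have h2 := (RapidSeq.hasSum_unit (R f).2).mapL
        (L.comp (ContinuousLinearMap.inr ℂ RapidSeq RapidSeq))
      refine h2.congr_fun ?_
      intro n
      change _ = L (0, ((R f).2 n) • RapidSeq.unit n)
      rw [hR.snd_apply]
      have : ((0 : RapidSeq), (𝓕 f (y n)) • RapidSeq.unit n) =
          𝓕 f (y n) • ((0, RapidSeq.unit n) : RapidSeq × RapidSeq) := by ext <;> simp
      rw [this, map_smul]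
    refine ⟨h1.summable, h1'.summable, ?_⟩
    rw [h1.tsum_eq, h1'.tsum_eq, ← map_add]
    have : (((R f).1, 0) + (0, (R f).2) : RapidSeq × RapidSeq) = R f := by ext <;> simp
    rw [this, hL]

end Pool.Agent.Lib.MP_f612df_an
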