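import Pool.Agent.Lib.MP_f612df_an.Split

/-!
# Supercritical frames are strong
-/

open MeasureTheory Real Filter Topology Set
open scoped SchwartzMap FourierTransform ENNReal

namespace Pool.Agent.Lib.MP_f612df_an

lemma summable_JJ : Summable fun j : ℤ × ℤ => (1 / JJ j) ^ 4 := by
  have h := summable_inv_sq_int.mul_of_nonneg summable_inv_sq_int
    (fun n => by positivity) (fun n => by positivity)
  refine Summable.of_nonneg_of_le (fun j => ?_) (fun j => ?_) h
  · have := one_le_JJ j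
    positivity
  · have h1 : 1 + |(j.1 : ℝ)| ≤ JJ j := by
      unfold JJ; linarith [abs_nonneg (j.2 : ℝ)]
    have h2 : 1 + |(j.2 : ℝ)| ≤ JJ j := by
      unfold JJ; linarith [abs_nonneg (j.1 : ℝ)]
    have h3 : 0 < 1 + |(j.1 : ℝ)| := by positivity
    have h4 : 0 < 1 + |(j.2 : ℝ)| := by positivity
    have h5 : 0 < JJ j := lt_of_lt_of_le h3 h1
    calc (1 / JJ j) ^ 4 = (1 / JJ j) ^ 2 * (1 / JJ j) ^ 2 := by ring
      _ ≤ (1 / (1 + |(j.1 : ℝ)|)) ^ 2 * (1 / (1 + |(j.2 : ℝ)|)) ^ 2 := by gcongr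
      _ = _ := by rw [div_pow, div_pow, one_pow]

lemma nu_le_pow {M k i : ℕ} (hik : i ≤ k) {J : ℝ} (hJ : 1 ≤ J) (n : ℤ) :
    nu M k J n ≤ (1 / J) ^ i * (1 + |(n : ℝ)|) ^ (M * (i + 1)) := by
  have ht := one_le_abs n
  have h0 : 0 ≤ (1 + |(n : ℝ)|) ^ M / J := by positivity
  have h1 : 0 ≤ min 1 ((1 + |(n : ℝ)|) ^ M / J) := le_min zero_le_one h0
  have h2 : min 1 ((1 + |(n : ℝ)|) ^ M / J) ^ k ≤ min 1 ((1 + |(n : ℝ)|) ^ M / J) ^ i :=
    pow_le_pow_of_le_one h1 (min_le_left _ _) hik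
  have h3 : min 1 ((1 + |(n : ℝ)|) ^ M / J) ^ i ≤ ((1 + |(n : ℝ)|) ^ M / J) ^ i :=
    pow_le_pow_left₀ h1 (min_le_right _ _) i
  unfold nu
  calc _ ≤ (1 + |(n : ℝ)|) ^ M * ((1 + |(n : ℝ)|) ^ M / J) ^ i := by
        gcongr
        exact h2.trans h3
    _ = _ := by rw [div_pow, ← pow_mul, mul_add, mul_one, pow_add, one_div, inv_pow]; field_simp

lemma nu_le_base {M k : ℕ} {J : ℝ} (hJ : 1 ≤ J) (n : ℤ) :
    nu M k J n ≤ (1 + |(n : ℝ)|) ^ M := by
  have ht := one_le_abs n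
  have h0 : 0 ≤ (1 + |(n : ℝ)|) ^ M / J := by positivity
  have h1 : 0 ≤ min 1 ((1 + |(n : ℝ)|) ^ M / J) := le_min zero_le_one h0
  unfold nu
  calc _ ≤ (1 + |(n : ℝ)|) ^ M * 1 := by
        gcongr
        exact pow_le_one₀ h1 (min_le_left _ _)
    _ = _ := mul_one _

/-- The left inverse of the analysis operator. -/
theorem exists_left_inverse {p q : ℝ} (hpq : p.HolderConjugate q) {x y : ℤ → ℝ}
    (hS : IsSupercritical p q x y) {R : 𝓢(ℝ, ℂ) →ₗ[ℂ] RapidSeq × RapidSeq}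
    (hR : IsAnalysisOperator x y R) (hE : IsEmbedding R) :
    ∃ L : RapidSeq × RapidSeq →L[ℂ] 𝓢(ℝ, ℂ), ∀ f, L (R f) = f := by
  obtain ⟨C₀, m₀, hC₀, hL2⟩ := l2_bound hR hE.isInducing
  obtain ⟨M, HM⟩ := coef_apriori hpq hS.mono_x hS.mono_y hS.tendsto_x hS.tendsto_y
    hS.limsup_x hS.limsup_y hC₀ hL2 chi
  choose Ck hCk0 hCk using HM
  -- the slowly growing exponent
  classical
  set K : ℤ × ℤ → ℕ := fun j => Nat.findGreatest (fun k => Ck k ≤ JJ j) ⌊JJ j⌋₊ with hK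
  set D0 := max 1 (Ck 0) with hD0
  have hD01 : 1 ≤ D0 := le_max_left _ _
  have hD00 : 0 < D0 := by linarith
  have claim1 : ∀ (j : ℤ × ℤ) (u : 𝓢(ℝ, ℂ)) (B : ℝ), 0 < B →
      (∀ n, nu M (K j) (JJ j) n * ‖u (x n)‖ ≤ B) →
      (∀ n, nu M (K j) (JJ j) n * ‖(𝓕 u) (y n)‖ ≤ B) → ‖coef j u‖ ≤ D0 * B := by
    intro j u B hB hx hy
    have h1 := hCk (K j) j.1 j.2 (JJ j) rfl u B hB hx hy
    change JJ j * ‖coef j u‖ ≤ Ck (K j) * B at h1
    have hJ := one_le_JJ j
    have hc := norm_nonneg (coef j u)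
    by_cases h0 : K j = 0
    · rw [h0] at h1
      have h2 : Ck 0 ≤ D0 := le_max_right _ _
      calc ‖coef j u‖ ≤ JJ j * ‖coef j u‖ := by nlinarith
        _ ≤ Ck 0 * B := h1
        _ ≤ D0 * B := by gcongr
    · have h2 : Ck (K j) ≤ JJ j :=
        Nat.findGreatest_of_ne_zero (P := fun k => Ck k ≤ JJ j) (n := ⌊JJ j⌋₊) rfl h0
      have h3 : JJ j * ‖coef j u‖ ≤ JJ j * B := h1.trans (by gcongr)
      have h4 : ‖coef j u‖ ≤ B := le_of_mul_le_mul_left h3 (by linarith)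
      nlinarith
  have claim2 : ∀ i : ℕ, ∃ D : ℝ, 0 ≤ D ∧ ∀ (j : ℤ × ℤ) (n : ℤ),
      nu M (K j) (JJ j) n ≤ D * (1 / JJ j) ^ i * (1 + |(n : ℝ)|) ^ (M * (i + 1)) := by
    intro i
    set T := max (max 1 (i : ℝ)) (Ck i) with hT
    have hT1 : 1 ≤ T := (le_max_left _ _).trans (le_max_left _ _)
    refine ⟨T ^ i, by positivity, fun j n => ?_⟩
    have hJ := one_le_JJ j
    have hJ0 : 0 < JJ j := by linarith
    have ht := one_le_abs n
    rcases le_or_gt T (JJ j) with h | h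
    · have hiJ : i ≤ ⌊JJ j⌋₊ := by
        apply Nat.le_floor
        exact ((le_max_right _ _).trans (le_max_left _ _)).trans h
      have hCi : Ck i ≤ JJ j := (le_max_right _ _).trans h
      have hiK : i ≤ K j := Nat.le_findGreatest hiJ hCi
      calc nu M (K j) (JJ j) n ≤ (1 / JJ j) ^ i * (1 + |(n : ℝ)|) ^ (M * (i + 1)) :=
            nu_le_pow hiK hJ n
        _ ≤ T ^ i * ((1 / JJ j) ^ i * (1 + |(n : ℝ)|) ^ (M * (i + 1))) := by
            have h1 : 1 ≤ T ^ i := one_le_pow₀ hT1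
            have h2 : 0 ≤ (1 / JJ j) ^ i * (1 + |(n : ℝ)|) ^ (M * (i + 1)) := by positivity
            nlinarith
        _ = _ := by ring
    · calc nu M (K j) (JJ j) n ≤ (1 + |(n : ℝ)|) ^ M := nu_le_base hJ n
        _ ≤ (1 + |(n : ℝ)|) ^ (M * (i + 1)) := by
            apply pow_le_pow_right₀ ht
            nlinarith
        _ ≤ (T / JJ j) ^ i * (1 + |(n : ℝ)|) ^ (M * (i + 1)) := by
            have h1 : 1 ≤ T / JJ j := by rw [le_div_iff₀ hJ0]; linarith
            have h2 : 1 ≤ (T / JJ j) ^ i := one_le_pow₀ h1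
            have h3 : 0 ≤ (1 + |(n : ℝ)|) ^ (M * (i + 1)) := by positivity
            nlinarith
        _ = _ := by rw [div_pow, one_div, inv_pow]; ring
  -- the seminorms
  have hν0 : ∀ (j : ℤ × ℤ) (n : ℤ), 0 ≤ nu M (K j) (JJ j) n := fun j n =>
    nu_nonneg (one_le_JJ j) n
  have hνb : ∀ (j : ℤ × ℤ) (n : ℤ), nu M (K j) (JJ j) n ≤ 1 * (1 + |(n : ℝ)|) ^ M := fun j n => by
    rw [one_mul]; exact nu_le_base (one_le_JJ j) n
  set N' : ℤ × ℤ → Seminorm ℂ (RapidSeq × RapidSeq) := fun j =>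
    (RapidSeq.wsem _ (hν0 j) (hνb j)).comp (LinearMap.fst ℂ RapidSeq RapidSeq) +
    (RapidSeq.wsem _ (hν0 j) (hνb j)).comp (LinearMap.snd ℂ RapidSeq RapidSeq) with hN'
  have hN'a : ∀ (j : ℤ × ℤ) (c : RapidSeq × RapidSeq), N' j c =
      RapidSeq.wsem _ (hν0 j) (hνb j) c.1 + RapidSeq.wsem _ (hν0 j) (hνb j) c.2 := fun j c => rfl
  set D0' : NNReal := ⟨D0, hD00.le⟩ with hD0'
  have hinj : Function.Injective R := hE.injective
  set S := LinearMap.range R with hSdef
  set e := LinearEquiv.ofInjective R hinj with he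
  have hb1 : ∀ (j : ℤ × ℤ) (u : 𝓢(ℝ, ℂ)), ‖coef j u‖ ≤ D0 * N' j (R u) := by
    intro j u
    apply le_of_forall_pos_le_add
    intro ε hε
    have hn0 : 0 ≤ N' j (R u) := apply_nonneg _ _
    have hBpos : 0 < N' j (R u) + ε / D0 := by positivity
    have h1 := RapidSeq.le_wsem _ (hν0 j) (hνb j) (R u).1
    have h2 := RapidSeq.le_wsem _ (hν0 j) (hνb j) (R u).2
    have h3 : 0 ≤ RapidSeq.wsem _ (hν0 j) (hνb j) (R u).1 := apply_nonneg _ _
    have h4 : 0 ≤ RapidSeq.wsem _ (hν0 j) (hνb j) (R u).2 := apply_nonneg _ _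
    have h5 : 0 < ε / D0 := by positivity
    have h6 := hN'a j (R u)
    have := claim1 j u (N' j (R u) + ε / D0) hBpos
      (fun n => by
        have := h1 n
        rw [hR.fst_apply] at this
        linarith)
      (fun n => by
        have := h2 n
        rw [hR.snd_apply] at this
        linarith)
    calc _ ≤ _ := this
      _ = _ := by field_simp
  have hext : ∀ j : ℤ × ℤ, ∃ g : RapidSeq × RapidSeq →ₗ[ℂ] ℂ, (∀ u, g (R u) = coef j u) ∧
      ∀ c, ‖g c‖ ≤ D0 * N' j c := by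
    intro j
    obtain ⟨g, hg1, hg2⟩ := Module.Dual.exists_extension_of_le_seminorm S
      ((coef j).comp e.symm.toLinearMap) (p := D0' • N' j) (by
        intro s
        have h1 : R (e.symm s) = s := by
          have := e.apply_symm_apply s
          exact congrArg Subtype.val this
        have h2 := hb1 j (e.symm s)
        rw [h1] at h2
        exact h2)
    refine ⟨g, fun u => ?_, fun c => hg2 c⟩
    have h1 := hg1 ⟨R u, LinearMap.mem_range_self R u⟩
    have h2 : e.symm ⟨R u, LinearMap.mem_range_self R u⟩ = u := by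
      rw [LinearEquiv.symm_apply_eq]
      rfl
    rw [show g (R u) = g ((⟨R u, LinearMap.mem_range_self R u⟩ : S) : RapidSeq × RapidSeq) from rfl,
      h1]
    change coef j (e.symm ⟨R u, LinearMap.mem_range_self R u⟩) = coef j u
    rw [h2]
  choose ℓ hℓ1 hℓ2 using hext
  obtain ⟨L, hLs, hL⟩ := exists_synthesis (E := RapidSeq × RapidSeq) atom ℓ (by
    intro m n
    obtain ⟨C, hC0, hC⟩ := atom_seminorm_le m n
    obtain ⟨D, hD0'', hD⟩ := claim2 (m + n + 4)
    refine ⟨fun j => D0 * D * C * (1 / JJ j) ^ 4,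
      (RapidSeq.seminorm (M * (m + n + 4 + 1))).comp (LinearMap.fst ℂ RapidSeq RapidSeq) +
      (RapidSeq.seminorm (M * (m + n + 4 + 1))).comp (LinearMap.snd ℂ RapidSeq RapidSeq),
      summable_JJ.mul_left _, ?_, ?_⟩
    · have hc := RapidSeq.withSeminorms.continuous_seminorm (M * (m + n + 4 + 1))
      exact (hc.comp continuous_fst).add (hc.comp continuous_snd)
    · intro j c
      have hJ := one_le_JJ j
      have hJ0 : 0 < JJ j := by linarith
      set P := RapidSeq.seminorm (M * (m + n + 4 + 1)) c.1 +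
        RapidSeq.seminorm (M * (m + n + 4 + 1)) c.2 with hP
      have hP0 : 0 ≤ P := add_nonneg (apply_nonneg _ _) (apply_nonneg _ _)
      have h1 : N' j c ≤ D * (1 / JJ j) ^ (m + n + 4) * P := by
        rw [hN'a, hP, mul_add]
        exact add_le_add
          (RapidSeq.wsem_le _ (hν0 j) (hνb j) (by positivity) (hD j) c.1)
          (RapidSeq.wsem_le _ (hν0 j) (hνb j) (by positivity) (hD j) c.2)
      have h2 := hℓ2 j c
      have h3 := hC j
      change ‖ℓ j c‖ * SchwartzMap.seminorm ℂ m n (atom j) ≤ D0 * D * C * (1 / JJ j) ^ 4 * P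
      calc ‖ℓ j c‖ * SchwartzMap.seminorm ℂ m n (atom j)
          ≤ (D0 * (D * (1 / JJ j) ^ (m + n + 4) * P)) * (C * JJ j ^ (m + n)) := by
            gcongr
            exact h2.trans (by gcongr)
        _ = D0 * D * C * ((1 / JJ j) ^ (m + n + 4) * JJ j ^ (m + n)) * P := by ring
        _ = _ := by
            have : (1 / JJ j) ^ (m + n + 4) * JJ j ^ (m + n) = (1 / JJ j) ^ 4 := by
              rw [pow_add, mul_right_comm, ← mul_pow]
              have : 1 / JJ j * JJ j = 1 := by field_simp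
              rw [this, one_pow, one_mul]
            rw [this])
  refine ⟨L, fun u => ?_⟩
  ext t
  rw [hL (R u) t]
  simp_rw [hℓ1]
  apply expansion
  have := hLs (R u) t
  simp_rw [hℓ1] at this
  exact this

end Pool.Agent.Lib.MP_f612df_an
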