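import Pool.Agent.Lib.MP_f612df_an.Window

/-!
# The one-sided window estimates
-/

open MeasureTheory Real
open scoped SchwartzMap FourierTransform ENNReal

namespace Pool.Agent.Lib.MP_f612df_an

variable {A : ℝ} {M : ℕ} {f : ℝ → ℝ} {T : 𝓢(ℝ, ℂ) → 𝓢(ℝ, ℂ)}

lemma inner_upper (hT : IsIso2 T) (hf : IsWeight A M f) (u φ : 𝓢(ℝ, ℂ)) (x : ℝ) :
    ∫⁻ ξ, ENNReal.ofReal (f x * ‖T (prodS u (shiftS x φ)) ξ‖ ^ 2) =
      ∫⁻ t, ENNReal.ofReal (f x * (‖u t‖ ^ 2 * ‖φ (t - x)‖ ^ 2)) := by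
  have h0 := hf.nonneg x
  have h1 := hT.plancherel (prodS u (shiftS x φ))
  rw [← ofReal_integral_eq_lintegral_ofReal ((integrable_norm_sq _).const_mul _)
    (Filter.Eventually.of_forall fun ξ => by positivity), integral_const_mul, h1,
    ← integral_const_mul, ofReal_integral_eq_lintegral_ofReal ((integrable_norm_sq _).const_mul _)
    (Filter.Eventually.of_forall fun ξ => by positivity)]
  congr 1
  ext t
  rw [prodS_apply, shiftS_apply, norm_mul, mul_pow]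

/-- Upper bound for the window average. -/
lemma oneSide_upper (hT : IsIso2 T) (hf : IsWeight A M f) (hA : 1 ≤ A) (u φ : 𝓢(ℝ, ℂ)) :
    ∫⁻ x, ∫⁻ ξ, ENNReal.ofReal (f x * ‖T (prodS u (shiftS x φ)) ξ‖ ^ 2) ≤
      ENNReal.ofReal (((∫ s, ‖φ s‖ ^ 2) + mom M φ / A) * ∫ t, f t * ‖u t‖ ^ 2) := by
  simp_rw [inner_upper hT hf u φ]
  exact hf.double_le hA φ u

lemma sq_norm_le {η : ℝ} (hη : 0 < η) (a b : ℂ) :
    ‖a‖ ^ 2 ≤ (1 + η) * ‖a + b‖ ^ 2 + (1 + 1 / η) * ‖b‖ ^ 2 := by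
  have h1 : ‖a‖ ≤ ‖a + b‖ + ‖b‖ := by
    calc ‖a‖ = ‖(a + b) - b‖ := by ring_nf
      _ ≤ _ := norm_sub_le _ _
  have h2 : ‖a‖ ^ 2 ≤ (‖a + b‖ + ‖b‖) ^ 2 := pow_le_pow_left₀ (norm_nonneg _) h1 2
  refine h2.trans ?_
  have h3 : 0 ≤ (η * ‖a + b‖ - ‖b‖) ^ 2 / η := by positivity
  have h4 : (η * ‖a + b‖ - ‖b‖) ^ 2 / η =
      η * ‖a + b‖ ^ 2 - 2 * ‖a + b‖ * ‖b‖ + 1 / η * ‖b‖ ^ 2 := by
    field_simp
    ring
  rw [h4] at h3
  nlinarith

lemma inner_lower (hT : IsIso2 T) (hf : IsWeight A M f) (u φ : 𝓢(ℝ, ℂ)) {η : ℝ} (hη : 0 < η)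
    (x : ℝ) :
    ∫⁻ t, ENNReal.ofReal (f x * (‖derS u t‖ ^ 2 * ‖φ (t - x)‖ ^ 2)) ≤
      ENNReal.ofReal ((1 + η) * (4 * π ^ 2)) *
        (∫⁻ ξ, ENNReal.ofReal (f x * (ξ ^ 2 * ‖T (prodS u (shiftS x φ)) ξ‖ ^ 2))) +
      ENNReal.ofReal (1 + 1 / η) *
        ∫⁻ t, ENNReal.ofReal (f x * (‖u t‖ ^ 2 * ‖derS φ (t - x)‖ ^ 2)) := by
  have h0 := hf.nonneg x
  set h := prodS u (shiftS x φ) with hh
  have hd := hT.deriv_eq h
  have i1 : Integrable (fun ξ : ℝ => ξ ^ 2 * ‖T h ξ‖ ^ 2) := by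
    apply integrable_weight (C := 1) (M := 2) (by fun_prop)
    intro ξ
    rw [abs_pow, one_mul]
    exact pow_le_pow_left₀ (abs_nonneg _) (by linarith [abs_nonneg ξ]) 2
  have i2 : Integrable (fun t : ℝ => ‖derS u t‖ ^ 2 * ‖φ (t - x)‖ ^ 2) := by
    have := integrable_norm_sq (prodS (derS u) (shiftS x φ))
    refine this.congr (Filter.Eventually.of_forall fun t => ?_)
    simp only [prodS_apply, shiftS_apply, norm_mul, mul_pow]
  have i3 : Integrable (fun t : ℝ => ‖u t‖ ^ 2 * ‖derS φ (t - x)‖ ^ 2) := by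
    have := integrable_norm_sq (prodS u (shiftS x (derS φ)))
    refine this.congr (Filter.Eventually.of_forall fun t => ?_)
    simp only [prodS_apply, shiftS_apply, norm_mul, mul_pow]
  have i4 := integrable_norm_sq (derS h)
  have key : ∫ t, ‖derS u t‖ ^ 2 * ‖φ (t - x)‖ ^ 2 ≤
      (1 + η) * (∫ t, ‖derS h t‖ ^ 2) +
      (1 + 1 / η) * ∫ t, ‖u t‖ ^ 2 * ‖derS φ (t - x)‖ ^ 2 := by
    rw [← integral_const_mul, ← integral_const_mul, ← integral_add (i4.const_mul _)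
      (i3.const_mul _)]
    refine integral_mono i2 ((i4.const_mul _).add (i3.const_mul _)) fun t => ?_
    have e1 : derS h t = derS u t * φ (t - x) + u t * derS φ (t - x) := by
      rw [hh, derS_prodS, shiftS_apply, derS_shiftS]
    have := sq_norm_le hη (derS u t * φ (t - x)) (u t * derS φ (t - x))
    rw [← e1] at this
    simp only [norm_mul, mul_pow] at this
    exact this
  have hη1 : 0 ≤ (1 + η) * (4 * π ^ 2) := by positivity
  have hη2 : 0 ≤ 1 + 1 / η := by positivity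
  rw [← ofReal_integral_eq_lintegral_ofReal (i2.const_mul _)
      (Filter.Eventually.of_forall fun ξ => by positivity),
    ← ofReal_integral_eq_lintegral_ofReal (i1.const_mul _)
      (Filter.Eventually.of_forall fun ξ => by positivity),
    ← ofReal_integral_eq_lintegral_ofReal (i3.const_mul _)
      (Filter.Eventually.of_forall fun ξ => by positivity),
    integral_const_mul, integral_const_mul, integral_const_mul, hd,
    ← ENNReal.ofReal_mul hη1, ← ENNReal.ofReal_mul hη2, ← ENNReal.ofReal_add]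
  · apply ENNReal.ofReal_le_ofReal
    calc f x * ∫ t, ‖derS u t‖ ^ 2 * ‖φ (t - x)‖ ^ 2
        ≤ f x * ((1 + η) * (∫ t, ‖derS h t‖ ^ 2) +
          (1 + 1 / η) * ∫ t, ‖u t‖ ^ 2 * ‖derS φ (t - x)‖ ^ 2) :=
          mul_le_mul_of_nonneg_left key h0
      _ = _ := by field_simp
  · have : 0 ≤ ∫ t, ‖derS h t‖ ^ 2 := integral_nonneg fun t => by positivity
    positivity
  · have : 0 ≤ ∫ t, ‖u t‖ ^ 2 * ‖derS φ (t - x)‖ ^ 2 := integral_nonneg fun t => by positivity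
    positivity

/-- Lower bound for the window average of the derivative term. -/
lemma oneSide_lower (hT : IsIso2 T) (hf : IsWeight A M f) (hA : 1 ≤ A) (u φ : 𝓢(ℝ, ℂ)) {η : ℝ}
    (hη : 0 < η) :
    ENNReal.ofReal (((∫ s, ‖φ s‖ ^ 2) - mom M φ / A) * ∫ t, f t * ‖derS u t‖ ^ 2) ≤
      ENNReal.ofReal ((1 + η) * (4 * π ^ 2)) *
        (∫⁻ x, ∫⁻ ξ, ENNReal.ofReal (f x * (ξ ^ 2 * ‖T (prodS u (shiftS x φ)) ξ‖ ^ 2))) +
      ENNReal.ofReal ((1 + 1 / η) * (((∫ s, ‖derS φ s‖ ^ 2) + mom M (derS φ) / A) *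
        ∫ t, f t * ‖u t‖ ^ 2)) := by
  have hη1 : 0 ≤ (1 + η) * (4 * π ^ 2) := by positivity
  have hη2 : 0 ≤ 1 + 1 / η := by positivity
  have hfc := hf.cont
  have hu := u.continuous
  have hg := (derS φ).continuous
  have hm : Measurable fun x : ℝ =>
      ∫⁻ t, ENNReal.ofReal (f x * (‖u t‖ ^ 2 * ‖derS φ (t - x)‖ ^ 2)) := by
    have hc : Continuous (Function.uncurry fun x t : ℝ =>
        f x * (‖u t‖ ^ 2 * ‖derS φ (t - x)‖ ^ 2)) := by
      unfold Function.uncurry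
      fun_prop
    exact hc.measurable.ennreal_ofReal.lintegral_prod_right'
  calc _ ≤ ∫⁻ x, ∫⁻ t, ENNReal.ofReal (f x * (‖derS u t‖ ^ 2 * ‖φ (t - x)‖ ^ 2)) :=
        hf.le_double hA φ (derS u)
    _ ≤ ∫⁻ x, (ENNReal.ofReal ((1 + η) * (4 * π ^ 2)) *
        (∫⁻ ξ, ENNReal.ofReal (f x * (ξ ^ 2 * ‖T (prodS u (shiftS x φ)) ξ‖ ^ 2))) +
      ENNReal.ofReal (1 + 1 / η) *
        ∫⁻ t, ENNReal.ofReal (f x * (‖u t‖ ^ 2 * ‖derS φ (t - x)‖ ^ 2))) :=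
        lintegral_mono fun x => inner_lower hT hf u φ hη x
    _ = ENNReal.ofReal ((1 + η) * (4 * π ^ 2)) *
        (∫⁻ x, ∫⁻ ξ, ENNReal.ofReal (f x * (ξ ^ 2 * ‖T (prodS u (shiftS x φ)) ξ‖ ^ 2))) +
      ENNReal.ofReal (1 + 1 / η) *
        ∫⁻ x, ∫⁻ t, ENNReal.ofReal (f x * (‖u t‖ ^ 2 * ‖derS φ (t - x)‖ ^ 2)) := by
        rw [lintegral_add_right _ (hm.const_mul _), lintegral_const_mul' _ _ ENNReal.ofReal_ne_top,
          lintegral_const_mul _ hm]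
    _ ≤ _ := by
        gcongr
        rw [ENNReal.ofReal_mul hη2]
        gcongr
        exact hf.double_le hA (derS φ) u

end Pool.Agent.Lib.MP_f612df_an
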