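import Pool.Agent.Lib.MP_f612df_an.PhaseSpace

/-!
# The phase space inequality for the special weights
-/

open MeasureTheory Real Filter Topology
open scoped SchwartzMap FourierTransform ENNReal

namespace Pool.Agent.Lib.MP_f612df_an

lemma exists_window : ∃ φ : 𝓢(ℝ, ℂ), ∫ s, ‖φ s‖ ^ 2 = 1 := by
  let b : ContDiffBump (0 : ℝ) := ⟨1, 2, one_pos, one_lt_two⟩
  have h1 : HasCompactSupport (fun x : ℝ => ((b x : ℝ) : ℂ)) :=
    b.hasCompactSupport.comp_left (g := ((↑) : ℝ → ℂ)) Complex.ofReal_zero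
  have h2 : ContDiff ℝ (⊤ : ℕ∞) (fun x : ℝ => ((b x : ℝ) : ℂ)) :=
    Complex.ofRealCLM.contDiff.comp b.contDiff
  let g : 𝓢(ℝ, ℂ) := h1.toSchwartzMap h2
  have hg : ∀ x, g x = ((b x : ℝ) : ℂ) := fun x => rfl
  have hpos : 0 < ∫ s, ‖g s‖ ^ 2 := by
    have hc : Continuous fun s => ‖g s‖ ^ 2 := by
      have := g.continuous
      fun_prop
    apply hc.integral_pos_of_hasCompactSupport_nonneg_nonzero (x := 0)
    · refine h1.comp_left (g := fun z : ℂ => ‖z‖ ^ 2) (by simp)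
    · intro s; positivity
    · rw [hg]
      have : b 0 = 1 := b.one_of_mem_closedBall (by simp [b])
      rw [this]
      simp
  set I := ∫ s, ‖g s‖ ^ 2 with hI
  refine ⟨((1 / √I : ℝ) : ℂ) • g, ?_⟩
  have : ∀ s, ‖(((1 / √I : ℝ) : ℂ) • g) s‖ ^ 2 = 1 / I * ‖g s‖ ^ 2 := by
    intro s
    rw [smul_apply, norm_smul, mul_pow, Complex.norm_real, Real.norm_eq_abs, sq_abs,
      div_pow, Real.sq_sqrt hpos.le]
    simp
  simp_rw [this]
  rw [integral_const_mul, ← hI]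
  field_simp

variable {A p q δ : ℝ} {k : ℕ}

lemma isWeight_sq {A : ℝ} {N : ℕ} {f : ℝ → ℝ} (hA : 0 < A) (hc : Continuous f) (h0 : ∀ x, 0 ≤ f x)
    (hr : ∀ x t, f x ≤ (1 + |x - t| / A) ^ N * f t) : IsWeight A (2 * N) (fun x => f x ^ 2) where
  cont := hc.pow 2
  nonneg x := by positivity
  ratio x t := by
    have h1 := pow_le_pow_left₀ (h0 x) (hr x t) 2
    rw [mul_pow, ← pow_mul] at h1
    rwa [mul_comm 2 N]

lemma ww_le_WW (hA : 0 < A) (hp : 1 ≤ p) (hδ : 0 ≤ δ) (x : ℝ) :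
    ww A p δ k x ^ 2 ≤ A ^ (-(2 * (p - 1))) * WW A p δ k x ^ 2 := by
  have h1 := WW_eq (p := p) (δ := δ) (k := k) hA x
  have h2 : A ^ (p - 1) ≤ br A x ^ (p - 1) := Real.rpow_le_rpow hA.le (le_br x) (by linarith)
  have h3 := ww_pos (p := p) (k := k) hA hδ x
  have h4 : A ^ (p - 1) * ww A p δ k x ≤ WW A p δ k x := by
    rw [h1]; exact mul_le_mul_of_nonneg_right h2 h3.le
  have h5 : (A ^ (p - 1) * ww A p δ k x) ^ 2 ≤ WW A p δ k x ^ 2 :=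
    pow_le_pow_left₀ (by positivity) h4 2
  have h6 : A ^ (-(2 * (p - 1))) * (A ^ (p - 1)) ^ 2 = 1 := by
    rw [← Real.rpow_natCast, ← Real.rpow_mul hA.le, ← Real.rpow_add hA]
    norm_num
    ring_nf
    simp
  calc ww A p δ k x ^ 2 = (A ^ (-(2 * (p - 1))) * (A ^ (p - 1)) ^ 2) * ww A p δ k x ^ 2 := by
        rw [h6, one_mul]
    _ = A ^ (-(2 * (p - 1))) * (A ^ (p - 1) * ww A p δ k x) ^ 2 := by ring
    _ ≤ _ := by gcongr

/-- `∫ w² |g|²`. -/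
noncomputable def intw (A p δ : ℝ) (k : ℕ) (g : 𝓢(ℝ, ℂ)) : ℝ := ∫ t, ww A p δ k t ^ 2 * ‖g t‖ ^ 2

/-- `∫ W² |g|²`. -/
noncomputable def intW (A p δ : ℝ) (k : ℕ) (g : 𝓢(ℝ, ℂ)) : ℝ := ∫ t, WW A p δ k t ^ 2 * ‖g t‖ ^ 2

lemma isWeight_ww (hA : 1 ≤ A) (hp : 1 ≤ p) (hδ : 0 ≤ δ) {N : ℕ} (hN : p * (k + 1) ≤ N) :
    IsWeight A (2 * N) (fun x => ww A p δ k x ^ 2) :=
  have hA0 : 0 < A := by linarith
  isWeight_sq hA0 (continuous_ww hA0 hδ) (fun x => (ww_pos hA0 hδ x).le)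
    (fun x t => ww_ratio hA0 hp hδ hN x t)

lemma isWeight_WW (hA : 1 ≤ A) (hp : 1 ≤ p) (hδ : 0 ≤ δ) {N : ℕ} (hN : p * (k + 1) ≤ N) :
    IsWeight A (2 * N) (fun x => WW A p δ k x ^ 2) :=
  have hA0 : 0 < A := by linarith
  isWeight_sq hA0 (continuous_WW hA0 hδ) (fun x => (WW_pos hA0 hδ x).le)
    (fun x t => WW_ratio hA0 (by linarith) hδ hN x t)

lemma exists_nat_ge (p : ℝ) (k : ℕ) : ∃ N : ℕ, p * (k + 1) ≤ N := ⟨⌈p * (k + 1)⌉₊, Nat.le_ceil _⟩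

lemma integrable_ww (hA : 1 ≤ A) (hp : 1 ≤ p) (hδ : 0 ≤ δ) (g : 𝓢(ℝ, ℂ)) :
    Integrable (fun t => ww A p δ k t ^ 2 * ‖g t‖ ^ 2) := by
  obtain ⟨N, hN⟩ := exists_nat_ge p k
  exact (isWeight_ww hA hp hδ hN).integrable hA g

lemma integrable_WW (hA : 1 ≤ A) (hp : 1 ≤ p) (hδ : 0 ≤ δ) (g : 𝓢(ℝ, ℂ)) :
    Integrable (fun t => WW A p δ k t ^ 2 * ‖g t‖ ^ 2) := by
  obtain ⟨N, hN⟩ := exists_nat_ge p k
  exact (isWeight_WW hA hp hδ hN).integrable hA g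

lemma intw_nonneg (A p δ : ℝ) (k : ℕ) (g : 𝓢(ℝ, ℂ)) : 0 ≤ intw A p δ k g :=
  integral_nonneg fun t => by positivity

lemma intW_nonneg (A p δ : ℝ) (k : ℕ) (g : 𝓢(ℝ, ℂ)) : 0 ≤ intW A p δ k g :=
  integral_nonneg fun t => by positivity

lemma intw_le_intW (hA : 1 ≤ A) (hp : 1 ≤ p) (hδ : 0 ≤ δ) (g : 𝓢(ℝ, ℂ)) :
    intw A p δ k g ≤ A ^ (-(2 * (p - 1))) * intW A p δ k g := by
  have hA0 : 0 < A := by linarith
  unfold intw intW
  rw [← integral_const_mul]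
  refine integral_mono (integrable_ww hA hp hδ g) ((integrable_WW hA hp hδ g).const_mul _)
    fun t => ?_
  have := mul_le_mul_of_nonneg_right (ww_le_WW (p := p) (δ := δ) (k := k) hA0 hp hδ t)
    (by positivity : 0 ≤ ‖g t‖ ^ 2)
  calc _ ≤ _ := this
    _ = _ := by ring

/-- The phase space inequality: `‖w u'‖² + c ‖v û'‖² ≤ 4π² (1 + ε) (‖W u‖² + c ‖U û‖²)` for all
large `A`, uniformly in the truncation parameter `δ`. -/
theorem phase_ineq (hpq : p.HolderConjugate q) (k : ℕ) {ε : ℝ} (hε : 0 < ε) :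
    ∃ A₀ : ℝ, 1 ≤ A₀ ∧ ∀ A : ℝ, A₀ ≤ A → ∀ δ : ℝ, 0 ≤ δ → ∀ u : 𝓢(ℝ, ℂ),
      intw A p δ k (derS u) + p / q * intw A q δ k (derS (𝓕 u)) ≤
        4 * π ^ 2 * (1 + ε) * (intW A p δ k u + p / q * intW A q δ k (𝓕 u)) := by
  obtain ⟨φ, hφ⟩ := exists_window
  have hp : 1 < p := hpq.lt
  have hq : 1 < q := hpq.symm.lt
  have hp0 : 0 < p := by linarith
  have hq0 : 0 < q := by linarith
  obtain ⟨N₁, hN₁⟩ := exists_nat_ge p k
  obtain ⟨N₂, hN₂⟩ := exists_nat_ge q k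
  set N := max N₁ N₂ with hN
  have hpN : p * (k + 1) ≤ N := hN₁.trans (by exact_mod_cast le_max_left _ _)
  have hqN : q * (k + 1) ≤ N := hN₂.trans (by exact_mod_cast le_max_right _ _)
  set M := 2 * N with hM
  have hψ : ∫ s, ‖(𝓕⁻ φ) s‖ ^ 2 = 1 := by
    rw [isIso2_fourierInv.plancherel φ]; exact hφ
  set I₁ := mom M φ + mom M (𝓕⁻ φ) with hI₁
  set D₁ := (∫ s, ‖derS φ s‖ ^ 2) + mom M (derS φ) with hD₁
  set D₂ := (∫ s, ‖derS (𝓕⁻ φ) s‖ ^ 2) + mom M (derS (𝓕⁻ φ)) with hD₂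
  have hmφ := mom_nonneg M φ
  have hmψ := mom_nonneg M (𝓕⁻ φ)
  have hD₁0 : 0 ≤ D₁ := add_nonneg (integral_nonneg fun s => by positivity) (mom_nonneg _ _)
  have hD₂0 : 0 ≤ D₂ := add_nonneg (integral_nonneg fun s => by positivity) (mom_nonneg _ _)
  have hI₁0 : 0 ≤ I₁ := add_nonneg hmφ hmψ
  set η := ε / 2 with hη
  have hη0 : 0 < η := by positivity
  -- choice of `A₀`
  have t1 : Tendsto (fun A : ℝ => I₁ / A) atTop (𝓝 0) := tendsto_const_nhds.div_atTop tendsto_id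
  have t2 : Tendsto (fun A : ℝ => A ^ (-(2 * (p - 1)))) atTop (𝓝 0) :=
    tendsto_rpow_neg_atTop (by linarith)
  have t3 : Tendsto (fun A : ℝ => A ^ (-(2 * (q - 1)))) atTop (𝓝 0) :=
    tendsto_rpow_neg_atTop (by linarith)
  have t4 : Tendsto (fun A : ℝ => (1 + η) * (4 * π ^ 2) * (1 + I₁ / A) +
      (1 + 1 / η) * (D₁ * A ^ (-(2 * (p - 1))) + D₂ * A ^ (-(2 * (q - 1))))) atTop
      (𝓝 ((1 + η) * (4 * π ^ 2) * (1 + 0) + (1 + 1 / η) * (D₁ * 0 + D₂ * 0))) :=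
    ((t1.const_add 1).const_mul _).add (((t2.const_mul _).add (t3.const_mul _)).const_mul _)
  have t5 : Tendsto (fun A : ℝ => 4 * π ^ 2 * (1 + ε) * (1 - I₁ / A)) atTop
      (𝓝 (4 * π ^ 2 * (1 + ε) * (1 - 0))) := (t1.const_sub 1).const_mul _
  have hlt : (1 + η) * (4 * π ^ 2) * (1 + 0) + (1 + 1 / η) * (D₁ * 0 + D₂ * 0) <
      4 * π ^ 2 * (1 + ε) * (1 - 0) := by
    have : 0 < π ^ 2 := by positivity
    rw [hη]
    nlinarith
  have ev := (t4.eventually_lt t5 hlt).and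
    ((t1.eventually_lt (tendsto_const_nhds (x := (1 : ℝ))) zero_lt_one).and
      (eventually_ge_atTop (1 : ℝ)))
  obtain ⟨A₀, hA₀⟩ := eventually_atTop.1 ev
  refine ⟨max A₀ 1, le_max_right _ _, fun A hA δ hδ u => ?_⟩
  obtain ⟨hAa, hAb, hA1⟩ := hA₀ A ((le_max_left _ _).trans hA)
  have hA0 : 0 < A := by linarith
  have hc : 0 ≤ p / q := by positivity
  have key := window_ineq (A := A) (M := M) hA1 u φ (isWeight_ww hA1 hp.le hδ hpN)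
    (isWeight_WW hA1 hp.le hδ hpN) (isWeight_ww hA1 hq.le hδ hqN)
    (isWeight_WW hA1 hq.le hδ hqN) hc (fun x ξ => symbol_ineq (k := k) hA0 hpq hδ x ξ) hη0
  rw [hφ, hψ] at key
  change (1 - mom M φ / A) * intw A p δ k (derS u) +
    p / q * ((1 - mom M (𝓕⁻ φ) / A) * intw A q δ k (derS (𝓕 u))) ≤
    (1 + η) * (4 * π ^ 2) * (((1 + mom M φ / A) * intW A p δ k u) +
      p / q * ((1 + mom M (𝓕⁻ φ) / A) * intW A q δ k (𝓕 u))) +
    (1 + 1 / η) * ((((∫ s, ‖derS φ s‖ ^ 2) + mom M (derS φ) / A) * intw A p δ k u) +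
      p / q * (((∫ s, ‖derS (𝓕⁻ φ) s‖ ^ 2) + mom M (derS (𝓕⁻ φ)) / A) *
        intw A q δ k (𝓕 u))) at key
  set P := intw A p δ k (derS u) with hP
  set Q := intw A q δ k (derS (𝓕 u)) with hQ
  set a := intW A p δ k u with ha
  set b := intW A q δ k (𝓕 u) with hb
  have hP0 : 0 ≤ P := intw_nonneg _ _ _ _ _
  have hQ0 : 0 ≤ Q := intw_nonneg _ _ _ _ _
  have ha0 : 0 ≤ a := intW_nonneg _ _ _ _ _
  have hb0 : 0 ≤ b := intW_nonneg _ _ _ _ _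
  have ha' : intw A p δ k u ≤ A ^ (-(2 * (p - 1))) * a := intw_le_intW hA1 hp.le hδ u
  have hb' : intw A q δ k (𝓕 u) ≤ A ^ (-(2 * (q - 1))) * b := intw_le_intW hA1 hq.le hδ (𝓕 u)
  have ha'0 := intw_nonneg A p δ k u
  have hb'0 := intw_nonneg A q δ k (𝓕 u)
  have hAp : 0 ≤ A ^ (-(2 * (p - 1))) := by positivity
  have hAq : 0 ≤ A ^ (-(2 * (q - 1))) := by positivity
  have e1 : mom M φ / A ≤ I₁ / A := by
    apply div_le_div_of_nonneg_right _ hA0.le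
    linarith
  have e2 : mom M (𝓕⁻ φ) / A ≤ I₁ / A := by
    apply div_le_div_of_nonneg_right _ hA0.le
    linarith
  have e3 : (∫ s, ‖derS φ s‖ ^ 2) + mom M (derS φ) / A ≤ D₁ := by
    have := div_le_self (mom_nonneg M (derS φ)) hA1
    linarith
  have e4 : (∫ s, ‖derS (𝓕⁻ φ) s‖ ^ 2) + mom M (derS (𝓕⁻ φ)) / A ≤ D₂ := by
    have := div_le_self (mom_nonneg M (derS (𝓕⁻ φ))) hA1
    linarith
  have lower : (1 - I₁ / A) * (P + p / q * Q) ≤ (1 - mom M φ / A) * P +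
      p / q * ((1 - mom M (𝓕⁻ φ) / A) * Q) := by
    have h1 : (1 - I₁ / A) * P ≤ (1 - mom M φ / A) * P := by gcongr
    have h2 : p / q * ((1 - I₁ / A) * Q) ≤ p / q * ((1 - mom M (𝓕⁻ φ) / A) * Q) := by gcongr
    calc _ = (1 - I₁ / A) * P + p / q * ((1 - I₁ / A) * Q) := by ring
      _ ≤ _ := add_le_add h1 h2
  have up1 : (1 + mom M φ / A) * a + p / q * ((1 + mom M (𝓕⁻ φ) / A) * b) ≤
      (1 + I₁ / A) * (a + p / q * b) := by
    calc _ ≤ (1 + I₁ / A) * a + p / q * ((1 + I₁ / A) * b) := by gcongr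
      _ = _ := by ring
  have up2 : (((∫ s, ‖derS φ s‖ ^ 2) + mom M (derS φ) / A) * intw A p δ k u) +
      p / q * (((∫ s, ‖derS (𝓕⁻ φ) s‖ ^ 2) + mom M (derS (𝓕⁻ φ)) / A) *
        intw A q δ k (𝓕 u)) ≤
      (D₁ * A ^ (-(2 * (p - 1))) + D₂ * A ^ (-(2 * (q - 1)))) * (a + p / q * b) := by
    calc _ ≤ D₁ * (A ^ (-(2 * (p - 1))) * a) + p / q * (D₂ * (A ^ (-(2 * (q - 1))) * b)) := by
          gcongr
      _ = (D₁ * A ^ (-(2 * (p - 1)))) * a + (D₂ * A ^ (-(2 * (q - 1)))) * (p / q * b) := by ring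
      _ ≤ (D₁ * A ^ (-(2 * (p - 1))) + D₂ * A ^ (-(2 * (q - 1)))) * a +
          (D₁ * A ^ (-(2 * (p - 1))) + D₂ * A ^ (-(2 * (q - 1)))) * (p / q * b) := by
          have h1 : 0 ≤ D₁ * A ^ (-(2 * (p - 1))) := by positivity
          have h2 : 0 ≤ D₂ * A ^ (-(2 * (q - 1))) := by positivity
          gcongr <;> linarith
      _ = _ := by ring
  have total : (1 - I₁ / A) * (P + p / q * Q) ≤
      ((1 + η) * (4 * π ^ 2) * (1 + I₁ / A) +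
      (1 + 1 / η) * (D₁ * A ^ (-(2 * (p - 1))) + D₂ * A ^ (-(2 * (q - 1))))) *
        (a + p / q * b) := by
    calc _ ≤ _ := lower
      _ ≤ _ := key
      _ ≤ (1 + η) * (4 * π ^ 2) * ((1 + I₁ / A) * (a + p / q * b)) +
        (1 + 1 / η) * ((D₁ * A ^ (-(2 * (p - 1))) + D₂ * A ^ (-(2 * (q - 1)))) *
          (a + p / q * b)) := by gcongr
      _ = _ := by ring
  have hab : 0 ≤ a + p / q * b := by positivity
  have pos : 0 < 1 - I₁ / A := by linarith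
  have fin : (1 - I₁ / A) * (P + p / q * Q) ≤
      (1 - I₁ / A) * (4 * π ^ 2 * (1 + ε) * (a + p / q * b)) := by
    calc _ ≤ _ := total
      _ ≤ (4 * π ^ 2 * (1 + ε) * (1 - I₁ / A)) * (a + p / q * b) :=
          mul_le_mul_of_nonneg_right hAa.le hab
      _ = _ := by ring
  exact le_of_mul_le_mul_left fin pos

end Pool.Agent.Lib.MP_f612df_an
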