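import Mathlib

/-!
# Weights

`br A x = √(A² + x²)`, the truncation `tau δ X = X / (1 + δ X)`, and the weights
`w = br · (tau (br^p))^k`, `W = br^p · (tau (br^p))^k`.
-/

open Real

namespace Pool.Agent.Lib.MP_f612df_an

/-- `√(A² + x²)`. -/
noncomputable def br (A x : ℝ) : ℝ := √(A ^ 2 + x ^ 2)

lemma br_pos {A : ℝ} (hA : 0 < A) (x : ℝ) : 0 < br A x := by
  unfold br; positivity

lemma le_br {A : ℝ} (x : ℝ) : A ≤ br A x := by
  unfold br
  exact Real.le_sqrt_of_sq_le (by nlinarith [sq_nonneg x])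

lemma abs_le_br (A x : ℝ) : |x| ≤ br A x := by
  unfold br
  exact Real.le_sqrt_of_sq_le (by rw [sq_abs]; nlinarith [sq_nonneg A])

lemma br_le {A : ℝ} (hA : 0 ≤ A) (x : ℝ) : br A x ≤ A + |x| := by
  unfold br
  rw [Real.sqrt_le_left (by positivity)]
  nlinarith [sq_abs x, abs_nonneg x, mul_nonneg hA (abs_nonneg x)]

lemma br_sq (A x : ℝ) : br A x ^ 2 = A ^ 2 + x ^ 2 := by
  unfold br; rw [Real.sq_sqrt (by positivity)]

lemma br_le_add {A : ℝ} (hA : 0 < A) (x t : ℝ) : br A x ≤ br A t + |x - t| := by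
  have h0 := br_pos hA t
  unfold br
  rw [Real.sqrt_le_left (by positivity)]
  have h1 : |t| ≤ √(A ^ 2 + t ^ 2) := abs_le_br A t
  have h2 : √(A ^ 2 + t ^ 2) ^ 2 = A ^ 2 + t ^ 2 := br_sq A t
  have h3 : x ^ 2 ≤ (|t| + |x - t|) ^ 2 := by
    rw [← sq_abs x]
    apply pow_le_pow_left₀ (abs_nonneg _)
    calc |x| = |t + (x - t)| := by ring_nf
      _ ≤ |t| + |x - t| := abs_add_le _ _
  have h4 : |t| * |x - t| ≤ √(A ^ 2 + t ^ 2) * |x - t| :=
    mul_le_mul_of_nonneg_right h1 (abs_nonneg _)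
  nlinarith [sq_abs t]

lemma br_ratio {A : ℝ} (hA : 0 < A) (x t : ℝ) : br A x ≤ (1 + |x - t| / A) * br A t := by
  have h1 := br_le_add hA x t
  have h2 := le_br (A := A) t
  have h3 : |x - t| ≤ |x - t| / A * br A t := by
    rw [div_mul_eq_mul_div, le_div_iff₀ hA]
    exact mul_le_mul_of_nonneg_left h2 (abs_nonneg _)
  linarith

lemma continuous_br (A : ℝ) : Continuous (br A) := by
  unfold br; fun_prop

lemma hasDerivAt_br {A : ℝ} (hA : 0 < A) (x : ℝ) : HasDerivAt (br A) (x / br A x) x := by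
  have h0 : A ^ 2 + x ^ 2 ≠ 0 := by positivity
  have h1 : HasDerivAt (fun x : ℝ => A ^ 2 + x ^ 2) (2 * x) x := by
    have := (hasDerivAt_pow 2 x).const_add (A ^ 2)
    simpa using this
  have h2 := h1.sqrt h0
  have : 2 * x / (2 * √(A ^ 2 + x ^ 2)) = x / br A x := by
    unfold br
    have : √(A ^ 2 + x ^ 2) ≠ 0 := by positivity
    field_simp
  rw [this] at h2
  exact h2

/-- The smooth truncation `X / (1 + δ X)`. -/
noncomputable def tau (δ X : ℝ) : ℝ := X / (1 + δ * X)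

lemma tau_nonneg {δ X : ℝ} (hδ : 0 ≤ δ) (hX : 0 ≤ X) : 0 ≤ tau δ X := by
  unfold tau; positivity

lemma tau_pos {δ X : ℝ} (hδ : 0 ≤ δ) (hX : 0 < X) : 0 < tau δ X := by
  unfold tau; positivity

lemma tau_mono {δ X Y : ℝ} (hδ : 0 ≤ δ) (hX : 0 ≤ X) (h : X ≤ Y) : tau δ X ≤ tau δ Y := by
  unfold tau
  have hY : 0 ≤ Y := hX.trans h
  rw [div_le_div_iff₀ (by positivity) (by positivity)]
  nlinarith

lemma tau_scale {δ X c : ℝ} (hδ : 0 ≤ δ) (hX : 0 ≤ X) (hc : 1 ≤ c) :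
    tau δ (c * X) ≤ c * tau δ X := by
  unfold tau
  rw [← mul_div_assoc, div_le_div_iff₀ (by positivity) (by positivity)]
  have h1 : 0 ≤ c * X * (δ * X) := by positivity
  nlinarith [mul_nonneg h1 (sub_nonneg.2 hc)]

lemma tau_le {δ X : ℝ} (hδ : 0 ≤ δ) (hX : 0 ≤ X) : tau δ X ≤ X := by
  unfold tau
  rw [div_le_iff₀ (by positivity)]
  nlinarith [mul_nonneg hX (mul_nonneg hδ hX)]

lemma tau_le_inv {δ X : ℝ} (hδ : 0 < δ) (hX : 0 ≤ X) : tau δ X ≤ 1 / δ := by
  unfold tau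
  rw [div_le_div_iff₀ (by positivity) hδ]
  nlinarith

lemma le_tau {δ X : ℝ} (hδ : 0 < δ) (hX : 1 / δ ≤ X) : 1 / (2 * δ) ≤ tau δ X := by
  have hX0 : 0 < X := lt_of_lt_of_le (by positivity) hX
  unfold tau
  rw [div_le_div_iff₀ (by positivity) (by positivity)]
  have : 1 ≤ δ * X := by
    rw [div_le_iff₀ hδ] at hX; linarith
  nlinarith

lemma hasDerivAt_tau {δ X : ℝ} (hδ : 0 ≤ δ) (hX : 0 ≤ X) :
    HasDerivAt (tau δ) (1 / (1 + δ * X) ^ 2) X := by
  have h0 : 1 + δ * X ≠ 0 := by positivity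
  have h1 : HasDerivAt (fun X : ℝ => 1 + δ * X) δ X := by
    simpa using ((hasDerivAt_id X).const_mul δ).const_add 1
  have h2 := (hasDerivAt_id X).div h1 h0
  convert! h2 using 1
  simp only [id]
  ring

/-- The weight `w = br · (tau (br^p))^k`. -/
noncomputable def ww (A p δ : ℝ) (k : ℕ) (x : ℝ) : ℝ := br A x * tau δ (br A x ^ p) ^ k

/-- The weight `W = br^p · (tau (br^p))^k`. -/
noncomputable def WW (A p δ : ℝ) (k : ℕ) (x : ℝ) : ℝ := br A x ^ p * tau δ (br A x ^ p) ^ k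

section

variable {A p q δ : ℝ} {k : ℕ}

lemma ww_pos (hA : 0 < A) (hδ : 0 ≤ δ) (x : ℝ) : 0 < ww A p δ k x := by
  have := br_pos hA x
  have h2 := tau_pos hδ (Real.rpow_pos_of_pos this p)
  unfold ww; positivity

lemma WW_pos (hA : 0 < A) (hδ : 0 ≤ δ) (x : ℝ) : 0 < WW A p δ k x := by
  have := br_pos hA x
  have h2 := tau_pos hδ (Real.rpow_pos_of_pos this p)
  unfold WW; positivity

lemma WW_eq (hA : 0 < A) (x : ℝ) : WW A p δ k x = br A x ^ (p - 1) * ww A p δ k x := by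
  have := br_pos hA x
  unfold WW ww
  rw [← mul_assoc, ← Real.rpow_add_one this.ne']
  ring_nf

lemma tau_br_ratio (hA : 0 < A) (hp : 0 ≤ p) (hδ : 0 ≤ δ) (x t : ℝ) :
    tau δ (br A x ^ p) ≤ (1 + |x - t| / A) ^ p * tau δ (br A t ^ p) := by
  have h1 := br_ratio hA x t
  have hx := br_pos hA x
  have ht := br_pos hA t
  have hc : 1 ≤ 1 + |x - t| / A := by
    have : 0 ≤ |x - t| / A := by positivity
    linarith
  have h2 : br A x ^ p ≤ (1 + |x - t| / A) ^ p * br A t ^ p := by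
    rw [← Real.mul_rpow (by linarith) ht.le]
    exact Real.rpow_le_rpow hx.le h1 hp
  calc tau δ (br A x ^ p) ≤ tau δ ((1 + |x - t| / A) ^ p * br A t ^ p) :=
        tau_mono hδ (by positivity) h2
    _ ≤ _ := tau_scale hδ (by positivity) (Real.one_le_rpow hc hp)

lemma rpow_pow_le_pow {c r : ℝ} {N : ℕ} (hc : 1 ≤ c) (h : r ≤ N) : c ^ r ≤ c ^ N := by
  rw [← Real.rpow_natCast]
  exact Real.rpow_le_rpow_of_exponent_le hc h

lemma WW_ratio (hA : 0 < A) (hp : 0 ≤ p) (hδ : 0 ≤ δ) {N : ℕ} (hN : p * (k + 1) ≤ N) (x t : ℝ) :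
    WW A p δ k x ≤ (1 + |x - t| / A) ^ N * WW A p δ k t := by
  have hx := br_pos hA x
  have ht := br_pos hA t
  have hc : 1 ≤ 1 + |x - t| / A := by
    have : 0 ≤ |x - t| / A := by positivity
    linarith
  have hc0 : 0 < 1 + |x - t| / A := by linarith
  have h1 := tau_br_ratio hA hp hδ x t
  have hT := (tau_pos hδ (Real.rpow_pos_of_pos hx p)).le
  have hT2 := (tau_pos hδ (Real.rpow_pos_of_pos ht p)).le
  have h2 : tau δ (br A x ^ p) ^ k ≤ ((1 + |x - t| / A) ^ p) ^ k * tau δ (br A t ^ p) ^ k := by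
    rw [← mul_pow]
    exact pow_le_pow_left₀ hT h1 k
  have h3 : br A x ^ p ≤ (1 + |x - t| / A) ^ p * br A t ^ p := by
    rw [← Real.mul_rpow (by linarith) ht.le]
    exact Real.rpow_le_rpow hx.le (br_ratio hA x t) hp
  unfold WW
  calc br A x ^ p * tau δ (br A x ^ p) ^ k
      ≤ ((1 + |x - t| / A) ^ p * br A t ^ p) *
        (((1 + |x - t| / A) ^ p) ^ k * tau δ (br A t ^ p) ^ k) :=
        mul_le_mul h3 h2 (by positivity) (by positivity)
    _ = (1 + |x - t| / A) ^ (p * (k + 1)) * (br A t ^ p * tau δ (br A t ^ p) ^ k) := by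
        rw [mul_add, mul_one, Real.rpow_add hc0, Real.rpow_mul hc0.le, Real.rpow_natCast]
        ring
    _ ≤ _ := by
        apply mul_le_mul_of_nonneg_right (rpow_pow_le_pow hc (by linarith))
        positivity

lemma ww_ratio (hA : 0 < A) (hp : 1 ≤ p) (hδ : 0 ≤ δ) {N : ℕ} (hN : p * (k + 1) ≤ N) (x t : ℝ) :
    ww A p δ k x ≤ (1 + |x - t| / A) ^ N * ww A p δ k t := by
  have hx := br_pos hA x
  have ht := br_pos hA t
  have hp0 : 0 ≤ p := by linarith
  have hc : 1 ≤ 1 + |x - t| / A := by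
    have : 0 ≤ |x - t| / A := by positivity
    linarith
  have hc0 : 0 < 1 + |x - t| / A := by linarith
  have h1 := tau_br_ratio hA hp0 hδ x t
  have hT := (tau_pos hδ (Real.rpow_pos_of_pos hx p)).le
  have hT2 := (tau_pos hδ (Real.rpow_pos_of_pos ht p)).le
  have h2 : tau δ (br A x ^ p) ^ k ≤ ((1 + |x - t| / A) ^ p) ^ k * tau δ (br A t ^ p) ^ k := by
    rw [← mul_pow]
    exact pow_le_pow_left₀ hT h1 k
  unfold ww
  calc br A x * tau δ (br A x ^ p) ^ k
      ≤ ((1 + |x - t| / A) * br A t) *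
        (((1 + |x - t| / A) ^ p) ^ k * tau δ (br A t ^ p) ^ k) :=
        mul_le_mul (br_ratio hA x t) h2 (by positivity) (by positivity)
    _ = (1 + |x - t| / A) ^ (p * k + 1) * (br A t * tau δ (br A t ^ p) ^ k) := by
        rw [Real.rpow_add_one hc0.ne', Real.rpow_mul hc0.le, Real.rpow_natCast]
        ring
    _ ≤ _ := by
        apply mul_le_mul_of_nonneg_right (rpow_pow_le_pow hc (by linarith))
        positivity

lemma continuous_ww (hA : 0 < A) (hδ : 0 ≤ δ) : Continuous (ww A p δ k) := by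
  unfold ww tau
  have h1 := continuous_br A
  have h2 : Continuous fun x => br A x ^ p :=
    h1.rpow_const fun x => Or.inl (br_pos hA x).ne'
  have h3 : ∀ x, 1 + δ * br A x ^ p ≠ 0 := fun x => by
    have := Real.rpow_pos_of_pos (br_pos hA x) p
    positivity
  exact h1.mul ((h2.div (continuous_const.add (continuous_const.mul h2)) h3).pow k)

lemma continuous_WW (hA : 0 < A) (hδ : 0 ≤ δ) : Continuous (WW A p δ k) := by
  unfold WW tau
  have h1 := continuous_br A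
  have h2 : Continuous fun x => br A x ^ p :=
    h1.rpow_const fun x => Or.inl (br_pos hA x).ne'
  have h3 : ∀ x, 1 + δ * br A x ^ p ≠ 0 := fun x => by
    have := Real.rpow_pos_of_pos (br_pos hA x) p
    positivity
  exact h2.mul ((h2.div (continuous_const.add (continuous_const.mul h2)) h3).pow k)

/-- The derivative of `ww`. -/
noncomputable def dww (A p δ : ℝ) (k : ℕ) (x : ℝ) : ℝ :=
  x / br A x * tau δ (br A x ^ p) ^ k * (1 + k * p / (1 + δ * br A x ^ p))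

lemma continuous_dww (hA : 0 < A) (hδ : 0 ≤ δ) : Continuous (dww A p δ k) := by
  unfold dww tau
  have h1 := continuous_br A
  have h2 : Continuous fun x => br A x ^ p :=
    h1.rpow_const fun x => Or.inl (br_pos hA x).ne'
  have h3 : ∀ x, 1 + δ * br A x ^ p ≠ 0 := fun x => by
    have := Real.rpow_pos_of_pos (br_pos hA x) p
    positivity
  have h4 := continuous_const (y := (1 : ℝ)) |>.add (continuous_const (y := δ) |>.mul h2)
  exact ((continuous_id.div h1 fun x => (br_pos hA x).ne').mul ((h2.div h4 h3).pow k)).mul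
    (continuous_const.add (continuous_const.div h4 h3))

lemma hasDerivAt_ww (hA : 0 < A) (hδ : 0 ≤ δ) (x : ℝ) :
    HasDerivAt (ww A p δ k) (dww A p δ k x) x := by
  have hb := br_pos hA x
  have hX := Real.rpow_pos_of_pos hb p
  have h1 := hasDerivAt_br hA x
  have h2 : HasDerivAt (fun x => br A x ^ p) (x / br A x * p * br A x ^ (p - 1)) x :=
    h1.rpow_const (Or.inl hb.ne')
  have h3 : HasDerivAt (fun x => tau δ (br A x ^ p))
      (1 / (1 + δ * br A x ^ p) ^ 2 * (x / br A x * p * br A x ^ (p - 1))) x :=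
    HasDerivAt.comp (h₂ := tau δ) (h := fun x => br A x ^ p) x (hasDerivAt_tau hδ hX.le) h2
  have h4 := h1.fun_mul (h3.fun_pow k)
  refine h4.congr_deriv ?_
  unfold dww
  rcases k with _ | k
  · simp
  · have h5 : br A x ^ (p - 1) = br A x ^ p / br A x := by
      rw [Real.rpow_sub_one hb.ne']
    rw [h5]
    have h6 : 1 + δ * br A x ^ p ≠ 0 := by positivity
    simp only [Nat.add_sub_cancel]
    have h7 : tau δ (br A x ^ p) ^ (k + 1) =
        tau δ (br A x ^ p) ^ k * (br A x ^ p / (1 + δ * br A x ^ p)) := by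
      rw [pow_succ]; rfl
    simp only [h7]
    push_cast
    field_simp

lemma abs_dww_le (hA : 0 < A) (hp : 0 ≤ p) (hδ : 0 ≤ δ) (x : ℝ) :
    |dww A p δ k x| ≤ (1 + k * p) * (ww A p δ k x / br A x) := by
  have hb := br_pos hA x
  have hX := Real.rpow_pos_of_pos hb p
  have hT := (tau_pos hδ hX).le
  have e1 : ww A p δ k x / br A x = tau δ (br A x ^ p) ^ k := by
    unfold ww; field_simp
  rw [e1]
  unfold dww
  rw [abs_mul, abs_mul, abs_div, abs_of_pos hb, abs_of_nonneg (pow_nonneg hT k)]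
  have h1 : |x| / br A x ≤ 1 := by rw [div_le_one hb]; exact abs_le_br A x
  have h3 : (k : ℝ) * p / (1 + δ * br A x ^ p) ≤ k * p := by
    apply div_le_self (by positivity)
    have : 0 ≤ δ * br A x ^ p := by positivity
    linarith
  have h2 : |1 + k * p / (1 + δ * br A x ^ p)| ≤ 1 + k * p := by
    rw [abs_of_nonneg (by positivity)]
    linarith
  calc |x| / br A x * tau δ (br A x ^ p) ^ k * |1 + k * p / (1 + δ * br A x ^ p)|
      ≤ 1 * tau δ (br A x ^ p) ^ k * (1 + k * p) := by gcongr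
    _ = _ := by ring

/-- The Chebyshev-type core of the symbol inequality. -/
lemma cheb_core {p q a b X Y m n x ξ : ℝ} (hpq : p.HolderConjugate q) (hX : 0 ≤ X) (hY : 0 ≤ Y)
    (hm : 0 ≤ m) (hn : 0 ≤ n) (hx2 : x ^ 2 ≤ a ^ 2) (hξ2 : ξ ^ 2 ≤ b ^ 2)
    (young : a ^ 2 * b ^ 2 ≤ X ^ 2 / p + Y ^ 2 / q) (h1 : X ≤ Y → m ≤ n) (h2 : Y ≤ X → n ≤ m) :
    (a * m) ^ 2 * ξ ^ 2 + p / q * (x ^ 2 * (b * n) ^ 2) ≤ (X * m) ^ 2 + p / q * (Y * n) ^ 2 := by
  have hp : 0 < p := hpq.pos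
  have hq : 0 < q := hpq.symm.pos
  have cheb : 0 ≤ (X ^ 2 - Y ^ 2) * (m ^ 2 - n ^ 2) := by
    rcases le_total X Y with h | h
    · have h1' : X ^ 2 ≤ Y ^ 2 := pow_le_pow_left₀ hX h 2
      have h3 : m ^ 2 ≤ n ^ 2 := pow_le_pow_left₀ hm (h1 h) 2
      nlinarith
    · have h1' : Y ^ 2 ≤ X ^ 2 := pow_le_pow_left₀ hY h 2
      have h3 : n ^ 2 ≤ m ^ 2 := pow_le_pow_left₀ hn (h2 h) 2
      nlinarith
  have hc : 1 / p + 1 / q = 1 := by
    have := hpq.inv_add_inv_eq_one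
    simpa [one_div] using this
  have step1 : (a * m) ^ 2 * ξ ^ 2 + p / q * (x ^ 2 * (b * n) ^ 2) ≤
      a ^ 2 * b ^ 2 * (m ^ 2 + p / q * n ^ 2) := by
    have h1 : (a * m) ^ 2 * ξ ^ 2 ≤ (a * m) ^ 2 * b ^ 2 := by gcongr
    have h2 : p / q * (x ^ 2 * (b * n) ^ 2) ≤ p / q * (a ^ 2 * (b * n) ^ 2) := by gcongr
    calc _ ≤ (a * m) ^ 2 * b ^ 2 + p / q * (a ^ 2 * (b * n) ^ 2) := add_le_add h1 h2
      _ = _ := by ring
  have step2 : a ^ 2 * b ^ 2 * (m ^ 2 + p / q * n ^ 2) ≤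
      (X ^ 2 / p + Y ^ 2 / q) * (m ^ 2 + p / q * n ^ 2) := by gcongr
  have step3 : (X * m) ^ 2 + p / q * (Y * n) ^ 2 -
      (X ^ 2 / p + Y ^ 2 / q) * (m ^ 2 + p / q * n ^ 2) =
      1 / q * ((X ^ 2 - Y ^ 2) * (m ^ 2 - n ^ 2)) := by
    have hp' : 1 / p = 1 - 1 / q := by linarith
    have e7 : p / q * (1 / p) = 1 / q := by field_simp
    have e8 : p / q * (1 / q) = p / q - 1 / q := by
      have : (1 / q : ℝ) = 1 - 1 / p := by linarith
      calc p / q * (1 / q) = p / q * (1 - 1 / p) := by rw [← this]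
        _ = p / q - p / q * (1 / p) := by ring
        _ = _ := by rw [e7]
    calc (X * m) ^ 2 + p / q * (Y * n) ^ 2 -
          (X ^ 2 / p + Y ^ 2 / q) * (m ^ 2 + p / q * n ^ 2)
        = X ^ 2 * m ^ 2 * (1 - 1 / p) + Y ^ 2 * n ^ 2 * (p / q - p / q * (1 / q))
          - X ^ 2 * n ^ 2 * (p / q * (1 / p)) - Y ^ 2 * m ^ 2 * (1 / q) := by ring
      _ = _ := by rw [e8, e7, hp']; ring
  have hq' : 0 ≤ 1 / q := by positivity
  have := mul_nonneg hq' cheb
  linarith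

/-- The symbol inequality. -/
lemma symbol_ineq (hA : 0 < A) (hpq : p.HolderConjugate q) (hδ : 0 ≤ δ) (x ξ : ℝ) :
    ww A p δ k x ^ 2 * ξ ^ 2 + p / q * (x ^ 2 * ww A q δ k ξ ^ 2) ≤
      WW A p δ k x ^ 2 + p / q * WW A q δ k ξ ^ 2 := by
  have hx := br_pos hA x
  have hξ := br_pos hA ξ
  have hX0 : 0 < br A x ^ p := Real.rpow_pos_of_pos hx p
  have hY0 : 0 < br A ξ ^ q := Real.rpow_pos_of_pos hξ q
  have hTX := tau_pos hδ hX0
  have hTY := tau_pos hδ hY0
  refine cheb_core hpq hX0.le hY0.le (pow_nonneg hTX.le k) (pow_nonneg hTY.le k) ?_ ?_ ?_ ?_ ?_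
  · rw [br_sq]; nlinarith [sq_nonneg A]
  · rw [br_sq]; nlinarith [sq_nonneg A]
  · have := Real.young_inequality_of_nonneg (a := br A x ^ 2) (b := br A ξ ^ 2) (by positivity)
      (by positivity) hpq
    have e5 : (br A x ^ 2) ^ p = (br A x ^ p) ^ 2 := by
      rw [← Real.rpow_natCast, ← Real.rpow_natCast, ← Real.rpow_mul hx.le,
        ← Real.rpow_mul hx.le, mul_comm]
    have e6 : (br A ξ ^ 2) ^ q = (br A ξ ^ q) ^ 2 := by
      rw [← Real.rpow_natCast, ← Real.rpow_natCast, ← Real.rpow_mul hξ.le,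
        ← Real.rpow_mul hξ.le, mul_comm]
    rw [e5, e6] at this
    exact this
  · intro h; exact pow_le_pow_left₀ hTX.le (tau_mono hδ hX0.le h) k
  · intro h; exact pow_le_pow_left₀ hTY.le (tau_mono hδ hY0.le h) k

end

end Pool.Agent.Lib.MP_f612df_an
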