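import Pool.Agent.Lib.MP_f612df_an.OneSide
import Pool.Agent.Lib.MP_f612df_an.Weights

/-!
# The phase space inequality
-/

open MeasureTheory Real
open scoped SchwartzMap FourierTransform ENNReal

namespace Pool.Agent.Lib.MP_f612df_an

/-- The squared modulus of the window transform. -/
noncomputable def NN (u φ : 𝓢(ℝ, ℂ)) (x ξ : ℝ) : ℝ := ‖𝓕 (prodS u (shiftS x φ)) ξ‖ ^ 2

lemma NN_nonneg (u φ : 𝓢(ℝ, ℂ)) (x ξ : ℝ) : 0 ≤ NN u φ x ξ := by unfold NN; positivity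

lemma measurable_NN (u φ : 𝓢(ℝ, ℂ)) : Measurable (Function.uncurry (NN u φ)) := by
  have h1 : StronglyMeasurable (fun z : ℝ × ℝ => ∫ t, ec (-(t * z.2)) * (u t * φ (t - z.1))) := by
    have hu := u.continuous
    have hφ := φ.continuous
    have he := continuous_ec
    have : Continuous (fun y : (ℝ × ℝ) × ℝ => ec (-(y.2 * y.1.2)) * (u y.2 * φ (y.2 - y.1.1))) := by
      fun_prop
    exact this.stronglyMeasurable.integral_prod_right'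
  have h2 : Function.uncurry (NN u φ) =
      fun z : ℝ × ℝ => ‖∫ t, ec (-(t * z.2)) * (u t * φ (t - z.1))‖ ^ 2 := by
    ext ⟨x, ξ⟩
    simp only [Function.uncurry_apply_pair, NN]
    rw [SchwartzMap.fourier_coe, Real.fourier_real_eq]
    simp only [smul_eq_ec, prodS_apply, shiftS_apply]
  rw [h2]
  exact h1.measurable.norm.pow_const 2

lemma phase_compare (u φ : 𝓢(ℝ, ℂ)) {F₁ F₂ G₁ G₂ : ℝ → ℝ} (hF₁ : Continuous F₁)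
    (hF₂ : Continuous F₂) (hG₁ : Continuous G₁) (hG₂ : Continuous G₂)
    (pF₁ : ∀ x, 0 ≤ F₁ x) (pF₂ : ∀ x, 0 ≤ F₂ x) (pG₁ : ∀ x, 0 ≤ G₁ x) (pG₂ : ∀ x, 0 ≤ G₂ x)
    {c : ℝ} (hc : 0 ≤ c)
    (h : ∀ x ξ, F₁ x * ξ ^ 2 + c * (x ^ 2 * G₁ ξ) ≤ F₂ x + c * G₂ ξ) :
    (∫⁻ x, ∫⁻ ξ, ENNReal.ofReal (F₁ x * (ξ ^ 2 * NN u φ x ξ))) +
      ENNReal.ofReal c * (∫⁻ ξ, ∫⁻ x, ENNReal.ofReal (G₁ ξ * (x ^ 2 * NN u φ x ξ))) ≤
    (∫⁻ x, ∫⁻ ξ, ENNReal.ofReal (F₂ x * NN u φ x ξ)) +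
      ENNReal.ofReal c * (∫⁻ ξ, ∫⁻ x, ENNReal.ofReal (G₂ ξ * NN u φ x ξ)) := by
  have hN := measurable_NN u φ
  have m1 : Measurable (Function.uncurry fun x ξ : ℝ =>
      ENNReal.ofReal (F₁ x * (ξ ^ 2 * NN u φ x ξ))) := by
    apply Measurable.ennreal_ofReal
    exact (hF₁.measurable.comp measurable_fst).mul ((measurable_snd.pow_const 2).mul hN)
  have m2 : Measurable (Function.uncurry fun x ξ : ℝ =>
      ENNReal.ofReal (F₂ x * NN u φ x ξ)) := by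
    apply Measurable.ennreal_ofReal
    exact (hF₂.measurable.comp measurable_fst).mul hN
  have m3 : Measurable (Function.uncurry fun x ξ : ℝ =>
      ENNReal.ofReal (G₁ ξ * (x ^ 2 * NN u φ x ξ))) := by
    apply Measurable.ennreal_ofReal
    exact (hG₁.measurable.comp measurable_snd).mul ((measurable_fst.pow_const 2).mul hN)
  have m4 : Measurable (Function.uncurry fun x ξ : ℝ =>
      ENNReal.ofReal (G₂ ξ * NN u φ x ξ)) := by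
    apply Measurable.ennreal_ofReal
    exact (hG₂.measurable.comp measurable_snd).mul hN
  have s1 : (∫⁻ ξ, ∫⁻ x, ENNReal.ofReal (G₁ ξ * (x ^ 2 * NN u φ x ξ))) =
      ∫⁻ x, ∫⁻ ξ, ENNReal.ofReal (G₁ ξ * (x ^ 2 * NN u φ x ξ)) :=
    (lintegral_lintegral_swap m3.aemeasurable).symm
  have s2 : (∫⁻ ξ, ∫⁻ x, ENNReal.ofReal (G₂ ξ * NN u φ x ξ)) =
      ∫⁻ x, ∫⁻ ξ, ENNReal.ofReal (G₂ ξ * NN u φ x ξ) :=
    (lintegral_lintegral_swap m4.aemeasurable).symm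
  rw [s1, s2, ← lintegral_const_mul' _ _ ENNReal.ofReal_ne_top,
    ← lintegral_const_mul' _ _ ENNReal.ofReal_ne_top,
    ← lintegral_add_left m1.lintegral_prod_right, ← lintegral_add_left m2.lintegral_prod_right]
  refine lintegral_mono fun x => ?_
  have m1x : Measurable fun ξ => ENNReal.ofReal (F₁ x * (ξ ^ 2 * NN u φ x ξ)) :=
    m1.comp measurable_prodMk_left
  have m2x : Measurable fun ξ => ENNReal.ofReal (F₂ x * NN u φ x ξ) :=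
    m2.comp measurable_prodMk_left
  rw [← lintegral_const_mul' _ _ ENNReal.ofReal_ne_top,
    ← lintegral_const_mul' _ _ ENNReal.ofReal_ne_top,
    ← lintegral_add_left m1x, ← lintegral_add_left m2x]
  refine lintegral_mono fun ξ => ?_
  have p1 := pF₁ x
  have p2 := pF₂ x
  have p3 := pG₁ ξ
  have p4 := pG₂ ξ
  have p5 := NN_nonneg u φ x ξ
  rw [← ENNReal.ofReal_mul hc, ← ENNReal.ofReal_mul hc,
    ← ENNReal.ofReal_add (by positivity) (by positivity),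
    ← ENNReal.ofReal_add (by positivity) (by positivity)]
  apply ENNReal.ofReal_le_ofReal
  calc F₁ x * (ξ ^ 2 * NN u φ x ξ) + c * (G₁ ξ * (x ^ 2 * NN u φ x ξ))
      = (F₁ x * ξ ^ 2 + c * (x ^ 2 * G₁ ξ)) * NN u φ x ξ := by ring
    _ ≤ (F₂ x + c * G₂ ξ) * NN u φ x ξ := mul_le_mul_of_nonneg_right (h x ξ) p5
    _ = _ := by ring

/-- The phase space inequality in integrated form. -/
theorem window_ineq {A : ℝ} {M : ℕ} (hA : 1 ≤ A) (u φ : 𝓢(ℝ, ℂ)) {F₁ F₂ G₁ G₂ : ℝ → ℝ}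
    (hF₁ : IsWeight A M F₁) (hF₂ : IsWeight A M F₂) (hG₁ : IsWeight A M G₁)
    (hG₂ : IsWeight A M G₂) {c : ℝ} (hc : 0 ≤ c)
    (h : ∀ x ξ, F₁ x * ξ ^ 2 + c * (x ^ 2 * G₁ ξ) ≤ F₂ x + c * G₂ ξ) {η : ℝ} (hη : 0 < η) :
    ((∫ s, ‖φ s‖ ^ 2) - mom M φ / A) * (∫ t, F₁ t * ‖derS u t‖ ^ 2) +
      c * (((∫ s, ‖(𝓕⁻ φ) s‖ ^ 2) - mom M (𝓕⁻ φ) / A) * (∫ t, G₁ t * ‖derS (𝓕 u) t‖ ^ 2)) ≤
    (1 + η) * (4 * π ^ 2) *
      ((((∫ s, ‖φ s‖ ^ 2) + mom M φ / A) * ∫ t, F₂ t * ‖u t‖ ^ 2) +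
      c * (((∫ s, ‖(𝓕⁻ φ) s‖ ^ 2) + mom M (𝓕⁻ φ) / A) * ∫ t, G₂ t * ‖(𝓕 u) t‖ ^ 2)) +
    (1 + 1 / η) * ((((∫ s, ‖derS φ s‖ ^ 2) + mom M (derS φ) / A) * ∫ t, F₁ t * ‖u t‖ ^ 2) +
      c * (((∫ s, ‖derS (𝓕⁻ φ) s‖ ^ 2) + mom M (derS (𝓕⁻ φ)) / A) *
        ∫ t, G₁ t * ‖(𝓕 u) t‖ ^ 2)) := by
  have hA0 : 0 < A := by linarith
  -- one sided estimates
  have x1 := oneSide_lower isIso2_fourier hF₁ hA u φ hη
  have x2 := oneSide_upper isIso2_fourier hF₂ hA u φ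
  have y1 := oneSide_lower isIso2_fourierInv hG₁ hA (𝓕 u) (𝓕⁻ φ) hη
  have y2 := oneSide_upper isIso2_fourierInv hG₂ hA (𝓕 u) (𝓕⁻ φ)
  simp only [stft_dual u φ] at y1 y2
  change _ ≤ _ * (∫⁻ x, ∫⁻ ξ, ENNReal.ofReal (F₁ x * (ξ ^ 2 * NN u φ x ξ))) + _ at x1
  change (∫⁻ x, ∫⁻ ξ, ENNReal.ofReal (F₂ x * NN u φ x ξ)) ≤ _ at x2
  change _ ≤ _ * (∫⁻ ξ, ∫⁻ x, ENNReal.ofReal (G₁ ξ * (x ^ 2 * NN u φ x ξ))) + _ at y1
  change (∫⁻ ξ, ∫⁻ x, ENNReal.ofReal (G₂ ξ * NN u φ x ξ)) ≤ _ at y2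
  have hcmp := phase_compare u φ hF₁.cont hF₂.cont hG₁.cont hG₂.cont hF₁.nonneg hF₂.nonneg
    hG₁.nonneg hG₂.nonneg hc h
  set X₁ := ∫⁻ x, ∫⁻ ξ, ENNReal.ofReal (F₁ x * (ξ ^ 2 * NN u φ x ξ)) with hX₁
  set X₂ := ∫⁻ x, ∫⁻ ξ, ENNReal.ofReal (F₂ x * NN u φ x ξ) with hX₂
  set Y₁ := ∫⁻ ξ, ∫⁻ x, ENNReal.ofReal (G₁ ξ * (x ^ 2 * NN u φ x ξ)) with hY₁
  set Y₂ := ∫⁻ ξ, ∫⁻ x, ENNReal.ofReal (G₂ ξ * NN u φ x ξ) with hY₂
  set PP := ((∫ s, ‖φ s‖ ^ 2) - mom M φ / A) * (∫ t, F₁ t * ‖derS u t‖ ^ 2) with hPP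
  set QQ := ((∫ s, ‖(𝓕⁻ φ) s‖ ^ 2) - mom M (𝓕⁻ φ) / A) * (∫ t, G₁ t * ‖derS (𝓕 u) t‖ ^ 2) with hQQ
  set aa := ((∫ s, ‖φ s‖ ^ 2) + mom M φ / A) * ∫ t, F₂ t * ‖u t‖ ^ 2 with haa
  set bb := ((∫ s, ‖(𝓕⁻ φ) s‖ ^ 2) + mom M (𝓕⁻ φ) / A) * ∫ t, G₂ t * ‖(𝓕 u) t‖ ^ 2 with hbb
  set a' := ((∫ s, ‖derS φ s‖ ^ 2) + mom M (derS φ) / A) * ∫ t, F₁ t * ‖u t‖ ^ 2 with ha'
  set b' := ((∫ s, ‖derS (𝓕⁻ φ) s‖ ^ 2) + mom M (derS (𝓕⁻ φ)) / A) *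
    ∫ t, G₁ t * ‖(𝓕 u) t‖ ^ 2 with hb'
  have nn : ∀ (f : ℝ → ℝ) (hf : IsWeight A M f) (g h : 𝓢(ℝ, ℂ)),
      0 ≤ ((∫ s, ‖g s‖ ^ 2) + mom M g / A) * ∫ t, f t * ‖h t‖ ^ 2 := by
    intro f hf g h
    apply mul_nonneg
    · exact add_nonneg (integral_nonneg fun s => by positivity)
        (div_nonneg (mom_nonneg M g) hA0.le)
    · exact integral_nonneg fun t => mul_nonneg (hf.nonneg t) (by positivity)
  have haa0 : 0 ≤ aa := nn F₂ hF₂ φ u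
  have hbb0 : 0 ≤ bb := nn G₂ hG₂ (𝓕⁻ φ) (𝓕 u)
  have ha'0 : 0 ≤ a' := nn F₁ hF₁ (derS φ) u
  have hb'0 : 0 ≤ b' := nn G₁ hG₁ (derS (𝓕⁻ φ)) (𝓕 u)
  have hη1 : 0 ≤ (1 + η) * (4 * π ^ 2) := by positivity
  have hη2 : 0 ≤ 1 + 1 / η := by positivity
  have main : ENNReal.ofReal (PP + c * QQ) ≤
      ENNReal.ofReal ((1 + η) * (4 * π ^ 2) * (aa + c * bb) + (1 + 1 / η) * (a' + c * b')) := by
    calc ENNReal.ofReal (PP + c * QQ) ≤ ENNReal.ofReal PP + ENNReal.ofReal (c * QQ) :=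
          ENNReal.ofReal_add_le
      _ = ENNReal.ofReal PP + ENNReal.ofReal c * ENNReal.ofReal QQ := by
          rw [ENNReal.ofReal_mul hc]
      _ ≤ (ENNReal.ofReal ((1 + η) * (4 * π ^ 2)) * X₁ + ENNReal.ofReal ((1 + 1 / η) * a')) +
          ENNReal.ofReal c *
          (ENNReal.ofReal ((1 + η) * (4 * π ^ 2)) * Y₁ + ENNReal.ofReal ((1 + 1 / η) * b')) := by
          gcongr
      _ = ENNReal.ofReal ((1 + η) * (4 * π ^ 2)) * (X₁ + ENNReal.ofReal c * Y₁) +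
          (ENNReal.ofReal ((1 + 1 / η) * a') +
            ENNReal.ofReal c * ENNReal.ofReal ((1 + 1 / η) * b')) := by ring
      _ ≤ ENNReal.ofReal ((1 + η) * (4 * π ^ 2)) * (X₂ + ENNReal.ofReal c * Y₂) +
          (ENNReal.ofReal ((1 + 1 / η) * a') +
            ENNReal.ofReal c * ENNReal.ofReal ((1 + 1 / η) * b')) := by gcongr
      _ ≤ ENNReal.ofReal ((1 + η) * (4 * π ^ 2)) *
          (ENNReal.ofReal aa + ENNReal.ofReal c * ENNReal.ofReal bb) +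
          (ENNReal.ofReal ((1 + 1 / η) * a') +
            ENNReal.ofReal c * ENNReal.ofReal ((1 + 1 / η) * b')) := by gcongr
      _ = _ := by
          rw [← ENNReal.ofReal_mul hc, ← ENNReal.ofReal_mul hc,
            ← ENNReal.ofReal_add (by positivity) (by positivity),
            ← ENNReal.ofReal_add (by positivity) (by positivity),
            ← ENNReal.ofReal_mul hη1, ← ENNReal.ofReal_add (by positivity) (by positivity)]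
          congr 1
          ring
  have hR : 0 ≤ (1 + η) * (4 * π ^ 2) * (aa + c * bb) + (1 + 1 / η) * (a' + c * b') := by
    positivity
  exact (ENNReal.ofReal_le_ofReal_iff hR).1 main

end Pool.Agent.Lib.MP_f612df_an
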