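import Pool.Agent.Lib.MP_f612df_an.Wirtinger

/-!
# The weighted Wirtinger inequality on the whole line
-/

open MeasureTheory Real Filter Topology Set
open scoped SchwartzMap FourierTransform ENNReal

namespace Pool.Agent.Lib.MP_f612df_an

lemma tendsto_atTop_of_abs {x : ℤ → ℝ} (hm : Monotone x)
    (hx : Tendsto (fun n => |x n|) cofinite atTop) : Tendsto x atTop atTop := by
  rw [Int.cofinite_eq] at hx
  have h1 : Tendsto (fun n => |x n|) atTop atTop := hx.mono_left le_sup_right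
  refine (tendsto_congr' ?_).1 h1
  filter_upwards [h1.eventually_gt_atTop |x 0|, eventually_ge_atTop 0] with n hn hn0
  have h2 := hm hn0
  apply abs_of_nonneg
  by_contra h
  push Not at h
  rw [abs_of_neg h] at hn
  have := neg_abs_le (x 0)
  linarith

lemma tendsto_atBot_of_abs {x : ℤ → ℝ} (hm : Monotone x)
    (hx : Tendsto (fun n => |x n|) cofinite atTop) : Tendsto x atBot atBot := by
  rw [Int.cofinite_eq] at hx
  have h1 : Tendsto (fun n => |x n|) atBot atTop := hx.mono_left le_sup_left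
  have h3 : Tendsto (fun n => -|x n|) atBot atBot := tendsto_neg_atTop_atBot.comp h1
  refine (tendsto_congr' ?_).1 h3
  filter_upwards [h1.eventually_gt_atTop |x 0|, eventually_le_atBot 0] with n hn hn0
  have h2 := hm hn0
  have h4 : x n ≤ 0 := by
    by_contra h
    push Not at h
    rw [abs_of_pos h] at hn
    have := le_abs_self (x 0)
    linarith
  rw [abs_of_nonpos h4, neg_neg]

lemma summable_inv_sq_int : Summable (fun n : ℤ => 1 / (1 + |(n : ℝ)|) ^ 2) := by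
  have h : Summable (fun n : ℕ => 1 / (1 + (n : ℝ)) ^ 2) := by
    have h0 := (summable_nat_add_iff 1).2 (Real.summable_one_div_nat_pow.2 one_lt_two)
    refine h0.congr fun n => ?_
    push_cast
    ring_nf
  apply Summable.of_nat_of_neg
  · refine h.congr fun n => ?_
    simp
  · refine h.congr fun n => ?_
    simp

lemma sum_range_le {c : ℝ} (hc : 0 ≤ c) (m : ℕ) :
    ∑ i ∈ Finset.range (2 * m), c / (1 + |((((i : ℤ) - m : ℤ)) : ℝ)|) ^ 2 ≤
      c * ∑' n : ℤ, 1 / (1 + |(n : ℝ)|) ^ 2 := by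
  have h1 : ∑ i ∈ Finset.range (2 * m), c / (1 + |((((i : ℤ) - m : ℤ)) : ℝ)|) ^ 2 =
      c * ∑ i ∈ Finset.range (2 * m), 1 / (1 + |((((i : ℤ) - m : ℤ)) : ℝ)|) ^ 2 := by
    rw [Finset.mul_sum]
    refine Finset.sum_congr rfl fun i _ => ?_
    ring
  rw [h1]
  apply mul_le_mul_of_nonneg_left _ hc
  have hinj : Function.Injective (fun i : ℕ => ((i : ℤ) - m : ℤ)) := by
    intro i j h
    simpa using h
  have h2 : ∑ i ∈ Finset.range (2 * m), 1 / (1 + |((((i : ℤ) - m : ℤ)) : ℝ)|) ^ 2 =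
      ∑ n ∈ (Finset.range (2 * m)).map ⟨_, hinj⟩, 1 / (1 + |(n : ℝ)|) ^ 2 := by
    rw [Finset.sum_map]
    rfl
  rw [h2]
  exact summable_inv_sq_int.sum_le_tsum _ fun n _ => by positivity

/-- Summing an inequality over all the intervals. -/
lemma sum_intervals {x : ℤ → ℝ} (ht : Tendsto x atTop atTop) (hb : Tendsto x atBot atBot)
    {F₀ F₁ : ℝ → ℝ} (h₀ : Integrable F₀) (h₁ : Integrable F₁) {c : ℝ} (hc : 0 ≤ c)
    (h : ∀ n : ℤ, ∫ s in (x n)..(x (n + 1)), F₀ s ≤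
      (∫ s in (x n)..(x (n + 1)), F₁ s) + c / (1 + |(n : ℝ)|) ^ 2) :
    ∫ s, F₀ s ≤ (∫ s, F₁ s) + c * ∑' n : ℤ, 1 / (1 + |(n : ℝ)|) ^ 2 := by
  have tb : Tendsto (fun m : ℕ => x (-(m : ℤ))) atTop atBot :=
    hb.comp (tendsto_neg_atTop_atBot.comp tendsto_natCast_atTop_atTop)
  have tt : Tendsto (fun m : ℕ => x (m : ℤ)) atTop atTop := ht.comp tendsto_natCast_atTop_atTop
  have l0 := intervalIntegral_tendsto_integral h₀ tb tt
  have l1 := (intervalIntegral_tendsto_integral h₁ tb tt).add_const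
    (c * ∑' n : ℤ, 1 / (1 + |(n : ℝ)|) ^ 2)
  refine le_of_tendsto_of_tendsto' l0 l1 fun m => ?_
  have key : ∀ F : ℝ → ℝ, Integrable F → ∫ s in (x (-(m : ℤ)))..(x (m : ℤ)), F s =
      ∑ i ∈ Finset.range (2 * m), ∫ s in (x ((i : ℤ) - m))..(x ((i : ℤ) - m + 1)), F s := by
    intro F hF
    have := intervalIntegral.sum_integral_adjacent_intervals (f := F) (μ := volume)
      (a := fun i : ℕ => x ((i : ℤ) - m)) (n := 2 * m)
      (fun i _ => hF.intervalIntegrable)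
    have e1 : x (((2 * m : ℕ) : ℤ) - m) = x (m : ℤ) := by congr 1; push_cast; ring
    have e2 : x (((0 : ℕ) : ℤ) - m) = x (-(m : ℤ)) := by congr 1; push_cast; ring
    rw [e1, e2] at this
    rw [← this]
    refine Finset.sum_congr rfl fun i _ => ?_
    congr 2
    push_cast
    ring
  rw [key F₀ h₀, key F₁ h₁]
  calc _ ≤ ∑ i ∈ Finset.range (2 * m), ((∫ s in (x ((i : ℤ) - m))..(x ((i : ℤ) - m + 1)), F₁ s) +
        c / (1 + |((((i : ℤ) - m : ℤ)) : ℝ)|) ^ 2) := Finset.sum_le_sum fun i _ => h _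
    _ = _ := Finset.sum_add_distrib
    _ ≤ _ := by gcongr; exact sum_range_le hc m

/-- All but finitely many gaps are short at every scale `A`. -/
lemma eventually_good {p θ₀ θ A : ℝ} {x : ℤ → ℝ} (hp : 1 < p) (hA : 0 < A) (hθ₀ : 0 < θ₀)
    (hθ : θ₀ < θ) (hθ₀1 : θ₀ < 1) (hx : Tendsto (fun n => |x n|) cofinite atTop)
    (hm : Monotone x)
    (hgap : ∀ᶠ n : ℤ in cofinite, |x n| ^ (p - 1) * |x (n + 1) - x n| ≤ θ₀ / 2) :
    ∀ᶠ n : ℤ in cofinite,
      max (br A (x n)) (br A (x (n + 1))) ^ (p - 1) * (x (n + 1) - x n) ≤ θ / 2 := by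
  -- choose `η`
  have hcont : Tendsto (fun η : ℝ => (1 + η) ^ (p - 1) * θ₀) (𝓝[>] 0) (𝓝 ((1 + 0) ^ (p - 1) * θ₀)) := by
    apply Tendsto.mono_left _ nhdsWithin_le_nhds
    apply Tendsto.mul_const
    apply Tendsto.rpow_const
    · exact tendsto_const_nhds.add tendsto_id
    · left; norm_num
  have hlt : (1 + 0 : ℝ) ^ (p - 1) * θ₀ < θ := by simpa using hθ
  obtain ⟨η, hη1, hη0⟩ := ((hcont.eventually (gt_mem_nhds hlt)).and self_mem_nhdsWithin).exists
  have hη0' : 0 < η := hη0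
  filter_upwards [hgap, hx.eventually_ge_atTop (max 1 ((A + 1) / η))] with n h1 h2
  have h3 : 1 ≤ |x n| := (le_max_left _ _).trans h2
  have h4 : (A + 1) / η ≤ |x n| := (le_max_right _ _).trans h2
  have hg0 : 0 ≤ x (n + 1) - x n := sub_nonneg.2 (hm (by linarith))
  rw [abs_of_nonneg hg0] at h1
  have h5 : x (n + 1) - x n ≤ 1 := by
    have : (1 : ℝ) ≤ |x n| ^ (p - 1) := Real.one_le_rpow h3 (by linarith)
    nlinarith
  have h6 : A + 1 ≤ η * |x n| := by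
    rw [div_le_iff₀ hη0'] at h4; linarith
  have b1 : br A (x n) ≤ (1 + η) * |x n| := by
    have := br_le hA.le (x n)
    linarith
  have b2 : br A (x (n + 1)) ≤ (1 + η) * |x n| := by
    have := br_le hA.le (x (n + 1))
    have h7 : |x (n + 1)| ≤ |x n| + 1 := by
      calc |x (n + 1)| = |x n + (x (n + 1) - x n)| := by ring_nf
        _ ≤ |x n| + |x (n + 1) - x n| := abs_add_le _ _
        _ ≤ |x n| + 1 := by rw [abs_of_nonneg hg0]; linarith
    linarith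
  have b3 : max (br A (x n)) (br A (x (n + 1))) ^ (p - 1) ≤ ((1 + η) * |x n|) ^ (p - 1) := by
    apply Real.rpow_le_rpow _ (max_le b1 b2) (by linarith)
    exact le_max_of_le_left (br_pos hA _).le
  calc max (br A (x n)) (br A (x (n + 1))) ^ (p - 1) * (x (n + 1) - x n)
      ≤ ((1 + η) * |x n|) ^ (p - 1) * (x (n + 1) - x n) := by gcongr
    _ = (1 + η) ^ (p - 1) * (|x n| ^ (p - 1) * (x (n + 1) - x n)) := by
        rw [Real.mul_rpow (by linarith) (abs_nonneg _)]; ring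
    _ ≤ (1 + η) ^ (p - 1) * (θ₀ / 2) := by gcongr
    _ ≤ θ / 2 := by linarith

/-- `W` is bounded, uniformly in `δ`, on bounded sets. -/
lemma WW_le_max {A p δ : ℝ} {k : ℕ} (hA : 0 < A) (hp : 0 ≤ p) (hδ : 0 ≤ δ) {a b s : ℝ}
    (hs : s ∈ Icc a b) : WW A p δ k s ≤ (max (br A a) (br A b) ^ p) ^ (k + 1) := by
  have h0 := br_pos hA s
  have h1 : br A s ^ p ≤ max (br A a) (br A b) ^ p := Real.rpow_le_rpow h0.le (br_le_max hs) hp
  have h2 : tau δ (br A s ^ p) ≤ br A s ^ p := tau_le hδ (by positivity)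
  have h3 := tau_nonneg hδ (Real.rpow_pos_of_pos h0 p).le
  unfold WW
  calc br A s ^ p * tau δ (br A s ^ p) ^ k ≤ br A s ^ p * (br A s ^ p) ^ k := by gcongr
    _ = (br A s ^ p) ^ (k + 1) := by ring
    _ ≤ _ := by gcongr

lemma final_alg {a P β α τ X : ℝ} (hβ : β < 1 / 2) (hα : α ≤ (1 - β) * τ) (hP : 0 ≤ P)
    (hX : 0 ≤ X) (h : a ≤ α * P + β * a + X) : a ≤ τ * P + 2 * X := by
  have h1 : α * P ≤ (1 - β) * τ * P := mul_le_mul_of_nonneg_right hα hP
  have h2 : (1 - β) * a ≤ (1 - β) * (τ * P + 2 * X) := by nlinarith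
  exact le_of_mul_le_mul_left h2 (by linarith)

/-- The weighted Wirtinger inequality on the whole line, for a supercritical sequence. -/
theorem side_ineq {p : ℝ} {x : ℤ → ℝ} (hp : 1 < p) (hm : Monotone x)
    (hx : Tendsto (fun n => |x n|) cofinite atTop)
    (hlim : limsup (fun n : ℤ => ((|x n| ^ (p - 1) * |x (n + 1) - x n| : ℝ) : EReal)) cofinite
      < ((1 / 2 : ℝ) : EReal)) :
    ∃ θ' : ℝ, 0 ≤ θ' ∧ θ' < 1 ∧ ∀ k : ℕ, ∃ A₁ : ℝ, 1 ≤ A₁ ∧ ∀ A : ℝ, A₁ ≤ A →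
      ∃ C : ℝ, 0 ≤ C ∧ ∀ δ : ℝ, 0 ≤ δ → ∀ (u : 𝓢(ℝ, ℂ)) (E : ℝ), 0 ≤ E →
      (∀ n : ℤ, (1 + |(n : ℝ)|) ^ 2 * (max (br A (x n)) (br A (x (n + 1))) ^ (p - 1) *
        ((ww A p δ k (x n) * ‖u (x n)‖) ^ 2 +
          (ww A p δ k (x (n + 1)) * ‖u (x (n + 1))‖) ^ 2)) ≤ E) →
      intW A p δ k u ≤ θ' / (4 * π ^ 2) * intw A p δ k (derS u) + C * (E + ∫ t, ‖u t‖ ^ 2) := by
  obtain ⟨r, hr1, hr2⟩ := EReal.lt_iff_exists_real_btwn.1 hlim
  have hr2' : r < 1 / 2 := by exact_mod_cast hr2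
  have ev0 := eventually_lt_of_limsup_lt hr1
  set θ₀ := max (2 * r) (1 / 2) with hθ₀
  have hθ₀0 : 0 < θ₀ := lt_of_lt_of_le (by norm_num) (le_max_right _ _)
  have hθ₀1 : θ₀ < 1 := max_lt (by linarith) (by norm_num)
  have hgap : ∀ᶠ n : ℤ in cofinite, |x n| ^ (p - 1) * |x (n + 1) - x n| ≤ θ₀ / 2 := by
    filter_upwards [ev0] with n hn
    have h1 : |x n| ^ (p - 1) * |x (n + 1) - x n| < r := by exact_mod_cast hn
    have h2 : 2 * r ≤ θ₀ := le_max_left _ _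
    linarith
  set θ := (2 * θ₀ + 1) / 3 with hθ
  set θ₁ := (θ₀ + 2) / 3 with hθ₁
  have h01 : θ₀ < θ := by rw [hθ]; linarith
  have h12 : θ < θ₁ := by rw [hθ, hθ₁]; linarith
  have h23 : θ₁ < 1 := by rw [hθ₁]; linarith
  have hθpos : 0 < θ := by linarith
  have hθ₁pos : 0 < θ₁ := by linarith
  have hρ1 : θ / θ₁ < 1 := by rw [div_lt_one hθ₁pos]; exact h12
  have hρ0 : 0 < θ / θ₁ := by positivity
  set ρ := θ / θ₁ with hρ
  have hρ2 : ρ ^ 2 < 1 := by nlinarith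
  have hρ20 : 0 < ρ ^ 2 := by positivity
  set θ' := (ρ ^ 2 + 1) / 2 with hθ'
  have hθ'1 : θ' < 1 := by rw [hθ']; linarith
  have hθ'0 : 0 ≤ θ' := by rw [hθ']; positivity
  have hθ'ρ : ρ ^ 2 < θ' := by rw [hθ']; linarith
  set ε := (θ' - ρ ^ 2) / (2 * ρ ^ 2) with hε
  have hε0 : 0 < ε := by
    have : 0 < θ' - ρ ^ 2 := by linarith
    positivity
  have hρε : ρ ^ 2 * (1 + ε) < θ' := by
    have : ρ ^ 2 * (1 + ε) = ρ ^ 2 + (θ' - ρ ^ 2) / 2 := by rw [hε]; field_simp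
    rw [this]; linarith
  refine ⟨θ', hθ'0, hθ'1, fun k => ?_⟩
  -- choice of `A₁`
  set B : ℝ → ℝ := fun A => ρ ^ 2 * (1 + 1 / ε) / (4 * π ^ 2) * ((1 + k * p) ^ 2 * A ^ (-(2 * p)))
    with hB
  have tB : Tendsto B atTop (𝓝 (ρ ^ 2 * (1 + 1 / ε) / (4 * π ^ 2) * ((1 + k * p) ^ 2 * 0))) :=
    ((tendsto_rpow_neg_atTop (by linarith)).const_mul _).const_mul _
  rw [mul_zero, mul_zero] at tB
  have t1 : Tendsto (fun A => θ' * (1 - B A)) atTop (𝓝 (θ' * (1 - 0))) :=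
    (tB.const_sub 1).const_mul _
  have ev1 := (t1.eventually (lt_mem_nhds (by simpa using hρε : ρ ^ 2 * (1 + ε) < θ' * (1 - 0)))).and
    ((tB.eventually (gt_mem_nhds (by norm_num : (0 : ℝ) < 1 / 2))).and
      (eventually_ge_atTop (1 : ℝ)))
  obtain ⟨A₁, hA₁⟩ := eventually_atTop.1 ev1
  refine ⟨max A₁ 1, le_max_right _ _, fun A hA => ?_⟩
  obtain ⟨hAa, hAb, hA1⟩ := hA₁ A ((le_max_left _ _).trans hA)
  have hA0 : 0 < A := by linarith
  have hB0 : 0 ≤ B A := by rw [hB]; positivity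
  have good := eventually_good hp hA0 hθ₀0 h01 hθ₀1 hx hm hgap
  -- bad intervals
  set bad : Set ℤ := {n | ¬ max (br A (x n)) (br A (x (n + 1))) ^ (p - 1) * (x (n + 1) - x n)
    ≤ θ / 2} with hbad
  have hfin : bad.Finite := good
  obtain ⟨Cb, hCb⟩ := (hfin.toFinset.image (fun n : ℤ =>
    ((max (br A (x n)) (br A (x (n + 1))) ^ p) ^ (k + 1)) ^ 2)).exists_le
  set Cb' := max Cb 0 with hCb'
  have hCb0 : 0 ≤ Cb' := le_max_right _ _
  set Ce := ρ / (2 * π) * tan (π * θ₁ / 2) with hCe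
  have htan : 0 ≤ tan (π * θ₁ / 2) := by
    apply tan_nonneg_of_nonneg_of_le_pi_div_two (by positivity)
    nlinarith [pi_pos]
  have hCe0 : 0 ≤ Ce := by rw [hCe]; positivity
  set S := ∑' n : ℤ, 1 / (1 + |(n : ℝ)|) ^ 2 with hS
  have hS0 : 0 ≤ S := tsum_nonneg fun n => by positivity
  refine ⟨2 * (Cb' + Ce * S), by positivity, fun δ hδ u E hE hEn => ?_⟩
  set α := ρ ^ 2 * (1 + ε) / (4 * π ^ 2) with hα
  have hα0 : 0 ≤ α := by rw [hα]; positivity
  have iW := integrable_WW (k := k) hA1 hp.le hδ u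
  have iw := integrable_ww (k := k) hA1 hp.le hδ (derS u)
  have iu := integrable_norm_sq u
  set F₁ : ℝ → ℝ := fun s => α * (ww A p δ k s ^ 2 * ‖derS u s‖ ^ 2) +
    B A * (WW A p δ k s ^ 2 * ‖u s‖ ^ 2) + Cb' * ‖u s‖ ^ 2 with hF₁
  have iF₁ : Integrable F₁ := ((iw.const_mul α).add (iW.const_mul (B A))).add (iu.const_mul Cb')
  have hF₁i : ∀ n : ℤ, ∫ s in (x n)..(x (n + 1)), F₁ s =
      α * (∫ s in (x n)..(x (n + 1)), ww A p δ k s ^ 2 * ‖derS u s‖ ^ 2) +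
      B A * (∫ s in (x n)..(x (n + 1)), WW A p δ k s ^ 2 * ‖u s‖ ^ 2) +
      Cb' * ∫ s in (x n)..(x (n + 1)), ‖u s‖ ^ 2 := by
    intro n
    rw [hF₁, intervalIntegral.integral_add
      ((iw.intervalIntegrable.const_mul α).add (iW.intervalIntegrable.const_mul (B A)))
      (iu.intervalIntegrable.const_mul Cb'),
      intervalIntegral.integral_add (iw.intervalIntegrable.const_mul α)
        (iW.intervalIntegrable.const_mul (B A)),
      intervalIntegral.integral_const_mul, intervalIntegral.integral_const_mul,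
      intervalIntegral.integral_const_mul]
  have hle : ∀ n : ℤ, x n ≤ x (n + 1) := fun n => hm (by linarith)
  have hmain : ∀ n : ℤ, ∫ s in (x n)..(x (n + 1)), WW A p δ k s ^ 2 * ‖u s‖ ^ 2 ≤
      (∫ s in (x n)..(x (n + 1)), F₁ s) + (Ce * E) / (1 + |(n : ℝ)|) ^ 2 := by
    intro n
    rw [hF₁i n]
    have n1 : 0 ≤ ∫ s in (x n)..(x (n + 1)), ww A p δ k s ^ 2 * ‖derS u s‖ ^ 2 :=
      intervalIntegral.integral_nonneg (hle n) fun s _ => by positivity
    have n2 : 0 ≤ ∫ s in (x n)..(x (n + 1)), WW A p δ k s ^ 2 * ‖u s‖ ^ 2 :=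
      intervalIntegral.integral_nonneg (hle n) fun s _ => by positivity
    have n3 : 0 ≤ ∫ s in (x n)..(x (n + 1)), ‖u s‖ ^ 2 :=
      intervalIntegral.integral_nonneg (hle n) fun s _ => by positivity
    have n4 : 0 ≤ Ce * E / (1 + |(n : ℝ)|) ^ 2 := by positivity
    by_cases hn : max (br A (x n)) (br A (x (n + 1))) ^ (p - 1) * (x (n + 1) - x n) ≤ θ / 2
    · have h1 := local_wirtinger (δ := δ) (k := k) hA1 hp.le hδ hθpos.le hθ₁pos h23 hε0 u
        (hle n) hn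
      have h2 : max (br A (x n)) (br A (x (n + 1))) ^ (p - 1) *
          ((ww A p δ k (x n) * ‖u (x n)‖) ^ 2 +
          (ww A p δ k (x (n + 1)) * ‖u (x (n + 1))‖) ^ 2) ≤ E / (1 + |(n : ℝ)|) ^ 2 := by
        rw [le_div_iff₀ (by positivity)]
        have := hEn n
        linarith
      have h3 := mul_le_mul_of_nonneg_left h2 hCe0
      have h4 : Ce * (E / (1 + |(n : ℝ)|) ^ 2) = Ce * E / (1 + |(n : ℝ)|) ^ 2 := by ring
      rw [h4] at h3
      have h5 : 0 ≤ Cb' * ∫ s in (x n)..(x (n + 1)), ‖u s‖ ^ 2 := by positivity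
      calc _ ≤ _ := h1
        _ ≤ _ := by linarith
    · have hmem : n ∈ hfin.toFinset := by
        rw [Set.Finite.mem_toFinset]; exact hn
      have h1 : ((max (br A (x n)) (br A (x (n + 1))) ^ p) ^ (k + 1)) ^ 2 ≤ Cb' :=
        (hCb _ (Finset.mem_image_of_mem _ hmem)).trans (le_max_left _ _)
      have h2 : ∫ s in (x n)..(x (n + 1)), WW A p δ k s ^ 2 * ‖u s‖ ^ 2 ≤
          Cb' * ∫ s in (x n)..(x (n + 1)), ‖u s‖ ^ 2 := by
        rw [← intervalIntegral.integral_const_mul]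
        refine intervalIntegral.integral_mono_on (hle n) iW.intervalIntegrable
          (iu.intervalIntegrable.const_mul _) fun s hs => ?_
        have h3 := WW_le_max (k := k) hA0 (by linarith : (0 : ℝ) ≤ p) hδ hs
        have h4 := pow_le_pow_left₀ (WW_pos (p := p) (k := k) hA0 hδ s).le h3 2
        have h5 := h4.trans h1
        gcongr
      have h6 : 0 ≤ α * ∫ s in (x n)..(x (n + 1)), ww A p δ k s ^ 2 * ‖derS u s‖ ^ 2 := by
        positivity
      have h7 : 0 ≤ B A * ∫ s in (x n)..(x (n + 1)), WW A p δ k s ^ 2 * ‖u s‖ ^ 2 := by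
        positivity
      linarith
  have hsum := sum_intervals (tendsto_atTop_of_abs hm hx) (tendsto_atBot_of_abs hm hx) iW iF₁
    (by positivity : 0 ≤ Ce * E) hmain
  have iF₁' : Integrable (fun s => α * (ww A p δ k s ^ 2 * ‖derS u s‖ ^ 2) +
    B A * (WW A p δ k s ^ 2 * ‖u s‖ ^ 2)) := (iw.const_mul α).add (iW.const_mul (B A))
  have hF₁t : ∫ s, F₁ s = α * intw A p δ k (derS u) + B A * intW A p δ k u +
      Cb' * ∫ t, ‖u t‖ ^ 2 := by
    calc ∫ s, F₁ s = (∫ s, (α * (ww A p δ k s ^ 2 * ‖derS u s‖ ^ 2) +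
        B A * (WW A p δ k s ^ 2 * ‖u s‖ ^ 2))) + ∫ s, Cb' * ‖u s‖ ^ 2 :=
          integral_add iF₁' (iu.const_mul Cb')
      _ = ((∫ s, α * (ww A p δ k s ^ 2 * ‖derS u s‖ ^ 2)) +
        ∫ s, B A * (WW A p δ k s ^ 2 * ‖u s‖ ^ 2)) + ∫ s, Cb' * ‖u s‖ ^ 2 := by
          rw [integral_add (iw.const_mul α) (iW.const_mul (B A))]
      _ = _ := by
          rw [integral_const_mul, integral_const_mul, integral_const_mul]
          rfl
  rw [hF₁t] at hsum
  change intW A p δ k u ≤ _ at hsum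
  have hP0 : 0 ≤ intw A p δ k (derS u) := intw_nonneg _ _ _ _ _
  have hu0 : 0 ≤ ∫ t, ‖u t‖ ^ 2 := integral_nonneg fun t => by positivity
  have hα1 : α ≤ (1 - B A) * (θ' / (4 * π ^ 2)) := by
    rw [hα, mul_div_assoc', div_le_div_iff_of_pos_right (by positivity)]
    linarith
  have hX : 0 ≤ (Cb' + Ce * S) * (E + ∫ t, ‖u t‖ ^ 2) := by positivity
  have h3 : Cb' * (∫ t, ‖u t‖ ^ 2) + Ce * E * S ≤ (Cb' + Ce * S) * (E + ∫ t, ‖u t‖ ^ 2) := by
    have h1 : 0 ≤ Cb' * E := by positivity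
    have h2 : 0 ≤ Ce * S * ∫ t, ‖u t‖ ^ 2 := by positivity
    calc _ ≤ Cb' * (∫ t, ‖u t‖ ^ 2) + Ce * E * S + (Cb' * E + Ce * S * ∫ t, ‖u t‖ ^ 2) := by
          linarith
      _ = _ := by ring
  have h4 : intW A p δ k u ≤ α * intw A p δ k (derS u) + B A * intW A p δ k u +
      (Cb' + Ce * S) * (E + ∫ t, ‖u t‖ ^ 2) := by
    calc intW A p δ k u ≤ _ := hsum
      _ = α * intw A p δ k (derS u) + B A * intW A p δ k u +
        (Cb' * (∫ t, ‖u t‖ ^ 2) + Ce * E * S) := by ring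
      _ ≤ _ := by gcongr
  have fin := final_alg hAb hα1 hP0 hX h4
  calc intW A p δ k u ≤ _ := fin
    _ = _ := by ring

end Pool.Agent.Lib.MP_f612df_an
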