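import Pool.Agent.Lib.MP_f612df_an.Synth
import Pool.Agent.Lib.MP_f612df_an.Defs

/-!
# The splitting argument
-/

open MeasureTheory Real Filter Topology Set
open scoped SchwartzMap FourierTransform ENNReal

namespace Pool.Agent.Lib.MP_f612df_an

/-! ### The space of rapidly decreasing sequences -/

namespace RapidSeq

lemma withSeminorms : WithSeminorms (seminorm : SeminormFamily ℂ RapidSeq ℕ) := ⟨rfl⟩

instance : IsTopologicalAddGroup RapidSeq := withSeminorms.topologicalAddGroup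

instance : ContinuousSMul ℂ RapidSeq := withSeminorms.continuousSMul

lemma le_seminorm (k : ℕ) (c : RapidSeq) (n : ℤ) :
    (1 + |(n : ℝ)|) ^ k * ‖c n‖ ≤ seminorm k c := le_ciSup (c.bddAbove k) n

lemma seminorm_le {k : ℕ} {c : RapidSeq} {B : ℝ}
    (h : ∀ n : ℤ, (1 + |(n : ℝ)|) ^ k * ‖c n‖ ≤ B) : seminorm k c ≤ B := ciSup_le h

lemma seminorm_mono {k l : ℕ} (h : k ≤ l) (c : RapidSeq) : seminorm k c ≤ seminorm l c := by
  apply seminorm_le
  intro n
  refine le_trans ?_ (le_seminorm l c n)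
  have := one_le_abs n
  gcongr

/-- Every continuous seminorm is dominated by one of the standard ones. -/
lemma exists_bound (q : Seminorm ℂ RapidSeq) (hq : Continuous q) :
    ∃ (C : ℝ) (m : ℕ), 0 ≤ C ∧ ∀ c, q c ≤ C * seminorm m c := by
  obtain ⟨s, C, -, hC⟩ := Seminorm.bound_of_continuous withSeminorms q hq
  refine ⟨C, s.sup id, C.2, fun c => ?_⟩
  have h1 : q c ≤ C * (s.sup seminorm) c := hC c
  refine h1.trans ?_
  have h2 : (s.sup seminorm) c ≤ seminorm (s.sup id) c := by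
    apply Seminorm.finset_sup_apply_le (apply_nonneg _ _)
    intro i hi
    exact seminorm_mono (Finset.le_sup (f := id) hi) c
  exact mul_le_mul_of_nonneg_left h2 C.2

lemma exists_bound_prod (q : Seminorm ℂ (RapidSeq × RapidSeq)) (hq : Continuous q) :
    ∃ (C : ℝ) (m : ℕ), 0 ≤ C ∧ ∀ c, q c ≤ C * (seminorm m c.1 + seminorm m c.2) := by
  obtain ⟨C₁, m₁, hC₁, h₁⟩ := exists_bound (q.comp (LinearMap.inl ℂ RapidSeq RapidSeq))
    (hq.comp (by fun_prop : Continuous fun c : RapidSeq => ((c, 0) : RapidSeq × RapidSeq)))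
  obtain ⟨C₂, m₂, hC₂, h₂⟩ := exists_bound (q.comp (LinearMap.inr ℂ RapidSeq RapidSeq))
    (hq.comp (by fun_prop : Continuous fun c : RapidSeq => ((0, c) : RapidSeq × RapidSeq)))
  refine ⟨max C₁ C₂, max m₁ m₂, le_max_of_le_left hC₁, fun c => ?_⟩
  have e1 : c = (c.1, 0) + (0, c.2) := by ext <;> simp
  have h3 : q (c.1, 0) ≤ C₁ * seminorm m₁ c.1 := h₁ c.1
  have h4 : q (0, c.2) ≤ C₂ * seminorm m₂ c.2 := h₂ c.2
  have h5 := seminorm_mono (le_max_left m₁ m₂) c.1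
  have h6 := seminorm_mono (le_max_right m₁ m₂) c.2
  have h7 := apply_nonneg (seminorm m₁) c.1
  have h8 := apply_nonneg (seminorm m₂) c.2
  calc q c = q ((c.1, 0) + (0, c.2)) := by rw [← e1]
    _ ≤ q (c.1, 0) + q (0, c.2) := map_add_le_add _ _ _
    _ ≤ C₁ * seminorm m₁ c.1 + C₂ * seminorm m₂ c.2 := add_le_add h3 h4
    _ ≤ max C₁ C₂ * seminorm (max m₁ m₂) c.1 + max C₁ C₂ * seminorm (max m₁ m₂) c.2 := by
        gcongr
        · exact le_max_left _ _
        · exact le_max_right _ _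
    _ = _ := by ring

/-- Weighted sup-seminorms. -/
noncomputable def wsem (ν : ℤ → ℝ) (h0 : ∀ n, 0 ≤ ν n) {C : ℝ} {m : ℕ}
    (hν : ∀ n : ℤ, ν n ≤ C * (1 + |(n : ℝ)|) ^ m) : Seminorm ℂ RapidSeq :=
  have hb : ∀ c : RapidSeq, BddAbove (Set.range fun n : ℤ => ν n * ‖c n‖) := by
    intro c
    obtain ⟨B, hB⟩ := c.bddAbove m
    have hC : 0 ≤ C := by
      have h1 := (h0 0).trans (hν 0)
      simpa using h1
    refine ⟨C * B, ?_⟩
    rintro _ ⟨n, rfl⟩
    have h1 := hB ⟨n, rfl⟩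
    calc ν n * ‖c n‖ ≤ (C * (1 + |(n : ℝ)|) ^ m) * ‖c n‖ := by gcongr; exact hν n
      _ = C * ((1 + |(n : ℝ)|) ^ m * ‖c n‖) := by ring
      _ ≤ C * B := mul_le_mul_of_nonneg_left h1 hC
  Seminorm.of (fun c => ⨆ n : ℤ, ν n * ‖c n‖)
    (by
      intro c d
      refine ciSup_le fun n => ?_
      calc ν n * ‖(c + d) n‖ ≤ ν n * (‖c n‖ + ‖d n‖) :=
            mul_le_mul_of_nonneg_left (norm_add_le _ _) (h0 n)
        _ = ν n * ‖c n‖ + ν n * ‖d n‖ := by ring
        _ ≤ _ := add_le_add (le_ciSup (hb c) n) (le_ciSup (hb d) n))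
    (by
      intro a c
      rw [Real.mul_iSup_of_nonneg (norm_nonneg a)]
      refine iSup_congr fun n => ?_
      rw [smul_apply, norm_mul]
      ring)

lemma le_wsem (ν : ℤ → ℝ) (h0 : ∀ n, 0 ≤ ν n) {C : ℝ} {m : ℕ}
    (hν : ∀ n : ℤ, ν n ≤ C * (1 + |(n : ℝ)|) ^ m) (c : RapidSeq) (n : ℤ) :
    ν n * ‖c n‖ ≤ wsem ν h0 hν c := by
  have hb : BddAbove (Set.range fun n : ℤ => ν n * ‖c n‖) := by
    obtain ⟨B, hB⟩ := c.bddAbove m
    have hC : 0 ≤ C := by
      have h1 := (h0 0).trans (hν 0)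
      simpa using h1
    refine ⟨C * B, ?_⟩
    rintro _ ⟨n, rfl⟩
    have h1 := hB ⟨n, rfl⟩
    calc ν n * ‖c n‖ ≤ (C * (1 + |(n : ℝ)|) ^ m) * ‖c n‖ := by gcongr; exact hν n
      _ = C * ((1 + |(n : ℝ)|) ^ m * ‖c n‖) := by ring
      _ ≤ C * B := mul_le_mul_of_nonneg_left h1 hC
  exact le_ciSup hb n

lemma wsem_le (ν : ℤ → ℝ) (h0 : ∀ n, 0 ≤ ν n) {C : ℝ} {m : ℕ}
    (hν : ∀ n : ℤ, ν n ≤ C * (1 + |(n : ℝ)|) ^ m) {D : ℝ} {i : ℕ} (hD0 : 0 ≤ D)
    (hD : ∀ n : ℤ, ν n ≤ D * (1 + |(n : ℝ)|) ^ i) (c : RapidSeq) :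
    wsem ν h0 hν c ≤ D * seminorm i c := by
  refine ciSup_le fun n => ?_
  calc ν n * ‖c n‖ ≤ (D * (1 + |(n : ℝ)|) ^ i) * ‖c n‖ := by gcongr; exact hD n
    _ = D * ((1 + |(n : ℝ)|) ^ i * ‖c n‖) := by ring
    _ ≤ D * seminorm i c := by gcongr; exact le_seminorm i c n

end RapidSeq

/-! ### Synthesis -/

/-- A sufficiently fast converging series of Schwartz functions defines a continuous operator. -/
theorem exists_synthesis {E : Type*} [AddCommGroup E] [Module ℂ E] [TopologicalSpace E]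
    [IsTopologicalAddGroup E] [ContinuousSMul ℂ E] {ι : Type*} (b : ι → 𝓢(ℝ, ℂ))
    (ℓ : ι → E →ₗ[ℂ] ℂ)
    (h : ∀ m n : ℕ, ∃ (v : ι → ℝ) (P : Seminorm ℂ E), Summable v ∧ Continuous P ∧
      ∀ j c, ‖ℓ j c‖ * SchwartzMap.seminorm ℂ m n (b j) ≤ v j * P c) :
    ∃ L : E →L[ℂ] 𝓢(ℝ, ℂ), (∀ c x, Summable fun j => ℓ j c * b j x) ∧
      ∀ c x, L c x = ∑' j, ℓ j c * b j x := by
  choose v P hv hP hb using h
  -- pointwise bounds for the derivatives
  have hd : ∀ (m n : ℕ) (j : ι) (c : E) (x : ℝ),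
      ‖x‖ ^ m * ‖iteratedFDeriv ℝ n (fun x => ℓ j c * b j x) x‖ ≤ v m n j * P m n c := by
    intro m n j c x
    have e1 : (fun x => ℓ j c * b j x) = fun x => (ℓ j c • b j) x := by ext x; simp
    have h1 := SchwartzMap.le_seminorm ℂ m n (ℓ j c • b j) x
    rw [e1]
    refine h1.trans ?_
    rw [map_smul_eq_mul]
    exact hb m n j c
  have hcd : ∀ (j : ι) (c : E), ContDiff ℝ (⊤ : ℕ∞) (fun x => ℓ j c * b j x) := by
    intro j c
    exact contDiff_const.mul ((b j).smooth ⊤)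
  have hd0 : ∀ (n : ℕ) (j : ι) (c : E) (x : ℝ),
      ‖iteratedFDeriv ℝ n (fun x => ℓ j c * b j x) x‖ ≤ v 0 n j * P 0 n c := by
    intro n j c x
    simpa using hd 0 n j c x
  have hsum0 : ∀ (n : ℕ) (c : E), Summable fun j => v 0 n j * P 0 n c :=
    fun n c => (hv 0 n).mul_right _
  have hsmooth : ∀ c : E, ContDiff ℝ (⊤ : ℕ∞) (fun x => ∑' j, ℓ j c * b j x) := by
    intro c
    exact contDiff_tsum (𝕜 := ℝ) (v := fun n j => v 0 n j * P 0 n c) (fun j => hcd j c)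
      (fun n _ => hsum0 n c) (fun n j x _ => hd0 n j c x)
  have hder : ∀ (c : E) (n : ℕ) (x : ℝ), iteratedFDeriv ℝ n (fun x => ∑' j, ℓ j c * b j x) x =
      ∑' j, iteratedFDeriv ℝ n (fun x => ℓ j c * b j x) x := by
    intro c n x
    exact iteratedFDeriv_tsum_apply (𝕜 := ℝ) (v := fun n j => v 0 n j * P 0 n c)
      (N := (⊤ : ℕ∞)) (fun j => hcd j c)
      (fun n _ => hsum0 n c) (fun n j x _ => hd0 n j c x) le_top x
  have hbound : ∀ (m n : ℕ) (c : E) (x : ℝ),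
      ‖x‖ ^ m * ‖iteratedFDeriv ℝ n (fun x => ∑' j, ℓ j c * b j x) x‖ ≤
        (∑' j, v m n j) * P m n c := by
    intro m n c x
    rw [hder c n x]
    have hs1 : Summable fun j => ‖iteratedFDeriv ℝ n (fun x => ℓ j c * b j x) x‖ :=
      Summable.of_nonneg_of_le (fun j => norm_nonneg _) (fun j => hd0 n j c x) (hsum0 n c)
    calc ‖x‖ ^ m * ‖∑' j, iteratedFDeriv ℝ n (fun x => ℓ j c * b j x) x‖
        ≤ ‖x‖ ^ m * ∑' j, ‖iteratedFDeriv ℝ n (fun x => ℓ j c * b j x) x‖ := by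
          gcongr
          exact norm_tsum_le_tsum_norm hs1
      _ = ∑' j, ‖x‖ ^ m * ‖iteratedFDeriv ℝ n (fun x => ℓ j c * b j x) x‖ := by
          rw [tsum_mul_left]
      _ ≤ ∑' j, v m n j * P m n c :=
          (hs1.mul_left _).tsum_le_tsum (fun j => hd m n j c x) ((hv m n).mul_right _)
      _ = _ := tsum_mul_right
  have hsumx : ∀ (c : E) (x : ℝ), Summable fun j => ℓ j c * b j x := by
    intro c x
    refine Summable.of_norm_bounded (hsum0 0 c) fun j => ?_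
    have := hd0 0 j c x
    simpa using this
  let Lf : E → 𝓢(ℝ, ℂ) := fun c =>
    { toFun := fun x => ∑' j, ℓ j c * b j x
      smooth' := hsmooth c
      decay' := fun m n => ⟨_, fun x => hbound m n c x⟩ }
  have hLf : ∀ c x, Lf c x = ∑' j, ℓ j c * b j x := fun c x => rfl
  let Ll : E →ₗ[ℂ] 𝓢(ℝ, ℂ) :=
    { toFun := Lf
      map_add' := by
        intro c d
        ext x
        rw [add_apply, hLf, hLf, hLf, ← (hsumx c x).tsum_add (hsumx d x)]
        congr 1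
        ext j
        rw [map_add, add_mul]
      map_smul' := by
        intro a c
        ext x
        rw [RingHom.id_apply, smul_apply, hLf, hLf, smul_eq_mul, ← tsum_mul_left]
        congr 1
        ext j
        rw [map_smul, smul_eq_mul, mul_assoc] }
  have hcont : Continuous Ll := by
    apply WithSeminorms.continuous_of_continuous_comp (schwartz_withSeminorms ℂ ℝ ℂ)
    rintro ⟨m, n⟩
    have hv0 : 0 ≤ ∑' j, v m n j ∨ ∑' j, v m n j < 0 := le_or_gt _ _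
    set S : NNReal := Real.toNNReal (∑' j, v m n j) with hS
    apply Seminorm.continuous_of_le (q := S • P m n)
    · have : Continuous fun c => (S : ℝ) * P m n c := continuous_const.mul (hP m n)
      exact this
    · intro c
      change SchwartzMap.seminorm ℂ m n (Lf c) ≤ (S : ℝ) * P m n c
      apply SchwartzMap.seminorm_le_bound ℂ m n _ (by positivity)
      intro x
      refine (hbound m n c x).trans ?_
      apply mul_le_mul_of_nonneg_right (Real.le_coe_toNNReal _) (apply_nonneg _ _)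
  exact ⟨⟨Ll, hcont⟩, hsumx, hLf⟩

/-! ### The `L²` bound from the embedding hypothesis -/

lemma l2_bound {x y : ℤ → ℝ} {R : 𝓢(ℝ, ℂ) →ₗ[ℂ] RapidSeq × RapidSeq}
    (hR : IsAnalysisOperator x y R) (hi : IsInducing R) :
    ∃ (C₀ : ℝ) (m₀ : ℕ), 0 ≤ C₀ ∧ ∀ (u : 𝓢(ℝ, ℂ)) (B : ℝ), 0 ≤ B →
      (∀ n : ℤ, (1 + |(n : ℝ)|) ^ m₀ * ‖u (x n)‖ ≤ B) →
      (∀ n : ℤ, (1 + |(n : ℝ)|) ^ m₀ * ‖(𝓕 u) (y n)‖ ≤ B) → ∫ t, ‖u t‖ ^ 2 ≤ C₀ * B ^ 2 := by
  set q : Seminorm ℂ 𝓢(ℝ, ℂ) := (Finset.Iic (1, 0)).sup (fun m => SchwartzMap.seminorm ℂ m.1 m.2)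
    with hq
  have hqc : Continuous q := by
    apply Seminorm.continuous_of_le (q := ∑ i ∈ Finset.Iic ((1, 0) : ℕ × ℕ),
      SchwartzMap.seminorm ℂ i.1 i.2)
    · have : Continuous fun u : 𝓢(ℝ, ℂ) => ∑ i ∈ Finset.Iic ((1, 0) : ℕ × ℕ),
          SchwartzMap.seminorm ℂ i.1 i.2 u :=
        continuous_finsetSum _ fun i _ =>
          (schwartz_withSeminorms ℂ ℝ ℂ).continuous_seminorm i
      convert! this using 1
    · exact Seminorm.finset_sup_le_sum _ _
  have : PolynormableSpace ℂ RapidSeq := RapidSeq.withSeminorms.toPolynormableSpace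
  obtain ⟨p₂, hp₂c, hp₂⟩ := Seminorm.exists_le_comp_of_isInducing hqc hi
  obtain ⟨C, m₀, hC, hb⟩ := RapidSeq.exists_bound_prod p₂ hp₂c
  have hint : Integrable (fun t : ℝ => 1 / (1 + |t|) ^ 2) := by
    have h1 := integrable_inv_one_add_sq.const_mul 1
    refine h1.mono' ?_ ?_
    · apply Continuous.aestronglyMeasurable
      exact continuous_const.div (by fun_prop) fun t => by positivity
    · refine Filter.Eventually.of_forall fun t => ?_
      rw [Real.norm_eq_abs, abs_of_nonneg (by positivity), one_mul, one_div]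
      apply inv_anti₀ (by positivity)
      nlinarith [sq_abs t, abs_nonneg t]
  set I := ∫ t : ℝ, 1 / (1 + |t|) ^ 2 with hI
  have hI0 : 0 ≤ I := integral_nonneg fun t => by positivity
  refine ⟨(4 * C) ^ 2 * I, m₀, by positivity, fun u B hB hux huy => ?_⟩
  have h1 : q u ≤ 2 * C * B := by
    have h2 : q u ≤ p₂ (R u) := hp₂ u
    have h3 : RapidSeq.seminorm m₀ (R u).1 ≤ B := by
      apply RapidSeq.seminorm_le
      intro n
      rw [hR.fst_apply]
      exact hux n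
    have h4 : RapidSeq.seminorm m₀ (R u).2 ≤ B := by
      apply RapidSeq.seminorm_le
      intro n
      rw [hR.snd_apply]
      exact huy n
    calc q u ≤ p₂ (R u) := h2
      _ ≤ C * (RapidSeq.seminorm m₀ (R u).1 + RapidSeq.seminorm m₀ (R u).2) := hb _
      _ ≤ C * (B + B) := by gcongr
      _ = _ := by ring
  have h2 : ∀ t, ‖u t‖ ^ 2 ≤ (4 * C * B) ^ 2 * (1 / (1 + |t|) ^ 2) := by
    intro t
    have h3 := SchwartzMap.one_add_le_sup_seminorm_apply (𝕜 := ℂ) (m := (1, 0)) (k := 1) (n := 0)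
      le_rfl le_rfl u t
    rw [norm_iteratedFDeriv_zero, pow_one, pow_one, Real.norm_eq_abs] at h3
    have h4 : (1 + |t|) * ‖u t‖ ≤ 4 * C * B := by
      calc _ ≤ 2 * q u := h3
        _ ≤ 2 * (2 * C * B) := by gcongr
        _ = _ := by ring
    have h5 : ‖u t‖ ≤ 4 * C * B / (1 + |t|) := by
      rw [le_div_iff₀ (by positivity)]
      linarith
    calc ‖u t‖ ^ 2 ≤ (4 * C * B / (1 + |t|)) ^ 2 := pow_le_pow_left₀ (norm_nonneg _) h5 2
      _ = _ := by rw [div_pow]; ring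
  calc ∫ t, ‖u t‖ ^ 2 ≤ ∫ t, (4 * C * B) ^ 2 * (1 / (1 + |t|) ^ 2) :=
        integral_mono (integrable_norm_sq u) (hint.const_mul _) h2
    _ = _ := by rw [integral_const_mul, ← hI]; ring

end Pool.Agent.Lib.MP_f612df_an
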