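import Pool.Agent.Lib.MP_f612df_an.Coeff

/-!
# A Gabor-type expansion in the Schwartz space
-/

open MeasureTheory Real Filter Topology Set
open scoped SchwartzMap FourierTransform ENNReal

namespace Pool.Agent.Lib.MP_f612df_an

/-! ### The partition of unity -/

/-- A smooth step function. -/
noncomputable def stp (x : ℝ) : ℝ := Real.smoothTransition (4 * x + 1 / 2)

lemma stp_one {x : ℝ} (h : 1 / 8 ≤ x) : stp x = 1 :=
  Real.smoothTransition.one_of_one_le (by linarith)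

lemma stp_zero {x : ℝ} (h : x ≤ -(1 / 8)) : stp x = 0 :=
  Real.smoothTransition.zero_of_nonpos (by linarith)

/-- The basic bump of the partition of unity. -/
noncomputable def chi0 (x : ℝ) : ℝ := stp (x + 1 / 4) - stp (x - 1 / 4)

lemma contDiff_chi0 : ContDiff ℝ (⊤ : ℕ∞) chi0 := by
  have h : ContDiff ℝ (⊤ : ℕ∞) Real.smoothTransition := Real.smoothTransition.contDiff
  have h1 : ContDiff ℝ (⊤ : ℕ∞) stp := by
    unfold stp
    exact h.comp (by fun_prop)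
  unfold chi0
  exact (h1.comp (by fun_prop)).sub (h1.comp (by fun_prop))

lemma chi0_eq_zero {x : ℝ} (h : 3 / 8 ≤ |x|) : chi0 x = 0 := by
  unfold chi0
  rcases le_abs'.1 h with h | h
  · rw [stp_zero (by linarith), stp_zero (by linarith), sub_zero]
  · rw [stp_one (by linarith), stp_one (by linarith), sub_self]

lemma hasCompactSupport_chi0 : HasCompactSupport fun x : ℝ => ((chi0 x : ℝ) : ℂ) := by
  apply HasCompactSupport.intro (isCompact_Icc : IsCompact (Icc (-(3 / 8) : ℝ) (3 / 8)))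
  intro x hx
  rw [chi0_eq_zero, Complex.ofReal_zero]
  by_contra h
  push Not at h
  exact hx (abs_le.1 h.le)

/-- The basic bump as a Schwartz function. -/
noncomputable def chi : 𝓢(ℝ, ℂ) := hasCompactSupport_chi0.toSchwartzMap
  (Complex.ofRealCLM.contDiff.comp contDiff_chi0)

lemma chi_apply (x : ℝ) : chi x = ((chi0 x : ℝ) : ℂ) := rfl

lemma chi_eq_zero {x : ℝ} (h : 3 / 8 ≤ |x|) : chi x = 0 := by
  rw [chi_apply, chi0_eq_zero h, Complex.ofReal_zero]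

lemma hasSum_chi (x : ℝ) : HasSum (fun i : ℤ => chi (x - (i : ℝ) / 2)) 1 := by
  set k := ⌊2 * x⌋ with hk
  have h1 : (k : ℝ) ≤ 2 * x := Int.floor_le _
  have h2 : 2 * x < k + 1 := Int.lt_floor_add_one _
  have h3 := hasSum_sum_of_ne_finset_zero (L := SummationFilter.unconditional ℤ)
    (f := fun i : ℤ => chi (x - (i : ℝ) / 2)) (s := {k, k + 1}) (by
      intro i hi
      simp only [Finset.mem_insert, Finset.mem_singleton, not_or] at hi
      apply chi_eq_zero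
      rcases lt_or_ge i k with h | h
      · have h4 : (i : ℝ) + 1 ≤ k := by exact_mod_cast h
        rw [le_abs]
        left
        linarith
      · have h5 : k + 2 ≤ i := by omega
        have h4 : (k : ℝ) + 2 ≤ i := by exact_mod_cast h5
        rw [le_abs]
        right
        linarith)
  convert! h3 using 1
  rw [Finset.sum_pair (by omega), chi_apply, chi_apply, ← Complex.ofReal_add]
  unfold chi0
  have e1 : x - ((k + 1 : ℤ) : ℝ) / 2 + 1 / 4 = x - (k : ℝ) / 2 - 1 / 4 := by push_cast; ring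
  rw [e1]
  have e2 : stp (x - (k : ℝ) / 2 + 1 / 4) = 1 := stp_one (by linarith)
  have e3 : stp (x - ((k + 1 : ℤ) : ℝ) / 2 - 1 / 4) = 0 := by
    apply stp_zero
    push_cast
    linarith
  rw [e2, e3]
  simp

/-- The outer bump. -/
noncomputable def rho : ContDiffBump (0 : ℝ) := ⟨3 / 8, 5 / 8, by norm_num, by norm_num⟩

lemma rho_one {x : ℝ} (h : |x| ≤ 3 / 8) : rho x = 1 :=
  rho.one_of_mem_closedBall (by simpa [rho] using h)

lemma rho_zero {x : ℝ} (h : 5 / 8 ≤ |x|) : rho x = 0 :=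
  rho.zero_of_le_dist (by simpa [rho] using h)

/-- The outer bump as a Schwartz function. -/
noncomputable def rhoS : 𝓢(ℝ, ℂ) :=
  (rho.hasCompactSupport.comp_left (g := ((↑) : ℝ → ℂ)) Complex.ofReal_zero).toSchwartzMap
    (Complex.ofRealCLM.contDiff.comp rho.contDiff)

lemma rhoS_apply (x : ℝ) : rhoS x = ((rho x : ℝ) : ℂ) := rfl

/-! ### Exponentials -/

lemma hasDerivAt_ec (l x : ℝ) :
    HasDerivAt (fun x : ℝ => ec (l * x)) (2 * π * Complex.I * l * ec (l * x)) x := by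
  unfold ec
  have h1 : HasDerivAt (fun x : ℝ => (↑(2 * π * (l * x)) : ℂ) * Complex.I)
      (2 * π * l * Complex.I) x := by
    have h2 : HasDerivAt (fun x : ℝ => 2 * π * (l * x)) (2 * π * l) x := by
      have := ((hasDerivAt_id x).const_mul l).const_mul (2 * π)
      simpa [mul_assoc] using this
    have := h2.ofReal_comp.mul_const Complex.I
    simpa using this
  have h3 := h1.cexp
  refine h3.congr_deriv ?_
  ring

lemma iteratedDeriv_ec (l : ℝ) (n : ℕ) :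
    iteratedDeriv n (fun x : ℝ => ec (l * x)) =
      fun x => (2 * π * Complex.I * l) ^ n * ec (l * x) := by
  induction n with
  | zero => ext x; simp
  | succ n ih =>
    rw [iteratedDeriv_succ, ih]
    ext x
    have := (hasDerivAt_ec l x).const_mul ((2 * π * Complex.I * l : ℂ) ^ n)
    rw [this.deriv]
    ring

lemma contDiff_ec (l : ℝ) : ContDiff ℝ (⊤ : ℕ∞) (fun x : ℝ => ec (l * x)) := by
  unfold ec
  have : ContDiff ℝ (⊤ : ℕ∞) (fun x : ℝ => (↑(2 * π * (l * x)) : ℂ) * Complex.I) := by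
    apply ContDiff.mul _ contDiff_const
    have h1 : ContDiff ℝ (⊤ : ℕ∞) (fun x : ℝ => 2 * π * (l * x)) := by fun_prop
    exact Complex.ofRealCLM.contDiff.comp h1
  exact this.cexp

lemma norm_iteratedFDeriv_ec (l : ℝ) (n : ℕ) (x : ℝ) :
    ‖iteratedFDeriv ℝ n (fun x : ℝ => ec (l * x)) x‖ = (2 * π * |l|) ^ n := by
  rw [norm_iteratedFDeriv_eq_norm_iteratedDeriv, iteratedDeriv_ec, norm_mul, norm_ec, mul_one,
    norm_pow]
  congr 1
  simp [abs_of_pos pi_pos]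

/-! ### The atoms -/

/-- The atoms `x ↦ ρ(x - i/2) e^{2π i l x}`. -/
noncomputable def atom (j : ℤ × ℤ) : 𝓢(ℝ, ℂ) :=
  HasCompactSupport.toSchwartzMap
    (f := fun x : ℝ => rhoS (x - (j.1 : ℝ) / 2) * ec ((j.2 : ℝ) * x))
    (by
      apply HasCompactSupport.mul_right
      have h : HasCompactSupport (rhoS : ℝ → ℂ) :=
        rho.hasCompactSupport.comp_left (g := ((↑) : ℝ → ℂ)) Complex.ofReal_zero
      exact h.comp_homeomorph (Homeomorph.subRight ((j.1 : ℝ) / 2)))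
    (by
      have h1 : ContDiff ℝ (⊤ : ℕ∞) (rhoS : ℝ → ℂ) := rhoS.smooth ⊤
      exact (h1.comp (by fun_prop)).mul (contDiff_ec _))

lemma atom_apply (j : ℤ × ℤ) (x : ℝ) :
    atom j x = rhoS (x - (j.1 : ℝ) / 2) * ec ((j.2 : ℝ) * x) := rfl

/-- `1 + |i| + |l|`. -/
noncomputable def JJ (j : ℤ × ℤ) : ℝ := 1 + |(j.1 : ℝ)| + |(j.2 : ℝ)|

lemma one_le_JJ (j : ℤ × ℤ) : 1 ≤ JJ j := by
  unfold JJ
  have := abs_nonneg (j.1 : ℝ)
  have := abs_nonneg (j.2 : ℝ)
  linarith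

lemma atom_seminorm_le (m n : ℕ) :
    ∃ C : ℝ, 0 ≤ C ∧ ∀ j : ℤ × ℤ, SchwartzMap.seminorm ℂ m n (atom j) ≤ C * JJ j ^ (m + n) := by
  set D := 2 ^ m * (Finset.Iic (m, n)).sup (fun m => SchwartzMap.seminorm ℂ m.1 m.2) rhoS with hD
  have hD0 : 0 ≤ D := by positivity
  refine ⟨2 ^ n * 7 ^ n * D, by positivity, fun j => ?_⟩
  have hJ := one_le_JJ j
  apply SchwartzMap.seminorm_le_bound ℂ m n _ (by positivity)
  intro x
  have h1 : ContDiff ℝ (⊤ : ℕ∞) (fun x : ℝ => rhoS (x - (j.1 : ℝ) / 2)) := by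
    have : ContDiff ℝ (⊤ : ℕ∞) (rhoS : ℝ → ℂ) := rhoS.smooth ⊤
    exact this.comp (by fun_prop)
  have h2 := norm_iteratedFDeriv_mul_le (n := n) h1 (contDiff_ec (j.2 : ℝ)) x
    (by exact_mod_cast le_top)
  change ‖x‖ ^ m * ‖iteratedFDeriv ℝ n
    (fun x : ℝ => rhoS (x - (j.1 : ℝ) / 2) * ec ((j.2 : ℝ) * x)) x‖ ≤ _
  have h3 : ‖x‖ ≤ JJ j * (1 + ‖x - (j.1 : ℝ) / 2‖) := by
    rw [Real.norm_eq_abs, Real.norm_eq_abs]
    have e1 : |x| ≤ |x - (j.1 : ℝ) / 2| + |(j.1 : ℝ) / 2| := by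
      calc |x| = |(x - (j.1 : ℝ) / 2) + (j.1 : ℝ) / 2| := by ring_nf
        _ ≤ _ := abs_add_le _ _
    have e2 : |(j.1 : ℝ) / 2| = |(j.1 : ℝ)| / 2 := by rw [abs_div]; norm_num
    unfold JJ
    have e3 := abs_nonneg (j.1 : ℝ)
    have e4 := abs_nonneg (j.2 : ℝ)
    have e5 := abs_nonneg (x - (j.1 : ℝ) / 2)
    nlinarith [mul_nonneg e3 e5, mul_nonneg e4 e5]
  have h4 : ∀ i ∈ Finset.range (n + 1), ‖x‖ ^ m * ((n.choose i : ℝ) *
      ‖iteratedFDeriv ℝ i (fun x : ℝ => rhoS (x - (j.1 : ℝ) / 2)) x‖ *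
      ‖iteratedFDeriv ℝ (n - i) (fun x : ℝ => ec ((j.2 : ℝ) * x)) x‖) ≤
      (n.choose i : ℝ) * (7 ^ n * D * JJ j ^ (m + n)) := by
    intro i hi
    have hi' : i ≤ n := by
      have := Finset.mem_range.1 hi
      omega
    rw [norm_iteratedFDeriv_ec, iteratedFDeriv_comp_sub]
    have h5 : (1 + ‖x - (j.1 : ℝ) / 2‖) ^ m *
        ‖iteratedFDeriv ℝ i rhoS (x - (j.1 : ℝ) / 2)‖ ≤ D :=
      SchwartzMap.one_add_le_sup_seminorm_apply (𝕜 := ℂ) (m := (m, n)) le_rfl hi' rhoS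
        (x - (j.1 : ℝ) / 2)
    have h6 : 2 * π * |(j.2 : ℝ)| ≤ 7 * JJ j := by
      have hp : 2 * π ≤ 7 := by have := pi_lt_d2; linarith
      unfold JJ
      have e3 := abs_nonneg (j.1 : ℝ)
      have e4 := abs_nonneg (j.2 : ℝ)
      nlinarith [mul_le_mul_of_nonneg_right hp e4]
    have h7 : (2 * π * |(j.2 : ℝ)|) ^ (n - i) ≤ (7 * JJ j) ^ n := by
      calc (2 * π * |(j.2 : ℝ)|) ^ (n - i) ≤ (7 * JJ j) ^ (n - i) := by gcongr
        _ ≤ (7 * JJ j) ^ n := pow_le_pow_right₀ (by linarith) (Nat.sub_le _ _)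
    calc ‖x‖ ^ m * ((n.choose i : ℝ) * ‖iteratedFDeriv ℝ i rhoS (x - (j.1 : ℝ) / 2)‖ *
        (2 * π * |(j.2 : ℝ)|) ^ (n - i))
        ≤ (JJ j * (1 + ‖x - (j.1 : ℝ) / 2‖)) ^ m *
          ((n.choose i : ℝ) * ‖iteratedFDeriv ℝ i rhoS (x - (j.1 : ℝ) / 2)‖ *
          (7 * JJ j) ^ n) := by gcongr
      _ = (n.choose i : ℝ) * (7 ^ n * ((1 + ‖x - (j.1 : ℝ) / 2‖) ^ m *
          ‖iteratedFDeriv ℝ i rhoS (x - (j.1 : ℝ) / 2)‖) * JJ j ^ (m + n)) := by
          rw [mul_pow, mul_pow, pow_add]; ring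
      _ ≤ _ := by gcongr
  calc ‖x‖ ^ m * ‖iteratedFDeriv ℝ n
        (fun x : ℝ => rhoS (x - (j.1 : ℝ) / 2) * ec ((j.2 : ℝ) * x)) x‖
      ≤ ‖x‖ ^ m * ∑ i ∈ Finset.range (n + 1), (n.choose i : ℝ) *
        ‖iteratedFDeriv ℝ i (fun x : ℝ => rhoS (x - (j.1 : ℝ) / 2)) x‖ *
        ‖iteratedFDeriv ℝ (n - i) (fun x : ℝ => ec ((j.2 : ℝ) * x)) x‖ := by gcongr
    _ = ∑ i ∈ Finset.range (n + 1), ‖x‖ ^ m * ((n.choose i : ℝ) *
        ‖iteratedFDeriv ℝ i (fun x : ℝ => rhoS (x - (j.1 : ℝ) / 2)) x‖ *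
        ‖iteratedFDeriv ℝ (n - i) (fun x : ℝ => ec ((j.2 : ℝ) * x)) x‖) := Finset.mul_sum _ _ _
    _ ≤ ∑ i ∈ Finset.range (n + 1), (n.choose i : ℝ) * (7 ^ n * D * JJ j ^ (m + n)) :=
        Finset.sum_le_sum h4
    _ = 2 ^ n * (7 ^ n * D * JJ j ^ (m + n)) := by
        rw [← Finset.sum_mul]
        congr 1
        exact_mod_cast Nat.sum_range_choose n
    _ = _ := by ring

/-! ### The coefficients and the expansion -/

/-- The coefficient functionals. -/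
noncomputable def coef (j : ℤ × ℤ) : 𝓢(ℝ, ℂ) →ₗ[ℂ] ℂ where
  toFun u := 𝓕 (prodS u (shiftS ((j.1 : ℝ) / 2) chi)) (j.2 : ℝ)
  map_add' u v := by
    have : prodS (u + v) (shiftS ((j.1 : ℝ) / 2) chi) =
        prodS u (shiftS ((j.1 : ℝ) / 2) chi) + prodS v (shiftS ((j.1 : ℝ) / 2) chi) := by
      ext x; simp [add_mul]
    rw [this, FourierTransform.fourier_add]
    rfl
  map_smul' a u := by
    have : prodS (a • u) (shiftS ((j.1 : ℝ) / 2) chi) =
        a • prodS u (shiftS ((j.1 : ℝ) / 2) chi) := by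
      ext x; simp [mul_assoc]
    rw [this, FourierTransform.fourier_smul]
    rfl

lemma coef_apply (j : ℤ × ℤ) (u : 𝓢(ℝ, ℂ)) :
    coef j u = 𝓕 (prodS u (shiftS ((j.1 : ℝ) / 2) chi)) (j.2 : ℝ) := rfl

lemma inner_expansion (u : 𝓢(ℝ, ℂ)) (i : ℤ) (x : ℝ) :
    ∑' l : ℤ, coef (i, l) u * atom (i, l) x = u x * chi (x - (i : ℝ) / 2) := by
  set f := prodS u (shiftS ((i : ℝ) / 2) chi) with hf
  have hfx : ∀ t, f t = u t * chi (t - (i : ℝ) / 2) := fun t => by rw [hf]; simp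
  have h1 : ∀ l : ℤ, coef (i, l) u * atom (i, l) x =
      rhoS (x - (i : ℝ) / 2) * (𝓕 f (l : ℝ) * fourier l (x : UnitAddCircle)) := by
    intro l
    rw [coef_apply, atom_apply, fourier_coe_apply]
    have : ec ((l : ℝ) * x) = Complex.exp (2 * π * Complex.I * l * x / (1 : ℝ)) := by
      unfold ec
      congr 1
      push_cast
      ring
    rw [← this]
    ring
  simp_rw [h1]
  rw [tsum_mul_left, ← SchwartzMap.tsum_eq_tsum_fourier, ← hfx]
  rcases le_or_gt (5 / 8) |x - (i : ℝ) / 2| with h | h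
  · rw [rhoS_apply, rho_zero h, hfx, chi_eq_zero (by linarith)]
    simp
  · have h2 : ∑' n : ℤ, f (x + n) = f x := by
      rw [tsum_eq_single 0]
      · simp
      · intro n hn
        rw [hfx, chi_eq_zero, mul_zero]
        have h3 : (1 : ℝ) ≤ |(n : ℝ)| := by
          exact_mod_cast Int.one_le_abs hn
        have h4 : |(n : ℝ)| ≤ |x + n - (i : ℝ) / 2| + |x - (i : ℝ) / 2| := by
          calc |(n : ℝ)| = |(x + n - (i : ℝ) / 2) - (x - (i : ℝ) / 2)| := by ring_nf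
            _ ≤ _ := abs_sub _ _
        linarith
    rw [h2]
    rcases le_or_gt |x - (i : ℝ) / 2| (3 / 8) with h5 | h5
    · rw [rhoS_apply, rho_one h5]; simp
    · rw [hfx, chi_eq_zero h5.le]; simp

/-- The reproducing formula. -/
theorem expansion (u : 𝓢(ℝ, ℂ)) (x : ℝ)
    (hs : Summable fun j : ℤ × ℤ => coef j u * atom j x) :
    ∑' j : ℤ × ℤ, coef j u * atom j x = u x := by
  rw [hs.tsum_prod]
  simp_rw [inner_expansion]
  rw [tsum_mul_left, (hasSum_chi x).tsum_eq, mul_one]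

end Pool.Agent.Lib.MP_f612df_an
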