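import Pool.Agent.Lib.MP_f612df_an.Dual

/-!
# Averaging with a window
-/

open MeasureTheory Real
open scoped SchwartzMap FourierTransform ENNReal

namespace Pool.Agent.Lib.MP_f612df_an

/-- A continuous nonnegative weight which varies slowly at scale `A`. -/
structure IsWeight (A : ℝ) (M : ℕ) (f : ℝ → ℝ) : Prop where
  cont : Continuous f
  nonneg : ∀ x, 0 ≤ f x
  ratio : ∀ x t, f x ≤ (1 + |x - t| / A) ^ M * f t

/-- `∫ (1 + |s|)^M |g s|² ds`. -/
noncomputable def mom (M : ℕ) (g : 𝓢(ℝ, ℂ)) : ℝ := ∫ s, (1 + |s|) ^ M * ‖g s‖ ^ 2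

lemma mom_nonneg (M : ℕ) (g : 𝓢(ℝ, ℂ)) : 0 ≤ mom M g :=
  integral_nonneg fun s => by positivity

lemma pow_interp {A s : ℝ} (hA : 1 ≤ A) (hs : 0 ≤ s) (M : ℕ) :
    (1 + s / A) ^ M ≤ 1 + (1 + s) ^ M / A := by
  have hA0 : 0 < A := by linarith
  have hA1 : 1 / A ≤ 1 := by rw [div_le_one hA0]; exact hA
  have h := (convexOn_pow M).2 (Set.mem_Ici.2 zero_le_one) (Set.mem_Ici.2 (by linarith : 0 ≤ 1 + s))
    (sub_nonneg.2 hA1) (by positivity : 0 ≤ 1 / A) (by ring)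
  simp only [smul_eq_mul, mul_one, one_pow] at h
  have e : 1 - 1 / A + 1 / A * (1 + s) = 1 + s / A := by field_simp; ring
  rw [e] at h
  have h1 : 0 ≤ 1 / A := by positivity
  calc (1 + s / A) ^ M ≤ 1 - 1 / A + 1 / A * (1 + s) ^ M := h
    _ ≤ 1 + (1 + s) ^ M / A := by rw [div_mul_eq_mul_div, one_mul]; linarith

namespace IsWeight

variable {A : ℝ} {M : ℕ} {f : ℝ → ℝ}

lemma bound (hf : IsWeight A M f) (hA : 1 ≤ A) (x : ℝ) : |f x| ≤ f 0 * (1 + |x|) ^ M := by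
  have hA0 : 0 < A := by linarith
  rw [abs_of_nonneg (hf.nonneg x)]
  have h1 := hf.ratio x 0
  rw [sub_zero] at h1
  have h2 : |x| / A ≤ |x| := div_le_self (abs_nonneg _) hA
  calc f x ≤ (1 + |x| / A) ^ M * f 0 := h1
    _ ≤ (1 + |x|) ^ M * f 0 := by
        apply mul_le_mul_of_nonneg_right _ (hf.nonneg 0)
        apply pow_le_pow_left₀ (by positivity)
        linarith
    _ = _ := mul_comm _ _

lemma integrable (hf : IsWeight A M f) (hA : 1 ≤ A) (g : 𝓢(ℝ, ℂ)) :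
    Integrable (fun x : ℝ => f x * ‖g x‖ ^ 2) :=
  integrable_weight hf.cont (hf.bound hA) g

lemma integrable_refl (hf : IsWeight A M f) (hA : 1 ≤ A) (g : 𝓢(ℝ, ℂ)) (t : ℝ) :
    Integrable (fun x : ℝ => f x * ‖g (t - x)‖ ^ 2) := by
  have hg := g.continuous
  have hA0 : 0 < A := by linarith
  have h1 : Integrable (fun x : ℝ => f t * ((1 + |t - x|) ^ M * ‖g (t - x)‖ ^ 2)) :=
    ((integrable_poly_norm_sq M g).comp_sub_left t).const_mul (f t)
  refine h1.mono' ?_ ?_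
  · apply Continuous.aestronglyMeasurable
    have := hf.cont
    fun_prop
  · refine Filter.Eventually.of_forall fun x => ?_
    have h2 : 0 ≤ f x * ‖g (t - x)‖ ^ 2 := mul_nonneg (hf.nonneg x) (by positivity)
    rw [Real.norm_eq_abs, abs_of_nonneg h2]
    have h3 := hf.ratio x t
    have h4 : |x - t| / A ≤ |t - x| := by
      rw [abs_sub_comm]; exact div_le_self (abs_nonneg _) hA
    calc f x * ‖g (t - x)‖ ^ 2 ≤ ((1 + |x - t| / A) ^ M * f t) * ‖g (t - x)‖ ^ 2 := by gcongr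
      _ ≤ ((1 + |t - x|) ^ M * f t) * ‖g (t - x)‖ ^ 2 := by
          have := hf.nonneg t
          gcongr
      _ = _ := by ring

lemma conv_le (hf : IsWeight A M f) (hA : 1 ≤ A) (g : 𝓢(ℝ, ℂ)) (t : ℝ) :
    ∫⁻ x, ENNReal.ofReal (f x * ‖g (t - x)‖ ^ 2) ≤
      ENNReal.ofReal (((∫ s, ‖g s‖ ^ 2) + mom M g / A) * f t) := by
  have hA0 : 0 < A := by linarith
  rw [← ofReal_integral_eq_lintegral_ofReal (hf.integrable_refl hA g t)
    (Filter.Eventually.of_forall fun x => mul_nonneg (hf.nonneg x) (by positivity))]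
  apply ENNReal.ofReal_le_ofReal
  have h1 : Integrable (fun x : ℝ => f t * ‖g (t - x)‖ ^ 2) :=
    ((integrable_norm_sq g).comp_sub_left t).const_mul (f t)
  have h2 : Integrable (fun x : ℝ => f t / A * ((1 + |t - x|) ^ M * ‖g (t - x)‖ ^ 2)) :=
    ((integrable_poly_norm_sq M g).comp_sub_left t).const_mul (f t / A)
  have h3 : ∫ x, f x * ‖g (t - x)‖ ^ 2 ≤
      ∫ x, (f t * ‖g (t - x)‖ ^ 2 + f t / A * ((1 + |t - x|) ^ M * ‖g (t - x)‖ ^ 2)) := by
    have h12 : Integrable (fun x : ℝ => f t * ‖g (t - x)‖ ^ 2 +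
      f t / A * ((1 + |t - x|) ^ M * ‖g (t - x)‖ ^ 2)) := h1.add h2
    refine integral_mono (hf.integrable_refl hA g t) h12 fun x => ?_
    have h4 := hf.ratio x t
    have h5 := pow_interp hA (abs_nonneg (x - t)) M
    have h6 := hf.nonneg t
    calc f x * ‖g (t - x)‖ ^ 2 ≤ ((1 + |x - t| / A) ^ M * f t) * ‖g (t - x)‖ ^ 2 := by gcongr
      _ ≤ ((1 + (1 + |x - t|) ^ M / A) * f t) * ‖g (t - x)‖ ^ 2 := by gcongr
      _ = _ := by rw [abs_sub_comm x t]; ring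
  refine h3.trans (le_of_eq ?_)
  rw [integral_add h1 h2, integral_const_mul, integral_const_mul,
    integral_sub_left_eq_self (fun s => ‖g s‖ ^ 2),
    integral_sub_left_eq_self (fun s => (1 + |s|) ^ M * ‖g s‖ ^ 2)]
  unfold mom
  ring

lemma le_conv (hf : IsWeight A M f) (hA : 1 ≤ A) (g : 𝓢(ℝ, ℂ)) (t : ℝ) :
    ENNReal.ofReal (((∫ s, ‖g s‖ ^ 2) - mom M g / A) * f t) ≤
      ∫⁻ x, ENNReal.ofReal (f x * ‖g (t - x)‖ ^ 2) := by
  have hA0 : 0 < A := by linarith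
  rw [← ofReal_integral_eq_lintegral_ofReal (hf.integrable_refl hA g t)
    (Filter.Eventually.of_forall fun x => mul_nonneg (hf.nonneg x) (by positivity))]
  apply ENNReal.ofReal_le_ofReal
  have h1 : Integrable (fun x : ℝ => f t * ‖g (t - x)‖ ^ 2) :=
    ((integrable_norm_sq g).comp_sub_left t).const_mul (f t)
  have h2 : Integrable (fun x : ℝ => f t / A * ((1 + |t - x|) ^ M * ‖g (t - x)‖ ^ 2)) :=
    ((integrable_poly_norm_sq M g).comp_sub_left t).const_mul (f t / A)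
  have h3 : ∫ x, (f t * ‖g (t - x)‖ ^ 2 - f t / A * ((1 + |t - x|) ^ M * ‖g (t - x)‖ ^ 2)) ≤
      ∫ x, f x * ‖g (t - x)‖ ^ 2 := by
    have h12 : Integrable (fun x : ℝ => f t * ‖g (t - x)‖ ^ 2 -
      f t / A * ((1 + |t - x|) ^ M * ‖g (t - x)‖ ^ 2)) := h1.sub h2
    refine integral_mono h12 (hf.integrable_refl hA g t) fun x => ?_
    have h4 := hf.ratio t x
    have h5 := pow_interp hA (abs_nonneg (t - x)) M
    have h6 := hf.nonneg t
    have h7 := hf.nonneg x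
    set y := (1 + |t - x| / A) ^ M with hy
    have hy0 : 0 < y := by positivity
    have hy2 : f t * (2 - y) ≤ f x := by
      have : f t / y ≤ f x := by rw [div_le_iff₀ hy0]; linarith
      refine le_trans ?_ this
      rw [le_div_iff₀ hy0]
      nlinarith [mul_nonneg h6 (sq_nonneg (y - 1))]
    have h8 : f t * (1 - (1 + |t - x|) ^ M / A) ≤ f x := by
      refine le_trans ?_ hy2
      apply mul_le_mul_of_nonneg_left _ h6
      linarith
    calc f t * ‖g (t - x)‖ ^ 2 - f t / A * ((1 + |t - x|) ^ M * ‖g (t - x)‖ ^ 2)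
        = (f t * (1 - (1 + |t - x|) ^ M / A)) * ‖g (t - x)‖ ^ 2 := by ring
      _ ≤ f x * ‖g (t - x)‖ ^ 2 := mul_le_mul_of_nonneg_right h8 (by positivity)
  refine le_trans (le_of_eq ?_) h3
  rw [integral_sub h1 h2, integral_const_mul, integral_const_mul,
    integral_sub_left_eq_self (fun s => ‖g s‖ ^ 2),
    integral_sub_left_eq_self (fun s => (1 + |s|) ^ M * ‖g s‖ ^ 2)]
  unfold mom
  ring

lemma double_swap (hf : IsWeight A M f) (g u : 𝓢(ℝ, ℂ)) :
    ∫⁻ x, ∫⁻ t, ENNReal.ofReal (f x * (‖u t‖ ^ 2 * ‖g (t - x)‖ ^ 2)) =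
      ∫⁻ t, ENNReal.ofReal (‖u t‖ ^ 2) * ∫⁻ x, ENNReal.ofReal (f x * ‖g (t - x)‖ ^ 2) := by
  have hfc := hf.cont
  have hu := u.continuous
  have hg := g.continuous
  rw [lintegral_lintegral_swap]
  · congr 1
    ext t
    rw [← lintegral_const_mul]
    · congr 1
      ext x
      rw [← ENNReal.ofReal_mul (by positivity)]
      congr 1
      ring
    · have : Continuous fun x : ℝ => f x * ‖g (t - x)‖ ^ 2 := by fun_prop
      exact this.measurable.ennreal_ofReal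
  · have : Continuous (Function.uncurry fun x t : ℝ => f x * (‖u t‖ ^ 2 * ‖g (t - x)‖ ^ 2)) := by
      unfold Function.uncurry
      fun_prop
    exact this.measurable.ennreal_ofReal.aemeasurable

lemma double_le (hf : IsWeight A M f) (hA : 1 ≤ A) (g u : 𝓢(ℝ, ℂ)) :
    ∫⁻ x, ∫⁻ t, ENNReal.ofReal (f x * (‖u t‖ ^ 2 * ‖g (t - x)‖ ^ 2)) ≤
      ENNReal.ofReal (((∫ s, ‖g s‖ ^ 2) + mom M g / A) * ∫ t, f t * ‖u t‖ ^ 2) := by
  have hA0 : 0 < A := by linarith
  have hc : 0 ≤ (∫ s, ‖g s‖ ^ 2) + mom M g / A :=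
    add_nonneg (integral_nonneg fun s => by positivity) (div_nonneg (mom_nonneg M g) hA0.le)
  rw [hf.double_swap g u, ENNReal.ofReal_mul hc,
    ofReal_integral_eq_lintegral_ofReal (hf.integrable hA u)
      (Filter.Eventually.of_forall fun x => mul_nonneg (hf.nonneg x) (by positivity)),
    ← lintegral_const_mul']
  · refine lintegral_mono fun t => ?_
    calc ENNReal.ofReal (‖u t‖ ^ 2) * ∫⁻ x, ENNReal.ofReal (f x * ‖g (t - x)‖ ^ 2)
        ≤ ENNReal.ofReal (‖u t‖ ^ 2) *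
          ENNReal.ofReal (((∫ s, ‖g s‖ ^ 2) + mom M g / A) * f t) :=
          mul_le_mul_right (hf.conv_le hA g t) _
      _ = ENNReal.ofReal ((∫ s, ‖g s‖ ^ 2) + mom M g / A) * ENNReal.ofReal (f t * ‖u t‖ ^ 2) := by
          rw [← ENNReal.ofReal_mul (by positivity), ← ENNReal.ofReal_mul hc]
          congr 1
          ring
  · exact ENNReal.ofReal_ne_top

lemma le_double (hf : IsWeight A M f) (hA : 1 ≤ A) (g u : 𝓢(ℝ, ℂ)) :
    ENNReal.ofReal (((∫ s, ‖g s‖ ^ 2) - mom M g / A) * ∫ t, f t * ‖u t‖ ^ 2) ≤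
      ∫⁻ x, ∫⁻ t, ENNReal.ofReal (f x * (‖u t‖ ^ 2 * ‖g (t - x)‖ ^ 2)) := by
  have hA0 : 0 < A := by linarith
  rcases le_or_gt ((∫ s, ‖g s‖ ^ 2) - mom M g / A) 0 with hc | hc
  · have h1 : 0 ≤ ∫ t, f t * ‖u t‖ ^ 2 :=
      integral_nonneg fun t => mul_nonneg (hf.nonneg t) (by positivity)
    rw [ENNReal.ofReal_of_nonpos (mul_nonpos_of_nonpos_of_nonneg hc h1)]
    exact bot_le
  rw [hf.double_swap g u, ENNReal.ofReal_mul hc.le,
    ofReal_integral_eq_lintegral_ofReal (hf.integrable hA u)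
      (Filter.Eventually.of_forall fun x => mul_nonneg (hf.nonneg x) (by positivity)),
    ← lintegral_const_mul']
  · refine lintegral_mono fun t => ?_
    calc ENNReal.ofReal ((∫ s, ‖g s‖ ^ 2) - mom M g / A) * ENNReal.ofReal (f t * ‖u t‖ ^ 2)
        = ENNReal.ofReal (‖u t‖ ^ 2) *
          ENNReal.ofReal (((∫ s, ‖g s‖ ^ 2) - mom M g / A) * f t) := by
          rw [← ENNReal.ofReal_mul hc.le, ← ENNReal.ofReal_mul (by positivity)]
          congr 1
          ring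
      _ ≤ ENNReal.ofReal (‖u t‖ ^ 2) * ∫⁻ x, ENNReal.ofReal (f x * ‖g (t - x)‖ ^ 2) :=
          mul_le_mul_right (hf.le_conv hA g t) _
  · exact ENNReal.ofReal_ne_top

end IsWeight

end Pool.Agent.Lib.MP_f612df_an
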