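import Pool.Agent.Lib.MP_f612df_an.PhaseFinal

/-!
# A weighted Wirtinger inequality on one interval
-/

open MeasureTheory Real Filter Topology Set
open scoped SchwartzMap FourierTransform ENNReal RealInnerProductSpace

namespace Pool.Agent.Lib.MP_f612df_an

/-- Wirtinger's inequality with boundary terms. -/
lemma wirtinger {g g' : ℝ → ℂ} {a b : ℝ} (hab : a < b) (hg : ∀ s, HasDerivAt g (g' s) s)
    (hg' : Continuous g') {θ₁ : ℝ} (hθ0 : 0 < θ₁) (hθ1 : θ₁ < 1) :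
    (π * θ₁ / (b - a)) ^ 2 * ∫ s in a..b, ‖g s‖ ^ 2 ≤
      (∫ s in a..b, ‖g' s‖ ^ 2) +
        π * θ₁ / (b - a) * tan (π * θ₁ / 2) * (‖g a‖ ^ 2 + ‖g b‖ ^ 2) := by
  have hL : 0 < b - a := by linarith
  set κ := π * θ₁ / (b - a) with hκ
  have hκ0 : 0 < κ := by positivity
  set m := (a + b) / 2 with hm
  have hcont : Continuous g := continuous_iff_continuousAt.2 fun s => (hg s).continuousAt
  have hcos : ∀ s ∈ Icc a b, cos (κ * (s - m)) ≠ 0 := by
    intro s hs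
    apply ne_of_gt
    apply cos_pos_of_mem_Ioo
    have h1 : |κ * (s - m)| ≤ π * θ₁ / 2 := by
      rw [abs_mul, abs_of_pos hκ0]
      have : |s - m| ≤ (b - a) / 2 := by
        rw [abs_le, hm]
        constructor <;> linarith [hs.1, hs.2]
      calc κ * |s - m| ≤ κ * ((b - a) / 2) := by gcongr
        _ = π * θ₁ / 2 := by rw [hκ]; field_simp
    have h2 : π * θ₁ / 2 < π / 2 := by nlinarith [pi_pos]
    exact abs_lt.1 (h1.trans_lt h2)
  set r : ℝ → ℝ := fun s => κ * tan (κ * (s - m)) with hr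
  have hr' : ∀ s ∈ Icc a b, HasDerivAt r (κ ^ 2 + r s ^ 2) s := by
    intro s hs
    have h1 : HasDerivAt (fun s : ℝ => κ * (s - m)) κ s := by
      simpa using ((hasDerivAt_id s).sub_const m).const_mul κ
    have h2 := (Real.hasDerivAt_tan (hcos s hs)).comp s h1
    have h3 := h2.const_mul κ
    refine h3.congr_deriv ?_
    have hc := hcos s hs
    rw [hr]
    simp only
    rw [tan_eq_sin_div_cos]
    have := sin_sq_add_cos_sq (κ * (s - m))
    field_simp
    linarith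
  have hrc : ContinuousOn r (Icc a b) := fun s hs => (hr' s hs).continuousAt.continuousWithinAt
  set D : ℝ → ℝ := fun s => (κ ^ 2 + r s ^ 2) * ‖g s‖ ^ 2 + r s * (2 * ⟪g s, g' s⟫) with hD
  have hDc : ContinuousOn D (Icc a b) := by
    have h1 : Continuous fun s => ‖g s‖ ^ 2 := by fun_prop
    have h2 : Continuous fun s => (2 * ⟪g s, g' s⟫ : ℝ) := by fun_prop
    exact ((continuousOn_const.add (hrc.pow 2)).mul h1.continuousOn).add
      (hrc.mul h2.continuousOn)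
  have hG : ∀ s ∈ Icc a b, HasDerivAt (fun s => r s * ‖g s‖ ^ 2) (D s) s := by
    intro s hs
    exact (hr' s hs).mul (hg s).norm_sq
  have hFTC : ∫ s in a..b, D s = r b * ‖g b‖ ^ 2 - r a * ‖g a‖ ^ 2 := by
    apply intervalIntegral.integral_eq_sub_of_hasDerivAt
    · intro s hs
      rw [uIcc_of_le hab.le] at hs
      exact hG s hs
    · apply ContinuousOn.intervalIntegrable
      rw [uIcc_of_le hab.le]
      exact hDc
  have hrb : r b = κ * tan (π * θ₁ / 2) := by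
    rw [hr]
    simp only
    congr 2
    rw [hm, hκ]
    field_simp
    ring
  have hra : r a = -(κ * tan (π * θ₁ / 2)) := by
    rw [hr]
    simp only
    have : κ * (a - m) = -(π * θ₁ / 2) := by
      rw [hm, hκ]
      field_simp
      ring
    rw [this, tan_neg]
    ring
  have i1 : IntervalIntegrable (fun s => ‖g' s‖ ^ 2) volume a b :=
    (by fun_prop : Continuous fun s => ‖g' s‖ ^ 2).intervalIntegrable _ _
  have i2 : IntervalIntegrable D volume a b := by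
    apply ContinuousOn.intervalIntegrable
    rw [uIcc_of_le hab.le]
    exact hDc
  have i3 : IntervalIntegrable (fun s => κ ^ 2 * ‖g s‖ ^ 2) volume a b :=
    (by fun_prop : Continuous fun s => κ ^ 2 * ‖g s‖ ^ 2).intervalIntegrable _ _
  have key : 0 ≤ ∫ s in a..b, (‖g' s‖ ^ 2 + D s - κ ^ 2 * ‖g s‖ ^ 2) := by
    apply intervalIntegral.integral_nonneg hab.le
    intro s hs
    have h1 := norm_add_sq_real (g' s) ((r s : ℝ) • g s)
    rw [inner_smul_right, norm_smul, mul_pow, Real.norm_eq_abs, sq_abs,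
      real_inner_comm (g s) (g' s)] at h1
    have h2 : ‖g' s‖ ^ 2 + D s - κ ^ 2 * ‖g s‖ ^ 2 = ‖g' s + (r s : ℝ) • g s‖ ^ 2 := by
      rw [h1, hD]
      simp only
      ring
    rw [h2]
    positivity
  rw [intervalIntegral.integral_sub (i1.add i2) i3, intervalIntegral.integral_add i1 i2, hFTC,
    intervalIntegral.integral_const_mul, hrb, hra] at key
  nlinarith [key]

lemma br_le_max {A a b s : ℝ} (hs : s ∈ Icc a b) : br A s ≤ max (br A a) (br A b) := by
  have h1 : |s| ≤ max |a| |b| := abs_le_max_abs_abs hs.1 hs.2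
  rcases le_total |a| |b| with h | h
  · apply le_max_of_le_right
    rw [max_eq_right h] at h1
    unfold br
    apply Real.sqrt_le_sqrt
    have := pow_le_pow_left₀ (abs_nonneg s) h1 2
    rw [sq_abs, sq_abs] at this
    linarith
  · apply le_max_of_le_left
    rw [max_eq_left h] at h1
    unfold br
    apply Real.sqrt_le_sqrt
    have := pow_le_pow_left₀ (abs_nonneg s) h1 2
    rw [sq_abs, sq_abs] at this
    linarith

/-- The local weighted inequality on a short interval. -/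
lemma local_wirtinger {A p δ θ θ₁ ε : ℝ} {k : ℕ} (hA : 1 ≤ A) (hp : 1 ≤ p) (hδ : 0 ≤ δ)
    (hθ : 0 ≤ θ) (hθ0 : 0 < θ₁) (hθ1 : θ₁ < 1) (hε : 0 < ε) (u : 𝓢(ℝ, ℂ)) {a b : ℝ} (hab : a ≤ b)
    (hgap : max (br A a) (br A b) ^ (p - 1) * (b - a) ≤ θ / 2) :
    ∫ s in a..b, WW A p δ k s ^ 2 * ‖u s‖ ^ 2 ≤
      (θ / θ₁) ^ 2 * (1 + ε) / (4 * π ^ 2) * (∫ s in a..b, ww A p δ k s ^ 2 * ‖derS u s‖ ^ 2) +
      (θ / θ₁) ^ 2 * (1 + 1 / ε) / (4 * π ^ 2) * ((1 + k * p) ^ 2 * A ^ (-(2 * p))) *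
        (∫ s in a..b, WW A p δ k s ^ 2 * ‖u s‖ ^ 2) +
      θ / θ₁ / (2 * π) * tan (π * θ₁ / 2) * (max (br A a) (br A b) ^ (p - 1) *
        ((ww A p δ k a * ‖u a‖) ^ 2 + (ww A p δ k b * ‖u b‖) ^ 2)) := by
  have hA0 : 0 < A := by linarith
  have htan : 0 ≤ tan (π * θ₁ / 2) := by
    apply tan_nonneg_of_nonneg_of_le_pi_div_two (by positivity)
    nlinarith [pi_pos]
  rcases hab.eq_or_lt with rfl | hab
  · simp only [intervalIntegral.integral_same, mul_zero, zero_add]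
    have := br_pos hA0 a
    positivity
  have hL : 0 < b - a := by linarith
  set m := max (br A a) (br A b) ^ (p - 1) with hm
  have hm0 : 0 < m := by
    have := br_pos hA0 a
    have h2 : 0 < max (br A a) (br A b) := lt_max_of_lt_left this
    positivity
  set g : ℝ → ℂ := fun s => ((ww A p δ k s : ℝ) : ℂ) * u s with hg
  set g' : ℝ → ℂ := fun s => ((dww A p δ k s : ℝ) : ℂ) * u s + ((ww A p δ k s : ℝ) : ℂ) * derS u s
    with hg'
  have hu := u.continuous
  have hdu := (derS u).continuous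
  have hwc := continuous_ww (p := p) (k := k) hA0 hδ
  have hWc := continuous_WW (p := p) (k := k) hA0 hδ
  have hdwc := continuous_dww (p := p) (k := k) hA0 hδ
  have hgd : ∀ s, HasDerivAt g (g' s) s := by
    intro s
    exact (hasDerivAt_ww hA0 hδ s).ofReal_comp.mul (hasDerivAt_derS u s)
  have hg'c : Continuous g' := by
    rw [hg']; fun_prop
  have hW := wirtinger hab hgd hg'c hθ0 hθ1
  set κ := π * θ₁ / (b - a) with hκ
  have hκ0 : 0 < κ := by positivity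
  have hgn : ∀ s, ‖g s‖ ^ 2 = ww A p δ k s ^ 2 * ‖u s‖ ^ 2 := by
    intro s
    rw [hg]
    simp only [norm_mul, Complex.norm_real, Real.norm_eq_abs, mul_pow, sq_abs]
  have hgn' : ∀ s, ‖g' s‖ ^ 2 ≤ (1 + ε) * (ww A p δ k s ^ 2 * ‖derS u s‖ ^ 2) +
      (1 + 1 / ε) * ((1 + k * p) ^ 2 * A ^ (-(2 * p))) * (WW A p δ k s ^ 2 * ‖u s‖ ^ 2) := by
    intro s
    have h1 : ‖g' s‖ ≤ |dww A p δ k s| * ‖u s‖ + ww A p δ k s * ‖derS u s‖ := by
      rw [hg']
      simp only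
      refine (norm_add_le _ _).trans (le_of_eq ?_)
      rw [norm_mul, norm_mul, Complex.norm_real, Complex.norm_real, Real.norm_eq_abs,
        Real.norm_eq_abs, abs_of_pos (ww_pos hA0 hδ s)]
    have h2 : |dww A p δ k s| ≤ (1 + k * p) * (A ^ (-p) * WW A p δ k s) := by
      refine (abs_dww_le hA0 (by linarith) hδ s).trans ?_
      apply mul_le_mul_of_nonneg_left _ (by positivity)
      have hb := br_pos hA0 s
      have hw := ww_pos (p := p) (k := k) hA0 hδ s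
      rw [WW_eq hA0 s, div_le_iff₀ hb]
      have h3 : A ^ (-p) * (br A s ^ (p - 1) * ww A p δ k s) * br A s =
          (A ^ (-p) * br A s ^ p) * ww A p δ k s := by
        rw [Real.rpow_sub_one hb.ne']
        field_simp
      rw [h3]
      have h4 : 1 ≤ A ^ (-p) * br A s ^ p := by
        have h5 : A ^ p ≤ br A s ^ p := Real.rpow_le_rpow hA0.le (le_br s) (by linarith)
        calc 1 = A ^ (-p) * A ^ p := by rw [← Real.rpow_add hA0]; simp
          _ ≤ _ := by gcongr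
      nlinarith
    have hWpos := WW_pos (p := p) (k := k) hA0 hδ s
    have hwpos := ww_pos (p := p) (k := k) hA0 hδ s
    set X := ww A p δ k s * ‖derS u s‖ with hX
    set Y := (1 + k * p) * (A ^ (-p) * WW A p δ k s) * ‖u s‖ with hY
    have hX0 : 0 ≤ X := by positivity
    have hY0 : 0 ≤ Y := by positivity
    have h5 : ‖g' s‖ ≤ X + Y := by
      calc ‖g' s‖ ≤ _ := h1
        _ ≤ (1 + k * p) * (A ^ (-p) * WW A p δ k s) * ‖u s‖ + ww A p δ k s * ‖derS u s‖ := by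
            gcongr
        _ = X + Y := by ring
    have h6 : (X + Y) ^ 2 ≤ (1 + ε) * X ^ 2 + (1 + 1 / ε) * Y ^ 2 := by
      have h3 : 0 ≤ (ε * X - Y) ^ 2 / ε := by positivity
      have h4 : (ε * X - Y) ^ 2 / ε = ε * X ^ 2 - 2 * X * Y + 1 / ε * Y ^ 2 := by
        field_simp
        ring
      rw [h4] at h3
      nlinarith
    have h7 : Y ^ 2 = (1 + k * p) ^ 2 * A ^ (-(2 * p)) * (WW A p δ k s ^ 2 * ‖u s‖ ^ 2) := by
      have : A ^ (-(2 * p)) = (A ^ (-p)) ^ 2 := by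
        rw [← Real.rpow_natCast, ← Real.rpow_mul hA0.le]
        congr 1
        push_cast
        ring
      rw [hY, this]
      ring
    calc ‖g' s‖ ^ 2 ≤ (X + Y) ^ 2 := pow_le_pow_left₀ (norm_nonneg _) h5 2
      _ ≤ _ := h6
      _ = _ := by rw [h7, hX]; ring
  -- integrate
  have iW : IntervalIntegrable (fun s => WW A p δ k s ^ 2 * ‖u s‖ ^ 2) volume a b :=
    (by fun_prop : Continuous fun s => WW A p δ k s ^ 2 * ‖u s‖ ^ 2).intervalIntegrable _ _
  have iw : IntervalIntegrable (fun s => ww A p δ k s ^ 2 * ‖derS u s‖ ^ 2) volume a b :=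
    (by fun_prop : Continuous fun s => ww A p δ k s ^ 2 * ‖derS u s‖ ^ 2).intervalIntegrable _ _
  have iw0 : IntervalIntegrable (fun s => ww A p δ k s ^ 2 * ‖u s‖ ^ 2) volume a b :=
    (by fun_prop : Continuous fun s => ww A p δ k s ^ 2 * ‖u s‖ ^ 2).intervalIntegrable _ _
  have ig' : IntervalIntegrable (fun s => ‖g' s‖ ^ 2) volume a b :=
    (by fun_prop : Continuous fun s => ‖g' s‖ ^ 2).intervalIntegrable _ _
  have s1 : ∫ s in a..b, ‖g' s‖ ^ 2 ≤
      (1 + ε) * (∫ s in a..b, ww A p δ k s ^ 2 * ‖derS u s‖ ^ 2) +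
      (1 + 1 / ε) * ((1 + k * p) ^ 2 * A ^ (-(2 * p))) *
        (∫ s in a..b, WW A p δ k s ^ 2 * ‖u s‖ ^ 2) := by
    rw [← intervalIntegral.integral_const_mul, ← intervalIntegral.integral_const_mul,
      ← intervalIntegral.integral_add (iw.const_mul _) (iW.const_mul _)]
    exact intervalIntegral.integral_mono_on hab.le ig' ((iw.const_mul _).add (iW.const_mul _))
      fun s _ => hgn' s
  have s2 : ∫ s in a..b, WW A p δ k s ^ 2 * ‖u s‖ ^ 2 ≤
      m ^ 2 * ∫ s in a..b, ‖g s‖ ^ 2 := by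
    simp_rw [hgn]
    rw [← intervalIntegral.integral_const_mul]
    refine intervalIntegral.integral_mono_on hab.le iW (iw0.const_mul _) fun s hs => ?_
    have h1 : WW A p δ k s ≤ m * ww A p δ k s := by
      rw [WW_eq hA0 s]
      apply mul_le_mul_of_nonneg_right _ (ww_pos hA0 hδ s).le
      exact Real.rpow_le_rpow (br_pos hA0 s).le (br_le_max hs) (by linarith)
    have h2 := pow_le_pow_left₀ (WW_pos (p := p) (k := k) hA0 hδ s).le h1 2
    calc WW A p δ k s ^ 2 * ‖u s‖ ^ 2 ≤ (m * ww A p δ k s) ^ 2 * ‖u s‖ ^ 2 := by gcongr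
      _ = _ := by ring
  have hmκ : m / κ ≤ θ / θ₁ / (2 * π) := by
    rw [hκ, div_div_eq_mul_div, div_div, div_le_div_iff₀ (by positivity) (by positivity)]
    have : m * (b - a) ≤ θ / 2 := hgap
    nlinarith [mul_pos pi_pos hθ0]
  have hm0' : 0 ≤ m / κ := by positivity
  have s3 : m ^ 2 * ∫ s in a..b, ‖g s‖ ^ 2 ≤
      (m / κ) ^ 2 * (∫ s in a..b, ‖g' s‖ ^ 2) +
      (m / κ) * (m * (tan (π * θ₁ / 2) * (‖g a‖ ^ 2 + ‖g b‖ ^ 2))) := by
    have h1 := mul_le_mul_of_nonneg_left hW (by positivity : 0 ≤ (m / κ) ^ 2)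
    calc m ^ 2 * ∫ s in a..b, ‖g s‖ ^ 2 = (m / κ) ^ 2 * (κ ^ 2 * ∫ s in a..b, ‖g s‖ ^ 2) := by
          field_simp
      _ ≤ _ := h1
      _ = _ := by field_simp
  have hi0 : 0 ≤ ∫ s in a..b, ‖g' s‖ ^ 2 :=
    intervalIntegral.integral_nonneg hab.le fun s _ => by positivity
  have hρ : (m / κ) ^ 2 ≤ (θ / θ₁) ^ 2 / (4 * π ^ 2) := by
    calc (m / κ) ^ 2 ≤ (θ / θ₁ / (2 * π)) ^ 2 := pow_le_pow_left₀ hm0' hmκ 2
      _ = _ := by field_simp; ring
  have hga : ‖g a‖ ^ 2 = (ww A p δ k a * ‖u a‖) ^ 2 := by rw [hgn]; ring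
  have hgb : ‖g b‖ ^ 2 = (ww A p δ k b * ‖u b‖) ^ 2 := by rw [hgn]; ring
  rw [hga, hgb] at s3
  calc ∫ s in a..b, WW A p δ k s ^ 2 * ‖u s‖ ^ 2 ≤ _ := s2
    _ ≤ _ := s3
    _ ≤ (θ / θ₁) ^ 2 / (4 * π ^ 2) * (∫ s in a..b, ‖g' s‖ ^ 2) +
      (θ / θ₁ / (2 * π)) * (m * (tan (π * θ₁ / 2) *
        ((ww A p δ k a * ‖u a‖) ^ 2 + (ww A p δ k b * ‖u b‖) ^ 2))) := by gcongr
    _ ≤ (θ / θ₁) ^ 2 / (4 * π ^ 2) *
      ((1 + ε) * (∫ s in a..b, ww A p δ k s ^ 2 * ‖derS u s‖ ^ 2) +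
      (1 + 1 / ε) * ((1 + k * p) ^ 2 * A ^ (-(2 * p))) *
        (∫ s in a..b, WW A p δ k s ^ 2 * ‖u s‖ ^ 2)) +
      (θ / θ₁ / (2 * π)) * (m * (tan (π * θ₁ / 2) *
        ((ww A p δ k a * ‖u a‖) ^ 2 + (ww A p δ k b * ‖u b‖) ^ 2))) := by gcongr
    _ = _ := by ring

end Pool.Agent.Lib.MP_f612df_an
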